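import Mathlib
import Pool.Agent.W307.SE.Stm

/-!
# Project MT: the moments of the 2-Selmer groups of the curves with full rational 2-torsion

The average of `(#Sel_2) ^ κ` over the elliptic curves over `ℚ` with full rational 2-torsion, ordered
by height, is bounded for `κ ≤ 2` (starting files). This project shows that it is unbounded for
`κ > 2`, at least of the order `(log H) ^ (2^(κ-1) + 2^(1-κ) - 5/2)`.

Idea: for `y² = x (x - a) (x - b)` let `G` be the set of the primes `p ∣ a - b` with `p ∤ a b`, `a` a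
square modulo `p`. The pair `(1, d)` is in the 2-Selmer group for every product `d` of primes of `G`
with `d ≡ 1 (mod 8)` that is a square modulo every odd prime divisor of `a b` (and modulo the small
primes). So `#Sel_2 ≥ c 2 ^ (#G - ω(a b))`, and the sum of the powers of the right hand side over the
pairs `(a, b)` is estimated from below by the sieve.
-/

set_option autoImplicit false

namespace Pool.Agent.TH344.MT

open Finset Pool.Agent.W307.SE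

/-- MT-LOC: local solubility. -/
def S_LOC : Prop := ∃ Z : ℕ, ∀ a b d : ℤ, a ≠ 0 → b ≠ 0 → a ≠ b → 0 < d → Squarefree d →
  d % 8 = 1 →
  (∀ p : ℕ, p.Prime → p ≠ 2 → (p ≤ Z ∨ (p : ℤ) ∣ a * b) →
    ¬ (p : ℤ) ∣ d ∧ IsSquare ((d : ℤ) : ZMod p)) →
  (∀ p : ℕ, p.Prime → (p : ℤ) ∣ d → (p : ℤ) ∣ a - b ∧ IsSquare ((a : ℤ) : ZMod p)) →
  ((1 : ℤ), d) ∈ Sel a b

/-- MT-CNT: many elements of the 2-Selmer group. -/
def S_CNT : Prop := ∃ Z C0 : ℕ, ∀ a b : ℤ, a ≠ 0 → b ≠ 0 → a ≠ b → ∀ G : Finset ℕ,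
  (∀ p ∈ G, p.Prime ∧ Z < p ∧ (p : ℤ) ∣ a - b ∧ ¬ (p : ℤ) ∣ a ∧ IsSquare ((a : ℤ) : ZMod p)) →
  2 ^ G.card ≤ C0 * 2 ^ ((a * b).natAbs.primeFactors.card) * (Sel a b).ncard

/-- the primes `p` with `z < p ≤ w` -/
def Pr (z w : ℕ) : Finset ℕ := (Icc (z + 1) w).filter Nat.Prime

open Classical in
/-- the triples of disjoint sets of primes of `(z, w]` with products at most `w ^ L` -/
noncomputable def Trip (z w L : ℕ) : Finset (Finset ℕ × Finset ℕ × Finset ℕ) :=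
  ((Pr z w).powerset ×ˢ (Pr z w).powerset ×ˢ (Pr z w).powerset).filter (fun t =>
    Disjoint t.1 t.2.1 ∧ Disjoint t.1 t.2.2 ∧ Disjoint t.2.1 t.2.2 ∧
    ∏ p ∈ t.1, p ≤ w ^ L ∧ ∏ p ∈ t.2.1, p ≤ w ^ L ∧ ∏ p ∈ t.2.2, p ≤ w ^ L)

/-- MT-EUL: a truncated Euler product (Rankin's trick and Mertens). -/
def S_EUL : Prop := ∀ (α β : ℝ) (z : ℕ), 0 ≤ α → 0 ≤ β → ∃ (L w0 : ℕ) (c : ℝ), 1 ≤ L ∧ 2 ≤ w0 ∧
  0 < c ∧ ∀ w : ℕ, w0 ≤ w →
    c * Real.log w ^ (α + 2 * β) ≤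
      ∑ t ∈ Trip z w L, (∏ p ∈ t.1, (α * (1 - 1 / (p : ℝ)) / p)) * (∏ p ∈ t.2.1, (β / (p : ℝ))) *
        ∏ p ∈ t.2.2, (β / (p : ℝ))

open Classical in
/-- MT-SIE: rough squarefree numbers in arithmetic progressions. -/
def S_SIE : Prop := ∃ (K w0 : ℕ) (c : ℝ), 1 ≤ K ∧ 2 ≤ w0 ∧ 0 < c ∧ ∀ w : ℕ, w0 ≤ w →
  ∀ X m B A : ℕ, 1 ≤ m → 1 ≤ B → (m * B * w ^ K) ^ 2 ≤ X → A.Coprime B →
  (∀ p : ℕ, p.Prime → p ∣ B → p ≤ w) →
    c * (X : ℝ) / (m * B * Real.log w) ≤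
      (((Icc 1 X).filter (fun n => m * n ≤ X ∧ n ≡ A [MOD B] ∧
        (∀ p : ℕ, p.Prime → p ≤ w → ¬ p ∣ n) ∧ Squarefree n)).card : ℝ)

open Classical in
/-- the pairs `(a, b)`, `a, b ≤ X`, `a ≡ 1`, `b ≡ -1 (mod Q)`, `a` squarefree -/
noncomputable def PA (Q X : ℕ) : Finset (ℕ × ℕ) :=
  ((Icc 1 X) ×ˢ (Icc 1 X)).filter (fun t => t.1 ≡ 1 [MOD Q] ∧ Q ∣ t.2 + 1 ∧ Squarefree t.1)

open Classical in
/-- the primes `p > z` with `p ∣ a - b`, `p ∤ a`, `a` a square modulo `p` -/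
noncomputable def GG (z : ℕ) (t : ℕ × ℕ) : Finset ℕ :=
  ((t.1 : ℤ) - t.2).natAbs.primeFactors.filter (fun p => z < p ∧ ¬ p ∣ t.1 ∧
    IsSquare ((t.1 : ℕ) : ZMod p))

/-- MT-SUM: the sum over the pairs. -/
def S_SUM : Prop := ∀ (κ : ℝ) (z Q : ℕ), 0 < κ → 3 ≤ z → (∀ p : ℕ, p.Prime → (p ∣ Q ↔ p ≤ z)) →
  4 ∣ Q → 1 ≤ Q →
  ∃ (K w0 : ℕ) (c : ℝ), 1 ≤ K ∧ 2 ≤ w0 ∧ 0 < c ∧ ∀ w : ℕ, w0 ≤ w →
    c * ((w : ℝ) ^ K) ^ 2 * Real.log w ^ ((2 : ℝ) ^ (κ - 1) + (2 : ℝ) ^ (1 - κ) - 5 / 2) ≤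
      ∑ t ∈ PA Q (w ^ K), (2 : ℝ) ^ (κ * (((GG z t).card : ℝ) - t.1.primeFactors.card -
        t.2.primeFactors.card))

/-- MT-SEL: the 2-Selmer group of `y² = x³ + A x + B` in terms of the differences of the roots. -/
def S_SEL : Prop := ∀ (A B e1 e2 e3 : ℤ), 4 * A ^ 3 + 27 * B ^ 2 ≠ 0 →
  (∀ x : ℤ, x ^ 3 + A * x + B = (x - e1) * (x - e2) * (x - e3)) → (SelR A B).Finite →
    (Sel (e2 - e1) (e3 - e1)).ncard ≤ (SelR A B).ncard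

end Pool.Agent.TH344.MT
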