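import Pool.Agent.TH344.MT.Stm
import Pool.Agent.W612.SE.Seld
import Pool.Agent.W405.SE.GoodP
import Pool.Agent.W407.SE.Ratp

/-!
# MT-CNT: counting elements of the 2-Selmer group
-/

set_option autoImplicit false

namespace Pool.Agent.TH344.MT

open Finset Pool.Agent.W307.SE

namespace Cnt

lemma sel_fin {A B : ℤ} (hA : A ≠ 0) (hB : B ≠ 0) (hAB : A ≠ B) : (Sel A B).Finite := by
  have hS : SELD := Pool.Agent.W612.SE.seld_of
    (Pool.Agent.W405.SE.goodp_of Pool.Agent.W407.SE.ratp)
  refine (hS 1 (fun _ _ _ _ _ => True) A B hA hB hAB odd_one squarefree_one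
    (fun p hp hp1 => ?_) (fun p hp hp1 => ?_)).1
  · exact absurd (Nat.dvd_one.1 hp1) hp.one_lt.ne'
  · exact absurd (Nat.dvd_one.1 hp1) hp.out.one_lt.ne'

/-- the product of the elements -/
def dd (S : Finset ℕ) : ℕ := ∏ p ∈ S, p

lemma dd_pos {S : Finset ℕ} (h : ∀ p ∈ S, p.Prime) : 0 < dd S :=
  Finset.prod_pos fun p hp => (h p hp).pos

lemma prime_dvd_dd {S : Finset ℕ} (h : ∀ p ∈ S, p.Prime) {q : ℕ} (hq : q.Prime) (hd : q ∣ dd S) :
    q ∈ S := by
  obtain ⟨p, hp, hqp⟩ := (hq.prime.dvd_finsetProd_iff _).1 hd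
  rw [(Nat.prime_dvd_prime_iff_eq hq (h p hp)).1 hqp]
  exact hp

lemma dd_odd {S : Finset ℕ} (h : ∀ p ∈ S, p.Prime) (h2 : 2 ∉ S) : Odd (dd S) := by
  rw [← Nat.not_even_iff_odd]
  intro he
  exact h2 (prime_dvd_dd h Nat.prime_two he.two_dvd)

lemma dd_squarefree {S : Finset ℕ} (h : ∀ p ∈ S, p.Prime) : Squarefree (dd S) := by
  unfold dd
  induction S using Finset.induction_on with
  | empty => simp
  | insert p S hp ih =>
    rw [Finset.prod_insert hp]
    have hS : ∀ q ∈ S, q.Prime := fun q hq => h q (Finset.mem_insert_of_mem hq)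
    have hpp : p.Prime := h p (Finset.mem_insert_self _ _)
    refine (Nat.squarefree_mul ?_).2 ⟨hpp.prime.squarefree, ih hS⟩
    rw [hpp.coprime_iff_not_dvd]
    exact fun hd => hp (prime_dvd_dd hS hpp hd)

lemma dd_symm (S T : Finset ℕ) :
    dd (symmDiff S T) * dd (S ∩ T) ^ 2 = dd S * dd T := by
  have h1 : dd (symmDiff S T) = dd (S \ T) * dd (T \ S) := by
    unfold dd
    rw [show symmDiff S T = (S \ T) ∪ (T \ S) from rfl, Finset.prod_union disjoint_sdiff_sdiff]
  have h2 : dd (S \ T) * dd (S ∩ T) = dd S := by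
    unfold dd
    rw [← Finset.prod_union (Finset.disjoint_sdiff_inter S T), Finset.sdiff_union_inter]
  have h3 : dd (T \ S) * dd (S ∩ T) = dd T := by
    unfold dd
    rw [Finset.inter_comm, ← Finset.prod_union (Finset.disjoint_sdiff_inter T S),
      Finset.sdiff_union_inter]
  rw [h1, ← h2, ← h3]
  ring

lemma odd_sq {n : ℕ} (h : Odd n) : ((n : ZMod 8)) ^ 2 = 1 := by
  have h1 : n ^ 2 % 8 = 1 := by
    rw [Nat.odd_iff] at h
    have h2 : n % 8 = 1 ∨ n % 8 = 3 ∨ n % 8 = 5 ∨ n % 8 = 7 := by omega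
    rcases h2 with h2 | h2 | h2 | h2 <;> rw [Nat.pow_mod, h2]
  have h3 : ((n ^ 2 : ℕ) : ZMod 8) = ((1 : ℕ) : ZMod 8) := by
    rw [ZMod.natCast_eq_natCast_iff']
    exact h1
  push_cast at h3
  exact h3

lemma sq_class {q : ℕ} (hq : q.Prime) (hq2 : q ≠ 2) {x y z t : ℕ} (hx : ¬ q ∣ x) (hy : ¬ q ∣ y)
    (hz : ¬ q ∣ z) (hxy : IsSquare (x : ZMod q) ↔ IsSquare (y : ZMod q)) (h : t * z ^ 2 = x * y) :
    IsSquare (t : ZMod q) := by
  have : Fact q.Prime := ⟨hq⟩
  have hx' : (x : ZMod q) ≠ 0 := by rwa [Ne, ZMod.natCast_eq_zero_iff]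
  have hy' : (y : ZMod q) ≠ 0 := by rwa [Ne, ZMod.natCast_eq_zero_iff]
  have hz' : (z : ZMod q) ≠ 0 := by rwa [Ne, ZMod.natCast_eq_zero_iff]
  have hF : ringChar (ZMod q) ≠ 2 := by rw [ZMod.ringChar_zmod_n]; exact hq2
  have h1 : IsSquare ((x : ZMod q) * y) := by
    by_cases hs : IsSquare (x : ZMod q)
    · exact hs.mul (hxy.1 hs)
    · have hs' : ¬ IsSquare (y : ZMod q) := fun h' => hs (hxy.2 h')
      have e1 := (quadraticChar_neg_one_iff_not_isSquare (F := ZMod q)).2 hs
      have e2 := (quadraticChar_neg_one_iff_not_isSquare (F := ZMod q)).2 hs'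
      have e3 : quadraticChar (ZMod q) ((x : ZMod q) * y) = 1 := by
        rw [map_mul, e1, e2]; norm_num
      exact (quadraticChar_one_iff_isSquare (mul_ne_zero hx' hy')).1 e3
  have h2 : (t : ZMod q) * (z : ZMod q) ^ 2 = (x : ZMod q) * y := by exact_mod_cast congrArg (Nat.cast (R := ZMod q)) h
  have h3 : (t : ZMod q) = (x : ZMod q) * y * ((z : ZMod q)⁻¹) ^ 2 := by
    rw [← h2]
    field_simp
  rw [h3]
  exact h1.mul (IsSquare.sq _)

end Cnt

open Cnt in
open Classical in
theorem cnt_of (h : S_LOC) : S_CNT := by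
  obtain ⟨Z0, hZ0⟩ := h
  refine ⟨max Z0 2, 8 * 2 ^ (Z0 + 1), ?_⟩
  intro a b ha hb hab G hG
  have hGp : ∀ p ∈ G, p.Prime := fun p hp => (hG p hp).1
  have hGZ : ∀ p ∈ G, Z0 < p := fun p hp => lt_of_le_of_lt (le_max_left _ _) (hG p hp).2.1
  have hG2 : 2 ∉ G := fun h2 => absurd (hG 2 h2).2.1 (by simp)
  have hGab : ∀ p ∈ G, ¬ (p : ℤ) ∣ a * b := by
    intro p hp hd
    obtain ⟨h1, -, h3, h4, -⟩ := hG p hp
    rcases (Nat.prime_iff_prime_int.1 h1).dvd_or_dvd hd with h5 | h5
    · exact h4 h5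
    · exact h4 (by have := dvd_add h3 h5; simpa using this)
  set Qs : Finset ℕ := (range (Z0 + 1)) ∪ (a * b).natAbs.primeFactors with hQs
  have hab0 : (a * b).natAbs ≠ 0 := by
    rw [Ne, Int.natAbs_eq_zero]
    exact mul_ne_zero ha hb
  have hGQ : ∀ S ⊆ G, ∀ q : ℕ, q.Prime → q ∈ Qs → ¬ q ∣ dd S := by
    intro S hS q hq hqQ hd
    have h1 := hS (prime_dvd_dd (fun p hp => hGp p (hS hp)) hq hd)
    rw [hQs, mem_union, mem_range, Nat.mem_primeFactors] at hqQ
    rcases hqQ with h2 | h2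
    · have := hGZ q h1
      omega
    · exact hGab q h1 (Int.natCast_dvd.2 h2.2.1)
  set f : Finset ℕ → ZMod 8 × Finset ℕ := fun S =>
    ((dd S : ZMod 8), Qs.filter (fun q => IsSquare (dd S : ZMod q))) with hf
  have hcard := Finset.card_le_mul_card_image_of_maps_to (s := G.powerset)
    (t := (univ : Finset (ZMod 8)) ×ˢ Qs.powerset) (f := f)
    (fun S _ => by
      rw [hf, mem_product]
      exact ⟨mem_univ _, by rw [mem_powerset]; exact filter_subset _ _⟩) (Sel a b).ncard ?_
  · rw [card_powerset, card_product, card_powerset, card_univ, ZMod.card] at hcard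
    have h1 : Qs.card ≤ (Z0 + 1) + (a * b).natAbs.primeFactors.card := by
      refine (card_union_le _ _).trans ?_
      rw [card_range]
    have h2 : 2 ^ Qs.card ≤ 2 ^ (Z0 + 1) * 2 ^ (a * b).natAbs.primeFactors.card := by
      rw [← pow_add]
      exact Nat.pow_le_pow_right (by norm_num) h1
    calc 2 ^ G.card ≤ (Sel a b).ncard * (8 * 2 ^ Qs.card) := hcard
      _ ≤ (Sel a b).ncard * (8 * (2 ^ (Z0 + 1) * 2 ^ (a * b).natAbs.primeFactors.card)) :=
          Nat.mul_le_mul_left _ (Nat.mul_le_mul_left _ h2)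
      _ = 8 * 2 ^ (Z0 + 1) * 2 ^ (a * b).natAbs.primeFactors.card * (Sel a b).ncard := by ring
  · intro c _
    rcases (G.powerset.filter (fun S => f S = c)).eq_empty_or_nonempty with h0 | ⟨S0, hS0⟩
    · rw [h0]; simp
    · rw [← Set.ncard_coe_finset]
      rw [mem_filter, mem_powerset] at hS0
      refine Set.ncard_le_ncard_of_injOn
        (fun S => ((1 : ℤ), ((dd (symmDiff S S0) : ℕ) : ℤ))) ?_ ?_ (sel_fin ha hb hab)
      · intro S hS
        rw [mem_coe, mem_filter, mem_powerset] at hS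
        have hT : symmDiff S S0 ⊆ G := by
          intro p hp
          rw [Finset.mem_symmDiff] at hp
          rcases hp with hp | hp
          · exact hS.1 hp.1
          · exact hS0.1 hp.1
        have hTp : ∀ p ∈ symmDiff S S0, p.Prime := fun p hp => hGp p (hT hp)
        have hSp : ∀ p ∈ S, p.Prime := fun p hp => hGp p (hS.1 hp)
        have hS0p : ∀ p ∈ S0, p.Prime := fun p hp => hGp p (hS0.1 hp)
        have hI : S ∩ S0 ⊆ G := fun p hp => hS.1 (mem_of_mem_inter_left hp)
        have hfe : f S = f S0 := hS.2.trans hS0.2.symm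
        have hf1 : (dd S : ZMod 8) = dd S0 := congrArg Prod.fst hfe
        have hf2 : Qs.filter (fun q => IsSquare (dd S : ZMod q)) =
            Qs.filter (fun q => IsSquare (dd S0 : ZMod q)) := congrArg Prod.snd hfe
        have hsy := dd_symm S S0
        refine hZ0 a b _ ha hb hab (by exact_mod_cast dd_pos hTp)
          (Int.squarefree_natCast.2 (dd_squarefree hTp)) ?_ ?_ ?_
        · have e1 := odd_sq (dd_odd (fun p hp => hGp p (hI hp)) (fun h2 => hG2 (hI h2)))
          have e2 := odd_sq (dd_odd hS0p (fun h2 => hG2 (hS0.1 h2)))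
          have e3 : ((dd (symmDiff S S0) : ℕ) : ZMod 8) * (dd (S ∩ S0) : ZMod 8) ^ 2 =
              (dd S : ZMod 8) * dd S0 := by
            exact_mod_cast congrArg (Nat.cast (R := ZMod 8)) hsy
          rw [e1, mul_one, hf1, ← pow_two, e2] at e3
          have e4 : ((dd (symmDiff S S0) : ℕ) : ZMod 8) = ((1 : ℕ) : ZMod 8) := by
            rw [e3, Nat.cast_one]
          rw [ZMod.natCast_eq_natCast_iff'] at e4
          omega
        · intro p hp hp2 hpZ
          have hpQ : p ∈ Qs := by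
            rw [hQs, mem_union, mem_range]
            rcases hpZ with h1 | h1
            · left; omega
            · right
              rw [Nat.mem_primeFactors]
              exact ⟨hp, Int.natCast_dvd.1 h1, hab0⟩
          refine ⟨fun hd => hGQ _ hT p hp hpQ (by exact_mod_cast hd), ?_⟩
          have hiff : IsSquare (dd S : ZMod p) ↔ IsSquare (dd S0 : ZMod p) := by
            have h1 := Finset.ext_iff.1 hf2 p
            rw [mem_filter, mem_filter] at h1
            exact ⟨fun h2 => (h1.1 ⟨hpQ, h2⟩).2, fun h2 => (h1.2 ⟨hpQ, h2⟩).2⟩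
          have := sq_class hp hp2 (hGQ _ hS.1 p hp hpQ) (hGQ _ hS0.1 p hp hpQ)
            (hGQ _ hI p hp hpQ) hiff hsy
          simpa using this
        · intro p hp hpd
          have h1 : p ∈ G := hT (prime_dvd_dd hTp hp (by exact_mod_cast hpd))
          obtain ⟨-, -, h3, -, h5⟩ := hG p h1
          exact ⟨h3, h5⟩
      · intro S hS T hT hST
        rw [mem_coe, mem_filter, mem_powerset] at hS hT
        have h1 : dd (symmDiff S S0) = dd (symmDiff T S0) := by
          have h3 : ((dd (symmDiff S S0) : ℕ) : ℤ) = ((dd (symmDiff T S0) : ℕ) : ℤ) :=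
            congrArg Prod.snd hST
          exact_mod_cast h3
        have hp : ∀ U ⊆ G, ∀ p ∈ symmDiff U S0, p.Prime := by
          intro U hU p hp
          rw [Finset.mem_symmDiff] at hp
          rcases hp with hp | hp
          · exact hGp p (hU hp.1)
          · exact hGp p (hS0.1 hp.1)
        have h2 : symmDiff S S0 = symmDiff T S0 := by
          rw [← Nat.primeFactors_prod (hp S hS.1), ← Nat.primeFactors_prod (hp T hT.1)]
          exact congrArg Nat.primeFactors h1
        exact symmDiff_left_injective S0 h2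

end Pool.Agent.TH344.MT
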