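import Pool.Agent.TH344.MT.Stm
import Pool.Agent.Helper256.KM.Mertens

/-!
# MT-EUL: the truncated Euler product
-/

set_option autoImplicit false

namespace Pool.Agent.TH344.MT

open Finset

namespace Eul

open Classical in
/-- all the triples of pairwise disjoint subsets -/
noncomputable def TD (P : Finset ℕ) : Finset (Finset ℕ × Finset ℕ × Finset ℕ) :=
  (P.powerset ×ˢ P.powerset ×ˢ P.powerset).filter (fun t =>
    Disjoint t.1 t.2.1 ∧ Disjoint t.1 t.2.2 ∧ Disjoint t.2.1 t.2.2)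

/-- the weight of a triple -/
noncomputable def W (x y u : ℕ → ℝ) (t : Finset ℕ × Finset ℕ × Finset ℕ) : ℝ :=
  (∏ p ∈ t.1, x p) * (∏ p ∈ t.2.1, y p) * ∏ p ∈ t.2.2, u p

theorem sdiff_powerset (P S : Finset ℕ) : (P \ S).powerset = P.powerset.filter (fun T => Disjoint S T) := by
  ext T
  simp only [mem_powerset, mem_filter, subset_sdiff]
  constructor
  · rintro ⟨h1, h2⟩; exact ⟨h1, h2.symm⟩
  · rintro ⟨h1, h2⟩; exact ⟨h1, h2.symm⟩

theorem sum_TD (P : Finset ℕ) (x y u : ℕ → ℝ) :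
    ∑ t ∈ TD P, W x y u t = ∏ p ∈ P, (1 + x p + y p + u p) := by
  classical
  have e1 : ∏ p ∈ P, (1 + x p + y p + u p) = ∏ p ∈ P, (x p + (y p + (u p + 1))) := by
    apply prod_congr rfl; intro p _; ring
  rw [e1, prod_add]
  have e2 : ∀ S1, ∏ p ∈ P \ S1, (y p + (u p + 1)) = ∑ S2 ∈ (P \ S1).powerset, (∏ p ∈ S2, y p) *
      ∑ S3 ∈ ((P \ S1) \ S2).powerset, ∏ p ∈ S3, u p := by
    intro S1
    rw [prod_add]
    apply sum_congr rfl
    intro S2 _
    rw [prod_add]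
    simp
  simp_rw [e2]
  unfold TD
  rw [sum_filter, sum_product]
  apply sum_congr rfl
  intro S1 _
  rw [sum_product, sdiff_powerset, sum_filter, mul_sum]
  apply sum_congr rfl
  intro S2 _
  by_cases h12 : Disjoint S1 S2
  · rw [if_pos h12]
    have e3 : ((P \ S1) \ S2).powerset = P.powerset.filter (fun T => Disjoint S1 T ∧ Disjoint S2 T) := by
      rw [sdiff_powerset, sdiff_powerset, filter_filter]
    rw [e3, sum_filter, mul_sum, mul_sum]
    apply sum_congr rfl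
    intro S3 _
    by_cases h3 : Disjoint S1 S3 ∧ Disjoint S2 S3
    · rw [if_pos h3, if_pos ⟨h12, h3⟩]
      simp only [W]; ring
    · rw [if_neg h3, if_neg (fun h => h3 h.2)]
      simp
  · rw [if_neg h12, mul_zero]
    apply sum_eq_zero
    intro S3 _
    rw [if_neg (fun h => h12 h.1)]

theorem mem_Pr {z w p : ℕ} (hp : p ∈ Pr z w) : p.Prime ∧ z < p ∧ p ≤ w := by
  unfold Pr at hp
  rw [mem_filter, mem_Icc] at hp
  exact ⟨hp.2, by omega, hp.1.2⟩

theorem Trip_eq (z w L : ℕ) : Trip z w L = (TD (Pr z w)).filter (fun t =>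
    ∏ p ∈ t.1, p ≤ w ^ L ∧ ∏ p ∈ t.2.1, p ≤ w ^ L ∧ ∏ p ∈ t.2.2, p ≤ w ^ L) := by
  classical
  unfold Trip TD
  rw [filter_filter]
  apply filter_congr
  intro t _
  tauto

/-- the Rankin bound, pointwise -/
theorem rankin_point {w L : ℕ} (hw : 2 ≤ w) {s : ℝ} (hs : 0 < s) (S : Finset ℕ) (_hS : ∀ p ∈ S, 1 ≤ p)
    (h : ¬ ∏ p ∈ S, p ≤ w ^ L) :
    1 ≤ ((w : ℝ) ^ L) ^ (-s) * (∏ p ∈ S, (p : ℝ) ^ s) := by
  have hw0 : (0 : ℝ) < (w : ℝ) ^ L := by positivity
  have e1 : ∏ p ∈ S, (p : ℝ) ^ s = (∏ p ∈ S, (p : ℝ)) ^ s :=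
    Real.finsetProd_rpow S _ (fun p _ => by positivity) s
  rw [e1, Real.rpow_neg hw0.le, inv_mul_eq_div, one_le_div (by positivity)]
  apply Real.rpow_le_rpow hw0.le _ hs.le
  push Not at h
  have h2 : ((w ^ L : ℕ) : ℝ) ≤ ((∏ p ∈ S, p : ℕ) : ℝ) := by exact_mod_cast h.le
  push_cast at h2
  exact h2

/-- the sum over the small triples, from below -/
theorem sum_Trip_ge {z w L : ℕ} (hw : 2 ≤ w) {s : ℝ} (hs : 0 < s) (x y u : ℕ → ℝ)
    (hx : ∀ p, 0 ≤ x p) (hy : ∀ p, 0 ≤ y p) (hu : ∀ p, 0 ≤ u p) :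
    (∏ p ∈ Pr z w, (1 + x p + y p + u p)) - ((w : ℝ) ^ L) ^ (-s) *
      ((∏ p ∈ Pr z w, (1 + (p : ℝ) ^ s * x p + y p + u p)) +
      (∏ p ∈ Pr z w, (1 + x p + (p : ℝ) ^ s * y p + u p)) +
      (∏ p ∈ Pr z w, (1 + x p + y p + (p : ℝ) ^ s * u p))) ≤
    ∑ t ∈ Trip z w L, W x y u t := by
  classical
  rw [Trip_eq, sum_filter]
  have e1 : ∑ t ∈ TD (Pr z w), W (fun p => (p : ℝ) ^ s * x p) y u t =
      ∏ p ∈ Pr z w, (1 + (p : ℝ) ^ s * x p + y p + u p) := sum_TD _ _ _ _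
  have e2 : ∑ t ∈ TD (Pr z w), W x (fun p => (p : ℝ) ^ s * y p) u t =
      ∏ p ∈ Pr z w, (1 + x p + (p : ℝ) ^ s * y p + u p) := sum_TD _ _ _ _
  have e3 : ∑ t ∈ TD (Pr z w), W x y (fun p => (p : ℝ) ^ s * u p) t =
      ∏ p ∈ Pr z w, (1 + x p + y p + (p : ℝ) ^ s * u p) := sum_TD _ _ _ _
  rw [← sum_TD, ← e1, ← e2, ← e3, ← sum_add_distrib, ← sum_add_distrib, mul_sum, ← sum_sub_distrib]
  apply sum_le_sum
  intro t ht
  have hmem : t.1 ⊆ Pr z w ∧ t.2.1 ⊆ Pr z w ∧ t.2.2 ⊆ Pr z w := by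
    unfold TD at ht
    rw [mem_filter, mem_product, mem_product, mem_powerset, mem_powerset, mem_powerset] at ht
    exact ht.1
  have h1p : ∀ S : Finset ℕ, S ⊆ Pr z w → ∀ p ∈ S, 1 ≤ p := fun S hS p hp => (mem_Pr (hS hp)).1.one_lt.le
  set c : ℝ := ((w : ℝ) ^ L) ^ (-s)
  have hc : 0 < c := by positivity
  have hW : 0 ≤ W x y u t := by
    unfold W
    have a1 := prod_nonneg (s := t.1) (fun p _ => hx p)
    have a2 := prod_nonneg (s := t.2.1) (fun p _ => hy p)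
    have a3 := prod_nonneg (s := t.2.2) (fun p _ => hu p)
    positivity
  have w1 : W (fun p => (p : ℝ) ^ s * x p) y u t = (∏ p ∈ t.1, (p : ℝ) ^ s) * W x y u t := by
    simp only [W, prod_mul_distrib]; ring
  have w2 : W x (fun p => (p : ℝ) ^ s * y p) u t = (∏ p ∈ t.2.1, (p : ℝ) ^ s) * W x y u t := by
    simp only [W, prod_mul_distrib]; ring
  have w3 : W x y (fun p => (p : ℝ) ^ s * u p) t = (∏ p ∈ t.2.2, (p : ℝ) ^ s) * W x y u t := by
    simp only [W, prod_mul_distrib]; ring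
  rw [w1, w2, w3]
  have n1 : 0 ≤ ∏ p ∈ t.1, (p : ℝ) ^ s := prod_nonneg (fun p _ => by positivity)
  have n2 : 0 ≤ ∏ p ∈ t.2.1, (p : ℝ) ^ s := prod_nonneg (fun p _ => by positivity)
  have n3 : 0 ≤ ∏ p ∈ t.2.2, (p : ℝ) ^ s := prod_nonneg (fun p _ => by positivity)
  set P1 := ∏ p ∈ t.1, (p : ℝ) ^ s
  set P2 := ∏ p ∈ t.2.1, (p : ℝ) ^ s
  set P3 := ∏ p ∈ t.2.2, (p : ℝ) ^ s
  have e4 : W x y u t - c * (P1 * W x y u t + P2 * W x y u t + P3 * W x y u t) =
      (1 - c * P1 - c * P2 - c * P3) * W x y u t := by ring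
  have q1 : 0 ≤ c * P1 := by positivity
  have q2 : 0 ≤ c * P2 := by positivity
  have q3 : 0 ≤ c * P3 := by positivity
  rw [e4]
  split_ifs with hcond
  · nlinarith
  · have hbig : 1 ≤ c * P1 + c * P2 + c * P3 := by
      by_cases c1 : ∏ p ∈ t.1, p ≤ w ^ L
      · by_cases c2 : ∏ p ∈ t.2.1, p ≤ w ^ L
        · by_cases c3 : ∏ p ∈ t.2.2, p ≤ w ^ L
          · exact absurd ⟨c1, c2, c3⟩ hcond
          · have := rankin_point hw hs t.2.2 (h1p _ hmem.2.2) c3
            linarith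
        · have := rankin_point hw hs t.2.1 (h1p _ hmem.2.1) c2
          linarith
      · have := rankin_point hw hs t.1 (h1p _ hmem.1) c1
        linarith
    nlinarith

/-- `p ^ s - 1 ≤ 2 s log p` -/
theorem pow_sub_one_le {p w : ℕ} (hp : 2 ≤ p) (hpw : p ≤ w) :
    (p : ℝ) ^ (1 / Real.log w) - 1 ≤ 2 * (Real.log p / Real.log w) := by
  have hp1 : (1 : ℝ) < p := by exact_mod_cast (by omega : 1 < p)
  have hpwr : (p : ℝ) ≤ w := by exact_mod_cast hpw
  have hlp : 0 < Real.log p := Real.log_pos hp1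
  have hlw : 0 < Real.log w := Real.log_pos (by linarith)
  have hle : Real.log p ≤ Real.log w := Real.log_le_log (by linarith) hpwr
  rw [Real.rpow_def_of_pos (by linarith)]
  have hq : Real.log p * (1 / Real.log w) = Real.log p / Real.log w := by ring
  rw [hq]
  have h0 : 0 ≤ Real.log p / Real.log w := by positivity
  have h1 : Real.log p / Real.log w ≤ 1 := (div_le_one hlw).mpr hle
  have := Real.abs_exp_sub_one_le (x := Real.log p / Real.log w) (by rw [abs_of_nonneg h0]; exact h1)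
  rw [abs_of_nonneg h0] at this
  exact (le_abs_self _).trans this

/-- comparison of the products -/
theorem prod_compare {z w : ℕ} (hw : 2 ≤ w) {γ C : ℝ} (hγ : 0 ≤ γ) (hC : 0 ≤ C)
    (hM : ∑ p ∈ (Icc 1 w).filter Nat.Prime, Real.log p / p ≤ Real.log w + C)
    (v e : ℕ → ℝ) (hv : ∀ p, 0 ≤ v p) (he : ∀ p, 0 ≤ e p) (he' : ∀ p, e p ≤ γ / p)
    (f : ℕ → ℝ) (hf : ∀ p ∈ Pr z w, f p = 1 + v p + ((p : ℝ) ^ (1 / Real.log w) - 1) * e p) :
    ∏ p ∈ Pr z w, f p ≤ (∏ p ∈ Pr z w, (1 + v p)) * Real.exp (2 * γ * (1 + C / Real.log 2)) := by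
  have hl2 : 0 < Real.log 2 := Real.log_pos (by norm_num)
  have hwr : (2 : ℝ) ≤ w := by exact_mod_cast hw
  have hlw2 : Real.log 2 ≤ Real.log w := Real.log_le_log (by norm_num) hwr
  have hlw : 0 < Real.log w := lt_of_lt_of_le hl2 hlw2
  have h1 : ∏ p ∈ Pr z w, f p ≤ ∏ p ∈ Pr z w, ((1 + v p) *
      Real.exp (2 * γ / Real.log w * (Real.log p / p))) := by
    apply prod_le_prod
    · intro p hp
      obtain ⟨hp1, hp2, hp3⟩ := mem_Pr hp
      have hp1r : (1 : ℝ) ≤ p := by exact_mod_cast hp1.one_lt.le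
      rw [hf p hp]
      have : 1 ≤ (p : ℝ) ^ (1 / Real.log w) := Real.one_le_rpow hp1r (by positivity)
      have := mul_nonneg (sub_nonneg.mpr this) (he p)
      linarith [hv p]
    · intro p hp
      obtain ⟨hp1, hp2, hp3⟩ := mem_Pr hp
      have hp2r : (2 : ℝ) ≤ p := by exact_mod_cast hp1.two_le
      have hlp : 0 < Real.log p := Real.log_pos (by linarith)
      rw [hf p hp]
      have a1 := pow_sub_one_le hp1.two_le hp3
      have hp1r : (1 : ℝ) ≤ p := by linarith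
      have a0 : 0 ≤ (p : ℝ) ^ (1 / Real.log w) - 1 :=
        sub_nonneg.mpr (Real.one_le_rpow hp1r (by positivity))
      have a2 : ((p : ℝ) ^ (1 / Real.log w) - 1) * e p ≤ 2 * (Real.log p / Real.log w) * (γ / p) :=
        mul_le_mul a1 (he' p) (he p) (by positivity)
      have a3 : 2 * (Real.log p / Real.log w) * (γ / p) = 2 * γ / Real.log w * (Real.log p / p) := by
        field_simp
      rw [a3] at a2
      set T := 2 * γ / Real.log w * (Real.log p / p)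
      have hT : 0 ≤ T := by positivity
      have a4 : T + 1 ≤ Real.exp T := Real.add_one_le_exp T
      have hvp := hv p
      nlinarith
  rw [prod_mul_distrib, ← Real.exp_sum] at h1
  refine h1.trans ?_
  apply mul_le_mul_of_nonneg_left _ (prod_nonneg (fun p _ => by have := hv p; linarith))
  apply Real.exp_le_exp.mpr
  rw [← mul_sum]
  have h2 : ∑ p ∈ Pr z w, Real.log p / p ≤ Real.log w + C := by
    refine le_trans ?_ hM
    apply sum_le_sum_of_subset_of_nonneg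
    · intro p hp
      obtain ⟨hp1, hp2, hp3⟩ := mem_Pr hp
      rw [mem_filter, mem_Icc]
      exact ⟨⟨hp1.one_lt.le, hp3⟩, hp1⟩
    · intro p hp _
      rw [mem_filter] at hp
      have : (1 : ℝ) ≤ p := by exact_mod_cast hp.2.one_lt.le
      have := Real.log_nonneg this
      positivity
  calc 2 * γ / Real.log w * ∑ p ∈ Pr z w, Real.log p / p
      ≤ 2 * γ / Real.log w * (Real.log w + C) := mul_le_mul_of_nonneg_left h2 (by positivity)
    _ = 2 * γ * (1 + C / Real.log w) := by field_simp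
    _ ≤ 2 * γ * (1 + C / Real.log 2) := by
        apply mul_le_mul_of_nonneg_left _ (by positivity)
        have := div_le_div_of_nonneg_left hC hl2 hlw2
        linarith

/-- the Euler product from below -/
theorem euler_ge (α β : ℝ) (hα : 0 ≤ α) (hβ : 0 ≤ β) (z : ℕ) : ∃ c : ℝ, 0 < c ∧ ∀ w : ℕ, 3 ≤ w →
    c * Real.log w ^ (α + 2 * β) ≤
      ∏ p ∈ Pr z w, (1 + α * (1 - 1 / (p : ℝ)) / p + β / p + β / p) := by
  obtain ⟨C, hC⟩ := Pool.Agent.Helper256.KM.mertens_inv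
  have hsum : Summable (fun n : ℕ => 1 / (n : ℝ) ^ 2) := Real.summable_one_div_nat_pow.mpr (by norm_num)
  set Z2 : ℝ := ∑' n : ℕ, 1 / (n : ℝ) ^ 2 with hZ2
  set B0 : ℝ := ∑ p ∈ (Icc 1 z).filter Nat.Prime, (1 : ℝ) / p with hB0
  set g : ℝ := α + 2 * β with hg
  have hg0 : 0 ≤ g := by positivity
  refine ⟨Real.exp (-(g * (C + B0)) - (α + g ^ 2) * Z2), Real.exp_pos _, ?_⟩
  intro w hw
  have hw3 : (3 : ℝ) ≤ w := by exact_mod_cast hw
  have hlw : 0 < Real.log w := Real.log_pos (by linarith)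
  have hterm : ∀ p ∈ Pr z w, Real.exp (g / p - (α + g ^ 2) * (1 / (p : ℝ) ^ 2)) ≤
      1 + α * (1 - 1 / (p : ℝ)) / p + β / p + β / p := by
    intro p hp
    obtain ⟨hp1, hp2, hp3⟩ := mem_Pr hp
    have hpr : (2 : ℝ) ≤ p := by exact_mod_cast hp1.two_le
    have hp0 : (0 : ℝ) < p := by linarith
    set v : ℝ := α * (1 - 1 / (p : ℝ)) / p + β / p + β / p with hv
    have hv1 : v = g / p - α * (1 / (p : ℝ) ^ 2) := by
      rw [hv, hg]; field_simp; ring
    have h1p : 1 / (p : ℝ) ≤ 1 := by rw [div_le_one hp0]; linarith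
    have hv0 : 0 ≤ v := by
      rw [hv]
      have : 0 ≤ 1 - 1 / (p : ℝ) := by linarith
      positivity
    have hvle : v ≤ g / p := by
      rw [hv1]
      have : 0 ≤ α * (1 / (p : ℝ) ^ 2) := by positivity
      linarith
    have hlog : v - v ^ 2 ≤ Real.log (1 + v) := by
      have h1 := Real.le_log_one_add_of_nonneg hv0
      have h2 : v - v ^ 2 ≤ 2 * v / (v + 2) := by
        rw [le_div_iff₀ (by linarith)]
        nlinarith [mul_nonneg hv0 hv0, mul_nonneg (mul_nonneg hv0 hv0) hv0]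
      linarith
    have hvsq : v ^ 2 ≤ g ^ 2 * (1 / (p : ℝ) ^ 2) := by
      have := pow_le_pow_left₀ hv0 hvle 2
      calc v ^ 2 ≤ (g / p) ^ 2 := this
        _ = g ^ 2 * (1 / (p : ℝ) ^ 2) := by field_simp
    have e1 : 1 + α * (1 - 1 / (p : ℝ)) / p + β / p + β / p = 1 + v := by rw [hv]; ring
    rw [e1, ← Real.le_log_iff_exp_le (by linarith)]
    calc g / p - (α + g ^ 2) * (1 / (p : ℝ) ^ 2) ≤ v - v ^ 2 := by rw [hv1] at hvsq ⊢; linarith
      _ ≤ _ := hlog
  have h1 : ∏ p ∈ Pr z w, Real.exp (g / p - (α + g ^ 2) * (1 / (p : ℝ) ^ 2)) ≤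
      ∏ p ∈ Pr z w, (1 + α * (1 - 1 / (p : ℝ)) / p + β / p + β / p) :=
    prod_le_prod (fun p _ => (Real.exp_pos _).le) hterm
  refine le_trans ?_ h1
  rw [← Real.exp_sum, Real.rpow_def_of_pos hlw, ← Real.exp_add]
  apply Real.exp_le_exp.mpr
  rw [sum_sub_distrib, ← mul_sum]
  have e2 : ∑ p ∈ Pr z w, g / (p : ℝ) = g * ∑ p ∈ Pr z w, (1 : ℝ) / p := by
    rw [mul_sum]; apply sum_congr rfl; intro p _; ring
  rw [e2]
  have h2 : Real.log (Real.log w) - C - B0 ≤ ∑ p ∈ Pr z w, (1 : ℝ) / p := by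
    have h3 := (abs_le.mp (hC w hw)).1
    have h4 : ∑ p ∈ (Icc 1 w).filter Nat.Prime, (1 : ℝ) / p ≤ B0 + ∑ p ∈ Pr z w, (1 : ℝ) / p := by
      have hsub : (Icc 1 w).filter Nat.Prime ⊆ ((Icc 1 z).filter Nat.Prime) ∪ Pr z w := by
        intro p hp
        rw [mem_filter, mem_Icc] at hp
        rw [mem_union]
        by_cases hpz : p ≤ z
        · left; rw [mem_filter, mem_Icc]; exact ⟨⟨hp.1.1, hpz⟩, hp.2⟩
        · right; unfold Pr; rw [mem_filter, mem_Icc]; exact ⟨⟨by omega, hp.1.2⟩, hp.2⟩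
      have hdisj : Disjoint ((Icc 1 z).filter Nat.Prime) (Pr z w) := by
        rw [disjoint_left]
        intro p hp hp'
        rw [mem_filter, mem_Icc] at hp
        have := (mem_Pr hp').2.1
        omega
      calc ∑ p ∈ (Icc 1 w).filter Nat.Prime, (1 : ℝ) / p
          ≤ ∑ p ∈ ((Icc 1 z).filter Nat.Prime) ∪ Pr z w, (1 : ℝ) / p :=
            sum_le_sum_of_subset_of_nonneg hsub (fun p _ _ => by positivity)
        _ = _ := by rw [sum_union hdisj]
    linarith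
  have h5 : ∑ p ∈ Pr z w, 1 / (p : ℝ) ^ 2 ≤ Z2 := hsum.sum_le_tsum _ (fun n _ => by positivity)
  have h6 := mul_le_mul_of_nonneg_left h2 hg0
  have h7 := mul_le_mul_of_nonneg_left h5 (show 0 ≤ α + g ^ 2 by positivity)
  linarith

end Eul

open Eul in
theorem eul : S_EUL := by
  intro α β z hα hβ
  obtain ⟨C', hC'⟩ := Pool.Agent.Helper256.KM.mertens_log
  set C : ℝ := max C' 0 with hCdef
  have hC0 : 0 ≤ C := le_max_right _ _
  have hC : ∀ w : ℕ, 1 ≤ w → ∑ p ∈ (Icc 1 w).filter Nat.Prime, Real.log p / p ≤ Real.log w + C := by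
    intro w hw
    have := (abs_le.mp (hC' w hw)).2
    have := le_max_left C' 0
    linarith
  obtain ⟨c, hc0, hc⟩ := euler_ge α β hα hβ z
  set γ : ℝ := α + β with hγ
  have hγ0 : 0 ≤ γ := by positivity
  set M : ℝ := Real.exp (2 * γ * (1 + C / Real.log 2)) with hM
  have hM0 : 0 < M := Real.exp_pos _
  obtain ⟨L, hL⟩ := exists_nat_ge (max 1 (Real.log (6 * M)))
  have hL1 : (1 : ℝ) ≤ L := le_trans (le_max_left _ _) hL
  have hL2 : Real.log (6 * M) ≤ L := le_trans (le_max_right _ _) hL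
  have hLM : Real.exp (-(L : ℝ)) * M ≤ 1 / 6 := by
    have h1 : 6 * M ≤ Real.exp L := (Real.log_le_iff_le_exp (by positivity)).mp hL2
    rw [Real.exp_neg, inv_mul_le_iff₀ (Real.exp_pos _)]
    linarith
  refine ⟨L, 3, c / 2, by exact_mod_cast hL1, by norm_num, by positivity, ?_⟩
  intro w hw
  have hw2 : 2 ≤ w := by omega
  have hw3 : (3 : ℝ) ≤ w := by exact_mod_cast hw
  have hlw : 0 < Real.log w := Real.log_pos (by linarith)
  set s : ℝ := 1 / Real.log w with hs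
  have hs0 : 0 < s := by positivity
  set x : ℕ → ℝ := fun p => α * (1 - 1 / (p : ℝ)) / p with hx
  set y : ℕ → ℝ := fun p => β / (p : ℝ) with hy
  have h1p : ∀ p : ℕ, 0 ≤ 1 - 1 / (p : ℝ) := by
    intro p
    rcases Nat.eq_zero_or_pos p with h | h
    · subst h; simp
    · have : (1 : ℝ) ≤ p := by exact_mod_cast h
      have : 1 / (p : ℝ) ≤ 1 := by rw [div_le_one (by linarith)]; exact this
      linarith
  have hx0 : ∀ p, 0 ≤ x p := by
    intro p
    have := h1p p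
    simp only [hx]; positivity
  have hy0 : ∀ p, 0 ≤ y p := by intro p; simp only [hy]; positivity
  have hxg : ∀ p : ℕ, x p ≤ γ / p := by
    intro p
    simp only [hx, hγ]
    apply div_le_div_of_nonneg_right _ (Nat.cast_nonneg p)
    have h2 : 1 - 1 / (p : ℝ) ≤ 1 := by
      have : 0 ≤ 1 / (p : ℝ) := by positivity
      linarith
    nlinarith
  have hyg : ∀ p : ℕ, y p ≤ γ / p := by
    intro p
    simp only [hy, hγ]
    apply div_le_div_of_nonneg_right _ (Nat.cast_nonneg p)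
    linarith
  have hmain := sum_Trip_ge (z := z) (L := L) hw2 hs0 x y y hx0 hy0 hy0
  have hML := hC w (by omega)
  have hF := hc w hw
  set E : ℝ := ∏ p ∈ Pr z w, (1 + x p + y p + y p) with hE
  have hFE : c * Real.log w ^ (α + 2 * β) ≤ E := hF
  have hEexp : ∏ p ∈ Pr z w, (1 + (x p + y p + y p)) = E := by
    rw [hE]; apply prod_congr rfl; intro p _; ring
  have hvv : ∀ p, 0 ≤ x p + y p + y p := by
    intro p; have := hx0 p; have := hy0 p; positivity
  have b1 : ∏ p ∈ Pr z w, (1 + (p : ℝ) ^ s * x p + y p + y p) ≤ E * M := by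
    rw [← hEexp]
    exact prod_compare hw2 hγ0 hC0 hML (fun p => x p + y p + y p) x hvv hx0 hxg _ (fun p _ => by ring)
  have b2 : ∏ p ∈ Pr z w, (1 + x p + (p : ℝ) ^ s * y p + y p) ≤ E * M := by
    rw [← hEexp]
    exact prod_compare hw2 hγ0 hC0 hML (fun p => x p + y p + y p) y hvv hy0 hyg _ (fun p _ => by ring)
  have b3 : ∏ p ∈ Pr z w, (1 + x p + y p + (p : ℝ) ^ s * y p) ≤ E * M := by
    rw [← hEexp]
    exact prod_compare hw2 hγ0 hC0 hML (fun p => x p + y p + y p) y hvv hy0 hyg _ (fun p _ => by ring)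
  have hwL : ((w : ℝ) ^ L) ^ (-s) = Real.exp (-(L : ℝ)) := by
    rw [Real.rpow_def_of_pos (by positivity), Real.log_pow, hs]
    congr 1
    field_simp
  rw [hwL] at hmain
  have hE0 : 0 ≤ E := prod_nonneg (fun p _ => by have := hvv p; linarith)
  have hexpL : 0 < Real.exp (-(L : ℝ)) := Real.exp_pos _
  have h7 : Real.exp (-(L : ℝ)) * ((∏ p ∈ Pr z w, (1 + (p : ℝ) ^ s * x p + y p + y p)) +
      (∏ p ∈ Pr z w, (1 + x p + (p : ℝ) ^ s * y p + y p)) +
      (∏ p ∈ Pr z w, (1 + x p + y p + (p : ℝ) ^ s * y p))) ≤ E / 2 := by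
    calc _ ≤ Real.exp (-(L : ℝ)) * (E * M + E * M + E * M) := by
          apply mul_le_mul_of_nonneg_left _ hexpL.le
          linarith
      _ = 3 * E * (Real.exp (-(L : ℝ)) * M) := by ring
      _ ≤ 3 * E * (1 / 6) := mul_le_mul_of_nonneg_left hLM (by positivity)
      _ = E / 2 := by ring
  have h8 : E / 2 ≤ ∑ t ∈ Trip z w L, W x y y t := by linarith
  calc c / 2 * Real.log w ^ (α + 2 * β) = (c * Real.log w ^ (α + 2 * β)) / 2 := by ring
    _ ≤ E / 2 := by linarith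
    _ ≤ _ := h8

end Pool.Agent.TH344.MT
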