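import Mathlib
import Pool.Agent.H341R2.WeilSharp

/-!
# MT-LOC, characters: elements with prescribed quadratic characters
-/

set_option autoImplicit false

namespace Pool.Agent.TH344.MT.LocX

open Finset Polynomial

variable {F : Type} [Field F] [Fintype F] [DecidableEq F]

/-- `∑ χ(t) χ(t+a) = -1` -/
theorem sum_shift (hF : ringChar F ≠ 2) {a : F} (ha : a ≠ 0) :
    ∑ t : F, quadraticChar F t * quadraticChar F (t + a) = -1 := by
  classical
  have h0 : ∑ u : F, quadraticChar F u = 0 := quadraticChar_sum_zero hF
  have h1 : ∑ u ∈ univ.erase (1 : F), quadraticChar F u = -1 := by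
    have := Finset.add_sum_erase univ (fun u : F => quadraticChar F u) (mem_univ (1 : F))
    rw [h0] at this
    simp only [map_one] at this
    linarith
  have h2 : ∑ t : F, quadraticChar F t * quadraticChar F (t + a)
      = ∑ t ∈ univ.erase (0 : F), quadraticChar F t * quadraticChar F (t + a) := by
    rw [← Finset.add_sum_erase univ _ (mem_univ (0 : F))]
    simp
  rw [h2, ← h1]
  refine Finset.sum_bij (fun t _ => 1 + a / t) ?_ ?_ ?_ ?_
  · intro t ht
    rw [Finset.mem_erase] at ht ⊢
    refine ⟨?_, mem_univ _⟩
    intro h
    have : a / t = 0 := by linear_combination h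
    rcases div_eq_zero_iff.1 this with h | h
    · exact ha h
    · exact ht.1 h
  · intro t ht t' ht' h
    rw [Finset.mem_erase] at ht ht'
    have h3 : a / t = a / t' := by linear_combination h
    rw [div_eq_div_iff ht.1 ht'.1] at h3
    exact (mul_left_cancel₀ ha h3).symm
  · intro u hu
    rw [Finset.mem_erase] at hu
    have hu1 : u - 1 ≠ 0 := sub_ne_zero.2 hu.1
    refine ⟨a / (u - 1), ?_, ?_⟩
    · rw [Finset.mem_erase]
      exact ⟨div_ne_zero ha hu1, mem_univ _⟩
    · field_simp
      ring
  · intro t ht
    rw [Finset.mem_erase] at ht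
    have : t * (t + a) = t ^ 2 * (1 + a / t) := by
      have := ht.1
      field_simp
    rw [← map_mul, this, map_mul, quadraticChar_sq_one' ht.1, one_mul]

/-- `∑ χ(x-r) χ(x-s) = -1` for `r ≠ s` -/
theorem sum_two (hF : ringChar F ≠ 2) {r s : F} (h : r ≠ s) :
    ∑ t : F, quadraticChar F (t - r) * quadraticChar F (t - s) = -1 := by
  rw [← sum_shift hF (sub_ne_zero.2 h)]
  refine Fintype.sum_equiv (Equiv.subRight r) _ _ ?_
  intro t
  simp only [Equiv.subRight_apply]
  congr 2
  ring

theorem sum_one (hF : ringChar F ≠ 2) (r : F) : ∑ t : F, quadraticChar F (t - r) = 0 := by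
  rw [← quadraticChar_sum_zero hF]
  refine Fintype.sum_equiv (Equiv.subRight r) _ _ ?_
  intro t
  simp only [Equiv.subRight_apply]

theorem chi_le (x : F) : quadraticChar F x ≤ 1 := by
  rcases eq_or_ne x 0 with h | h
  · rw [h, quadraticChar_zero]; norm_num
  · rcases quadraticChar_dichotomy h with h | h <;> rw [h] <;> norm_num

theorem le_chi (x : F) : -1 ≤ quadraticChar F x := by
  rcases eq_or_ne x 0 with h | h
  · rw [h, quadraticChar_zero]; norm_num
  · rcases quadraticChar_dichotomy h with h | h <;> rw [h] <;> norm_num

/-- a nonzero square `x` with `x - a` a nonsquare -/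
theorem exists_two (hF : ringChar F ≠ 2) (hc : 4 ≤ Fintype.card F) {a : F} (ha : a ≠ 0) :
    ∃ x : F, quadraticChar F x = 1 ∧ quadraticChar F (x - a) = -1 := by
  classical
  by_contra hno
  push Not at hno
  have h1 : ∑ x : F, (1 + quadraticChar F x) * (1 - quadraticChar F (x - a)) =
      (Fintype.card F : ℤ) + 1 := by
    have e1 : ∑ x : F, quadraticChar F x = 0 := quadraticChar_sum_zero hF
    have e2 := sum_one hF a
    have e3 := sum_two hF (r := (0 : F)) (s := a) ha.symm
    simp only [sub_zero] at e3
    have : ∀ x : F, (1 + quadraticChar F x) * (1 - quadraticChar F (x - a)) =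
        1 + quadraticChar F x - quadraticChar F (x - a) -
          quadraticChar F x * quadraticChar F (x - a) := fun x => by ring
    simp_rw [this]
    rw [Finset.sum_sub_distrib, Finset.sum_sub_distrib, Finset.sum_add_distrib, e1, e2, e3]
    simp [Finset.card_univ]
  have h2 : ∀ x : F, (1 + quadraticChar F x) * (1 - quadraticChar F (x - a)) ≤
      (if x = 0 then 2 else 0) + (if x = a then 2 else 0) := by
    intro x
    by_cases hx0 : x = 0
    · subst hx0
      rw [quadraticChar_zero, if_pos rfl]
      have := le_chi (0 - a)
      have h3 : (0 : ℤ) ≤ (if (0 : F) = a then 2 else 0) := by split_ifs <;> norm_num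
      linarith
    · by_cases hxa : x = a
      · subst hxa
        rw [sub_self, quadraticChar_zero, if_pos rfl, if_neg hx0]
        have := chi_le x
        linarith
      · rw [if_neg hx0, if_neg hxa]
        rcases quadraticChar_dichotomy hx0 with h | h
        · have h3 := hno x h
          rcases quadraticChar_dichotomy (sub_ne_zero.2 hxa) with h4 | h4
          · rw [h, h4]; norm_num
          · exact absurd h4 h3
        · rw [h]; norm_num
  have h3 := Finset.sum_le_sum (fun x (_ : x ∈ (univ : Finset F)) => h2 x)
  rw [h1, Finset.sum_add_distrib, Finset.sum_ite_eq', Finset.sum_ite_eq'] at h3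
  simp only [mem_univ, if_true] at h3
  have : (4 : ℤ) ≤ Fintype.card F := by exact_mod_cast hc
  linarith

/-- a nonzero square `x` with `x - a` and `x - b` nonsquares -/
theorem exists_three (hF : ringChar F ≠ 2) (hc : 30 ≤ Fintype.card F) {a b : F} (ha : a ≠ 0)
    (hb : b ≠ 0) (hab : a ≠ b) :
    ∃ x : F, quadraticChar F x = 1 ∧ quadraticChar F (x - a) = -1 ∧
      quadraticChar F (x - b) = -1 := by
  classical
  by_contra hno
  push Not at hno
  have hw : (∑ x : F, quadraticChar F x * quadraticChar F (x - a) * quadraticChar F (x - b) : ℝ) ≥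
      - (2 * Real.sqrt (Fintype.card F)) := by
    set f : F[X] := X * (X - C a) * (X - C b) with hf
    have hd : f.natDegree = 3 := by
      rw [hf]
      compute_degree!
    have h1 := Pool.Agent.H341R2.Sharp.weil_sharp hF f (by rw [hd]; norm_num) (by
      intro c h hch
      have h2 : (C c * h ^ 2).natDegree ≠ 3 := by
        intro h3
        rcases eq_or_ne c 0 with hc0 | hc0
        · rw [hc0] at h3; simp at h3
        · rw [natDegree_C_mul hc0, natDegree_pow] at h3
          omega
      rw [← hch, hd] at h2
      exact h2 rfl)
    rw [hd] at h1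
    have h2 := (abs_le.1 h1).1
    have e : ∑ x : F, (quadraticChar F (f.eval x) : ℝ) =
        ∑ x : F, ((quadraticChar F x : ℝ) * quadraticChar F (x - a) * quadraticChar F (x - b)) := by
      refine Finset.sum_congr rfl fun x _ => ?_
      rw [hf]
      simp only [eval_mul, eval_X, eval_sub, eval_C, map_mul]
      push_cast
      ring
    rw [e] at h2
    norm_num at h2
    simpa using h2
  have h1 : ∑ x : F, (1 + quadraticChar F x) * (1 - quadraticChar F (x - a)) *
      (1 - quadraticChar F (x - b)) = (Fintype.card F : ℤ) + 1 +
      ∑ x : F, quadraticChar F x * quadraticChar F (x - a) * quadraticChar F (x - b) := by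
    have e1 : ∑ x : F, quadraticChar F x = 0 := quadraticChar_sum_zero hF
    have e2 := sum_one hF a
    have e2' := sum_one hF b
    have e3 := sum_two hF (r := (0 : F)) (s := a) ha.symm
    have e4 := sum_two hF (r := (0 : F)) (s := b) hb.symm
    have e5 := sum_two hF hab
    simp only [sub_zero] at e3 e4
    have : ∀ x : F, (1 + quadraticChar F x) * (1 - quadraticChar F (x - a)) *
        (1 - quadraticChar F (x - b)) =
        1 + quadraticChar F x - quadraticChar F (x - a) - quadraticChar F (x - b) -
          quadraticChar F x * quadraticChar F (x - a) -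
          quadraticChar F x * quadraticChar F (x - b) +
          quadraticChar F (x - a) * quadraticChar F (x - b) +
          quadraticChar F x * quadraticChar F (x - a) * quadraticChar F (x - b) :=
      fun x => by ring
    simp_rw [this]
    rw [Finset.sum_add_distrib, Finset.sum_add_distrib, Finset.sum_sub_distrib,
      Finset.sum_sub_distrib, Finset.sum_sub_distrib, Finset.sum_sub_distrib,
      Finset.sum_add_distrib, e1, e2, e2', e3, e4, e5]
    simp [Finset.card_univ]
  have h2 : ∀ x : F, (1 + quadraticChar F x) * (1 - quadraticChar F (x - a)) *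
      (1 - quadraticChar F (x - b)) ≤
      (if x = 0 then 4 else 0) + (if x = a then 4 else 0) + (if x = b then 4 else 0) := by
    intro x
    have i1 := chi_le x
    have i2 := le_chi (x - a)
    have i3 := le_chi (x - b)
    have i1' := le_chi x
    have i2' := chi_le (x - a)
    have i3' := chi_le (x - b)
    have p0 : (0 : ℤ) ≤ (if x = 0 then 4 else 0) := by split_ifs <;> norm_num
    have pa : (0 : ℤ) ≤ (if x = a then 4 else 0) := by split_ifs <;> norm_num
    have pb : (0 : ℤ) ≤ (if x = b then 4 else 0) := by split_ifs <;> norm_num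
    by_cases hx0 : x = 0
    · have e : quadraticChar F x = 0 := by rw [hx0, quadraticChar_zero]
      rw [e, if_pos hx0]
      nlinarith
    · by_cases hxa : x = a
      · have e : quadraticChar F (x - a) = 0 := by rw [hxa, sub_self, quadraticChar_zero]
        rw [e, if_pos hxa]
        nlinarith
      · by_cases hxb : x = b
        · have e : quadraticChar F (x - b) = 0 := by rw [hxb, sub_self, quadraticChar_zero]
          rw [e, if_pos hxb]
          nlinarith
        · rw [if_neg hx0, if_neg hxa, if_neg hxb]
          rcases quadraticChar_dichotomy hx0 with h | h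
          · rcases quadraticChar_dichotomy (sub_ne_zero.2 hxa) with h4 | h4
            · rw [h, h4]; norm_num
            · have h3 := hno x h h4
              rcases quadraticChar_dichotomy (sub_ne_zero.2 hxb) with h5 | h5
              · rw [h, h4, h5]; norm_num
              · exact absurd h5 h3
          · rw [h]; norm_num
  have h3 := Finset.sum_le_sum (fun x (_ : x ∈ (univ : Finset F)) => h2 x)
  rw [h1, Finset.sum_add_distrib, Finset.sum_add_distrib, Finset.sum_ite_eq', Finset.sum_ite_eq',
    Finset.sum_ite_eq'] at h3
  simp only [mem_univ, if_true] at h3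
  have h3' : (Fintype.card F : ℝ) + 1 +
      ∑ x : F, ((quadraticChar F x : ℝ) * quadraticChar F (x - a) * quadraticChar F (x - b)) ≤
      4 + 4 + 4 := by
    exact_mod_cast h3
  have hc' : (30 : ℝ) ≤ Fintype.card F := by exact_mod_cast hc
  set q : ℝ := (Fintype.card F : ℝ) with hq
  have hs : Real.sqrt q ^ 2 = q := Real.sq_sqrt (by linarith)
  have hs0 : 0 ≤ Real.sqrt q := Real.sqrt_nonneg q
  have h4 : q - 2 * Real.sqrt q ≤ 11 := by linarith
  nlinarith [sq_nonneg (Real.sqrt q - 5)]

end Pool.Agent.TH344.MT.LocX
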