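import Pool.Agent.TH344.MT.Stm
import Pool.Agent.TH344.MT.Loc0

/-!
# MT-LOC: local solubility of the pair `(1, d)`
-/

set_option autoImplicit false

namespace Pool.Agent.TH344.MT

open Finset Pool.Agent.W307.SE

namespace LocX

section padic

variable {p : ℕ} [hp : Fact p.Prime]

/-- Hensel: `1 + r` is a square if `‖r‖ < ‖4‖` -/
theorem isSquare_one_add (r : ℚ_[p]) (hr : ‖r‖ < ‖(4 : ℚ_[p])‖) : IsSquare (1 + r) := by
  have h4 : ‖(4 : ℚ_[p])‖ ≤ 1 := by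
    have := Padic.norm_int_le_one (p := p) 4
    exact_mod_cast this
  let r' : ℤ_[p] := ⟨r, (hr.trans_le h4).le⟩
  let F : Polynomial ℤ_[p] := Polynomial.X ^ 2 - Polynomial.C (1 + r')
  have h1 : F.aeval (1 : ℤ_[p]) = -r' := by
    simp [F]
  have h2 : F.derivative.aeval (1 : ℤ_[p]) = 2 := by
    simp [F, one_add_one_eq_two]
  have h3 : ‖(2 : ℤ_[p])‖ ^ 2 = ‖(4 : ℚ_[p])‖ := by
    have e : (((2 : ℤ_[p]) ^ 2 : ℤ_[p]) : ℚ_[p]) = 4 := by
      rw [PadicInt.coe_pow]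
      have : ((2 : ℤ_[p]) : ℚ_[p]) = 2 := by
        have := PadicInt.coe_natCast (p := p) 2
        exact_mod_cast this
      rw [this]; norm_num
    rw [← norm_pow, PadicInt.norm_def, e]
  obtain ⟨z, hz, -⟩ := hensels_lemma (p := p) (R := ℤ_[p]) (F := F) (a := 1) (by
    rw [h1, h2, h3, norm_neg]
    exact hr)
  have h8 : z ^ 2 = 1 + r' := by
    have : F.aeval z = z ^ 2 - (1 + r') := by simp [F]
    rw [this] at hz
    exact sub_eq_zero.1 hz
  refine ⟨(z : ℚ_[p]), ?_⟩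
  have h9 := congrArg (fun w : ℤ_[p] => (w : ℚ_[p])) h8
  simp only [PadicInt.coe_pow, PadicInt.coe_add, PadicInt.coe_one] at h9
  rw [← pow_two, h9]

theorem norm_four (hp2 : p ≠ 2) : ‖(4 : ℚ_[p])‖ = 1 := by
  have h1 : ¬ ‖((4 : ℤ) : ℚ_[p])‖ < 1 := by
    rw [Padic.norm_intCast_lt_one_iff]
    intro h
    have h5 : p ∣ 2 ^ 2 := by exact_mod_cast h
    exact hp2 ((Nat.prime_dvd_prime_iff_eq hp.out Nat.prime_two).1 (hp.out.dvd_of_dvd_pow h5))
  have h2 := Padic.norm_int_le_one (p := p) 4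
  have h3 := le_antisymm h2 (not_lt.1 h1)
  exact_mod_cast h3

/-- `Loc` at a place where `d` is a square -/
theorem loc_of_sq (a b d : ℤ) (hd : IsSquare ((d : ℤ) : ℚ_[p])) (hd0 : d ≠ 0) :
    Loc ℚ_[p] a b 1 d := by
  have hpos : 0 < ‖(4 : ℚ_[p])‖ := by
    rw [norm_pos_iff]; norm_num
  have hpn : ‖(p : ℚ_[p])‖ < 1 := Padic.norm_p_lt_one
  have hlim : Filter.Tendsto (fun k : ℕ => ‖(p : ℚ_[p])‖ ^ k) Filter.atTop (nhds 0) :=
    tendsto_pow_atTop_nhds_zero_of_lt_one (norm_nonneg _) hpn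
  obtain ⟨k, hk⟩ := (hlim.eventually (gt_mem_nhds hpos)).exists
  set t : ℚ_[p] := (p : ℚ_[p]) ^ k with ht
  have ht0 : t ≠ 0 := by
    apply pow_ne_zero
    exact_mod_cast hp.out.ne_zero
  have htn : ‖t‖ < ‖(4 : ℚ_[p])‖ := by rw [ht, norm_pow]; exact hk
  have ht1 : ‖t‖ ≤ 1 := by
    rw [ht, norm_pow]
    exact pow_le_one₀ (norm_nonneg _) hpn.le
  have hsm : ∀ c : ℤ, ‖-((c : ℚ_[p]) * t ^ 2)‖ < ‖(4 : ℚ_[p])‖ := by
    intro c
    rw [norm_neg, norm_mul, norm_pow]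
    have h1 := Padic.norm_int_le_one (p := p) c
    calc ‖(c : ℚ_[p])‖ * ‖t‖ ^ 2 ≤ 1 * ‖t‖ := by
          apply mul_le_mul h1 _ (by positivity) (by norm_num)
          rw [pow_two]
          exact mul_le_of_le_one_left (norm_nonneg _) ht1
      _ < _ := by rw [one_mul]; exact htn
  have hne : ∀ c : ℤ, 1 + -((c : ℚ_[p]) * t ^ 2) ≠ 0 := by
    intro c h
    have h1 : ‖-((c : ℚ_[p]) * t ^ 2)‖ < 1 := by
      refine (hsm c).trans_le ?_
      have := Padic.norm_int_le_one (p := p) 4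
      exact_mod_cast this
    have h2 : -((c : ℚ_[p]) * t ^ 2) = -1 := by linear_combination h
    rw [h2, norm_neg, norm_one] at h1
    exact lt_irrefl _ h1
  obtain ⟨u, hu⟩ := isSquare_one_add _ (hsm a)
  obtain ⟨v, hv⟩ := isSquare_one_add _ (hsm b)
  have hu0 : u ≠ 0 := by
    rintro rfl
    rw [mul_zero] at hu
    exact hne a hu
  have hv0 : v ≠ 0 := by
    rintro rfl
    rw [mul_zero] at hv
    exact hne b hv
  obtain ⟨w, hw⟩ := hd
  have ea : (a : ℚ_[p]) * t ^ 2 = 1 - u * u := by linear_combination -hu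
  have eb : (b : ℚ_[p]) * t ^ 2 = 1 - v * v := by linear_combination -hv
  have ea' : (a : ℚ_[p]) = (1 - u * u) / t ^ 2 := by
    rw [← ea]; field_simp
  have eb' : (b : ℚ_[p]) = (1 - v * v) / t ^ 2 := by
    rw [← eb]; field_simp
  refine ⟨1 / t ^ 2, u * v / t ^ 3, by positivity, ?_, ⟨1 / t, ?_⟩, ⟨u * w / t, ?_⟩⟩
  · rw [ea', eb']; field_simp; ring
  · push_cast; field_simp
  · rw [ea', hw]; field_simp; ring

/-- integers that are nonzero squares modulo the odd prime `p` are squares in `ℚ_p` -/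
theorem sq_of_res (hp2 : p ≠ 2) {z : ℚ_[p]} {m : ℤ} (hm : ¬ (p : ℤ) ∣ m)
    (h : ‖z - (m : ℚ_[p]) ^ 2‖ < 1) : IsSquare z ∧ z ≠ 0 := by
  have hm1 : ‖(m : ℚ_[p])‖ = 1 := by
    have h1 : ¬ ‖((m : ℤ) : ℚ_[p])‖ < 1 := by rwa [Padic.norm_intCast_lt_one_iff]
    exact le_antisymm (Padic.norm_int_le_one m) (not_lt.1 h1)
  have hm0 : (m : ℚ_[p]) ≠ 0 := by
    intro h0; rw [h0, norm_zero] at hm1; norm_num at hm1
  have hr : ‖(z - (m : ℚ_[p]) ^ 2) / (m : ℚ_[p]) ^ 2‖ < ‖(4 : ℚ_[p])‖ := by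
    rw [norm_four hp2, norm_div, norm_pow, hm1, one_pow, div_one]
    exact h
  obtain ⟨s, hs⟩ := isSquare_one_add _ hr
  constructor
  · refine ⟨m * s, ?_⟩
    have : z = (m : ℚ_[p]) ^ 2 * (1 + (z - (m : ℚ_[p]) ^ 2) / (m : ℚ_[p]) ^ 2) := by
      field_simp; ring
    rw [this, hs]; ring
  · rintro rfl
    rw [zero_sub, norm_neg, norm_pow, hm1, one_pow] at h
    exact lt_irrefl _ h

theorem sq_of_zmod (hp2 : p ≠ 2) {n : ℤ} (hn : ¬ (p : ℤ) ∣ n)
    (h : IsSquare ((n : ℤ) : ZMod p)) : IsSquare ((n : ℤ) : ℚ_[p]) ∧ ((n : ℤ) : ℚ_[p]) ≠ 0 := by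
  obtain ⟨r, hr⟩ := h
  obtain ⟨m, rfl⟩ := ZMod.intCast_surjective r
  have h1 : (p : ℤ) ∣ n - m ^ 2 := by
    rw [← ZMod.intCast_zmod_eq_zero_iff_dvd]
    push_cast
    rw [hr]; ring
  have hm : ¬ (p : ℤ) ∣ m := by
    intro hm
    apply hn
    have : n = (n - m ^ 2) + m ^ 2 := by ring
    rw [this]
    exact dvd_add h1 (dvd_pow hm two_ne_zero)
  refine sq_of_res hp2 hm ?_
  have : ((n : ℤ) : ℚ_[p]) - (m : ℚ_[p]) ^ 2 = ((n - m ^ 2 : ℤ) : ℚ_[p]) := by push_cast; ring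
  rw [this, Padic.norm_intCast_lt_one_iff]
  exact h1

/-- the three residue conditions give a local point -/
theorem loc_of_res (hp2 : p ≠ 2) {a b d x : ℤ} (hx : ¬ (p : ℤ) ∣ x) (hd : ¬ (p : ℤ) ∣ d)
    (hxa : ¬ (p : ℤ) ∣ x - a) (hxb : ¬ (p : ℤ) ∣ x - b) (h1 : IsSquare ((x : ℤ) : ZMod p))
    (h2 : IsSquare (((x - a) * d : ℤ) : ZMod p)) (h3 : IsSquare (((x - b) * d : ℤ) : ZMod p)) :
    Loc ℚ_[p] a b 1 d := by
  have hpp : Prime (p : ℤ) := Nat.prime_iff_prime_int.1 hp.out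
  obtain ⟨⟨s1, e1⟩, n1⟩ := sq_of_zmod hp2 hx h1
  obtain ⟨⟨s2, e2⟩, n2⟩ := sq_of_zmod hp2 (fun h => (hpp.dvd_or_dvd h).elim hxa hd) h2
  obtain ⟨⟨s3, e3⟩, n3⟩ := sq_of_zmod hp2 (fun h => (hpp.dvd_or_dvd h).elim hxb hd) h3
  have hd0 : (d : ℚ_[p]) ≠ 0 := by
    intro h
    have : d = 0 := by exact_mod_cast h
    exact hd (this ▸ dvd_zero _)
  have k1 : s1 ≠ 0 := by rintro rfl; rw [mul_zero] at e1; exact n1 e1
  have k2 : s2 ≠ 0 := by rintro rfl; rw [mul_zero] at e2; exact n2 e2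
  have k3 : s3 ≠ 0 := by rintro rfl; rw [mul_zero] at e3; exact n3 e3
  push_cast at e2 e3
  refine ⟨x, s1 * s2 * s3 / d, by positivity, ?_, ⟨s1, by push_cast; rw [mul_one]; exact e1⟩,
    ⟨s2, e2⟩⟩
  have : (s1 * s2 * s3 / (d : ℚ_[p])) ^ 2 = (s1 * s1) * (s2 * s2) * (s3 * s3) / (d : ℚ_[p]) ^ 2 := by
    ring
  rw [this, ← e1, ← e2, ← e3]
  field_simp

/-- the primes dividing `d` -/
theorem loc_of_dvd (hp3 : 3 < p) {a b d : ℤ} (ha : ¬ (p : ℤ) ∣ a) (hab : (p : ℤ) ∣ a - b)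
    (hne : a ≠ b) (hd : (p : ℤ) ∣ d) (hd0 : d ≠ 0) (hsq : ¬ (p : ℤ) ^ 2 ∣ d)
    (hres : IsSquare ((a : ℤ) : ZMod p)) : Loc ℚ_[p] a b 1 d := by
  have hpp : Prime (p : ℤ) := Nat.prime_iff_prime_int.1 hp.out
  have hp2 : p ≠ 2 := by omega
  have hdQ : (d : ℚ_[p]) ≠ 0 := by exact_mod_cast hd0
  -- `c' = (a - b) / d` is integral
  set c : ℚ_[p] := ((a : ℚ_[p]) - b) / d with hc
  have hc0 : c ≠ 0 := by
    rw [hc]
    apply div_ne_zero _ hdQ
    rw [sub_ne_zero]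
    exact_mod_cast hne
  obtain ⟨d', rfl⟩ := hd
  have hd' : ¬ (p : ℤ) ∣ d' := by
    intro h
    apply hsq
    rw [pow_two]
    exact mul_dvd_mul_left _ h
  obtain ⟨c1, hc1⟩ := hab
  have hp0 : (p : ℚ_[p]) ≠ 0 := by exact_mod_cast hp.out.ne_zero
  have hd'0 : (d' : ℚ_[p]) ≠ 0 := by
    intro h
    have : d' = 0 := by exact_mod_cast h
    exact hd' (this ▸ dvd_zero _)
  have hunit : ∀ m : ℤ, ¬ (p : ℤ) ∣ m → ‖(m : ℚ_[p])‖ = 1 := by
    intro m hm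
    have h1 : ¬ ‖((m : ℤ) : ℚ_[p])‖ < 1 := by rwa [Padic.norm_intCast_lt_one_iff]
    exact le_antisymm (Padic.norm_int_le_one m) (not_lt.1 h1)
  have hcn : ‖c‖ ≤ 1 := by
    have : c = c1 / d' := by
      rw [hc]
      have h1 : (a : ℚ_[p]) - b = p * c1 := by exact_mod_cast congrArg (fun z : ℤ => (z : ℚ_[p])) hc1
      rw [h1]
      push_cast
      field_simp
    rw [this, norm_div, hunit d' hd', div_one]
    exact Padic.norm_int_le_one c1
  -- choice of `e`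
  have he : ∃ e : ℕ, 0 < e ∧ e ≤ 3 ∧ (e : ℚ_[p]) ^ 2 ≠ c ∧ (e : ℚ_[p]) ^ 2 ≠ -c := by
    by_contra hno
    push Not at hno
    have h1 := hno 1 (by norm_num) (by norm_num)
    have h2 := hno 2 (by norm_num) (by norm_num)
    have h3 := hno 3 (by norm_num) (by norm_num)
    push_cast at h1 h2 h3
    have key : ∀ m n : ℤ, m ≠ n → m ≠ -n → ∀ x : ℚ_[p], (m : ℚ_[p]) = x ∨ (m : ℚ_[p]) = -x →
        (n : ℚ_[p]) = x ∨ (n : ℚ_[p]) = -x → False := by
      intro m n hmn hmn' x h h'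
      have h4 : (m : ℚ_[p]) = n ∨ (m : ℚ_[p]) = -n := by
        rcases h with h | h <;> rcases h' with h' | h'
        · left; rw [h, h']
        · right; rw [h, h', neg_neg]
        · right; rw [h, h']
        · left; rw [h, h']
      rcases h4 with h4 | h4
      · exact hmn (by exact_mod_cast h4)
      · exact hmn' (by exact_mod_cast h4)
    refine key 1 4 (by norm_num) (by norm_num) c ?_ ?_
    · by_cases h : (1 : ℚ_[p]) ^ 2 = c
      · left; rw [← h]; norm_num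
      · right; rw [← h1 h]; norm_num
    · by_cases h : (2 : ℚ_[p]) ^ 2 = c
      · left; rw [← h]; norm_num
      · right; rw [← h2 h]; norm_num
  obtain ⟨e, he0, he3, hec, hec'⟩ := he
  have heu : ‖(e : ℚ_[p])‖ = 1 := by
    have := hunit (e : ℤ) (by
      intro h
      have h1 : p ∣ e := by exact_mod_cast h
      have := Nat.le_of_dvd he0 h1
      omega)
    exact_mod_cast this
  have heQ : (e : ℚ_[p]) ≠ 0 := by
    intro h; rw [h, norm_zero] at heu; norm_num at heu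
  have h2u : ‖(2 : ℚ_[p])‖ = 1 := by
    have := hunit 2 (by
      intro h
      have h1 : p ∣ 2 := by exact_mod_cast h
      exact hp2 ((Nat.prime_dvd_prime_iff_eq hp.out Nat.prime_two).1 h1))
    exact_mod_cast this
  set t : ℚ_[p] := (c / e - e) / 2 with ht
  set s : ℚ_[p] := (c / e + e) / 2 with hs
  have hst : s ^ 2 = t ^ 2 + c := by
    rw [hs, ht]; field_simp; ring
  have ht0 : t ≠ 0 := by
    intro h
    rw [ht, div_eq_zero_iff] at h
    rcases h with h | h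
    · apply hec
      field_simp at h
      linear_combination -h
    · norm_num at h
  have hs0 : s ≠ 0 := by
    intro h
    rw [hs, div_eq_zero_iff] at h
    rcases h with h | h
    · apply hec'
      field_simp at h
      linear_combination h
    · norm_num at h
  have htn : ‖t‖ ≤ 1 := by
    rw [ht, norm_div, h2u, div_one]
    have h1 : ‖c / (e : ℚ_[p])‖ ≤ 1 := by rw [norm_div, heu, div_one]; exact hcn
    have h2 := Padic.nonarchimedean (p := p) (c / e) (-(e : ℚ_[p]))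
    rw [← sub_eq_add_neg, norm_neg] at h2
    exact h2.trans (max_le h1 heu.le)
  -- `a + d t²` is a square
  obtain ⟨r, hr⟩ := hres
  obtain ⟨m, rfl⟩ := ZMod.intCast_surjective r
  have hm1 : (p : ℤ) ∣ a - m ^ 2 := by
    rw [← ZMod.intCast_zmod_eq_zero_iff_dvd]
    push_cast
    rw [hr]; ring
  have hm : ¬ (p : ℤ) ∣ m := by
    intro hm
    apply ha
    have : a = (a - m ^ 2) + m ^ 2 := by ring
    rw [this]
    exact dvd_add hm1 (dvd_pow hm two_ne_zero)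
  have hx := sq_of_res (p := p) hp2 (z := (a : ℚ_[p]) + ((p * d' : ℤ) : ℚ_[p]) * t ^ 2) hm (by
    have e1 : (a : ℚ_[p]) + ((p * d' : ℤ) : ℚ_[p]) * t ^ 2 - (m : ℚ_[p]) ^ 2 =
        ((a - m ^ 2 : ℤ) : ℚ_[p]) + ((p * d' : ℤ) : ℚ_[p]) * t ^ 2 := by push_cast; ring
    rw [e1]
    refine (Padic.nonarchimedean _ _).trans_lt (max_lt ?_ ?_)
    · rw [Padic.norm_intCast_lt_one_iff]; exact hm1
    · rw [norm_mul, norm_pow]
      have h1 : ‖((p * d' : ℤ) : ℚ_[p])‖ < 1 := by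
        rw [Padic.norm_intCast_lt_one_iff]; exact dvd_mul_right _ _
      calc ‖((p * d' : ℤ) : ℚ_[p])‖ * ‖t‖ ^ 2 ≤ ‖((p * d' : ℤ) : ℚ_[p])‖ * 1 :=
            mul_le_mul_of_nonneg_left (pow_le_one₀ (norm_nonneg _) htn) (norm_nonneg _)
        _ < 1 := by rw [mul_one]; exact h1)
  obtain ⟨⟨w, hw⟩, hx0⟩ := hx
  have hw0 : w ≠ 0 := by rintro rfl; rw [mul_zero] at hw; exact hx0 hw
  set D : ℚ_[p] := ((p * d' : ℤ) : ℚ_[p]) with hD
  have hb : (b : ℚ_[p]) = a - c * D := by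
    rw [hc, div_mul_cancel₀ _ hdQ]; ring
  refine ⟨a + D * t ^ 2, w * (D * t * s), mul_ne_zero hw0 (mul_ne_zero (mul_ne_zero hdQ ht0) hs0),
    ?_, ⟨w, by push_cast; rw [mul_one]; exact hw⟩, ⟨D * t, ?_⟩⟩
  · have e1 : (w * (D * t * s)) ^ 2 = w * w * (D * t ^ 2 * (D * s ^ 2)) := by ring
    have e2 : (a : ℚ_[p]) + D * t ^ 2 - b = D * (t ^ 2 + c) := by rw [hb]; ring
    rw [e1, e2, ← hw, hst]; ring
  · ring

end padic

theorem loc_real {a b d : ℤ} (hd : 0 < d) : Loc ℝ a b 1 d := by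
  set N : ℝ := |(a : ℝ)| + |(b : ℝ)| + 1 with hN
  have ha := le_abs_self (a : ℝ)
  have hb := le_abs_self (b : ℝ)
  have ha0 := abs_nonneg (a : ℝ)
  have hb0 := abs_nonneg (b : ℝ)
  have hN1 : 1 ≤ N := by rw [hN]; linarith
  have hN2 : N ≤ N ^ 2 := by nlinarith
  have h1 : 0 < N ^ 2 - a := by
    have : (a : ℝ) < N := by rw [hN]; linarith
    linarith
  have h2 : 0 < N ^ 2 - b := by
    have : (b : ℝ) < N := by rw [hN]; linarith
    linarith
  have h3 : 0 < N ^ 2 * (N ^ 2 - a) * (N ^ 2 - b) := by positivity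
  have hdR : (0 : ℝ) < d := by exact_mod_cast hd
  refine ⟨N ^ 2, Real.sqrt (N ^ 2 * (N ^ 2 - a) * (N ^ 2 - b)), (Real.sqrt_pos.2 h3).ne',
    Real.sq_sqrt h3.le, ⟨N, by push_cast; ring⟩, ⟨Real.sqrt ((N ^ 2 - a) * d), ?_⟩⟩
  exact (Real.mul_self_sqrt (by positivity)).symm

end LocX

open LocX in
theorem loc : S_LOC := by
  refine ⟨100, ?_⟩
  intro a b d ha hb hab hd hsqf hd8 hsm hbig
  have hd0 : d ≠ 0 := hd.ne'
  refine ⟨squarefree_one, hsqf, loc_real hd, ?_⟩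
  intro p hp
  have hpp : Prime (p : ℤ) := Nat.prime_iff_prime_int.1 hp.out
  by_cases hp2 : p = 2
  · subst hp2
    apply loc_of_sq a b d _ hd0
    have h1 : (d : ℚ_[2]) = 1 + (((d - 1 : ℤ)) : ℚ_[2]) := by push_cast; ring
    rw [h1]
    apply isSquare_one_add
    have h2 : (2 : ℤ) ^ 3 ∣ d - 1 := by
      have : (8 : ℤ) ∣ d - 1 := by omega
      simpa using this
    have h3 : ‖((d - 1 : ℤ) : ℚ_[2])‖ ≤ ((2 : ℕ) : ℝ) ^ (-(3 : ℕ) : ℤ) := by
      rw [Padic.norm_int_le_pow_iff_dvd]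
      exact_mod_cast h2
    have h4 : ‖(4 : ℚ_[2])‖ = 1 / 4 := by
      have e : (4 : ℚ_[2]) = ((2 : ℕ) : ℚ_[2]) ^ 2 := by norm_num
      rw [e, norm_pow, Padic.norm_p]
      norm_num
    rw [h4]
    refine h3.trans_lt ?_
    norm_num
  by_cases hsq : ¬ (p : ℤ) ∣ d ∧ IsSquare ((d : ℤ) : ZMod p)
  · exact loc_of_sq a b d (sq_of_zmod hp2 hsq.1 hsq.2).1 hd0
  have hp100 : 100 < p := by
    by_contra h
    exact hsq (hsm p hp.out hp2 (Or.inl (not_lt.1 h)))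
  have hpab : ¬ (p : ℤ) ∣ a * b := fun h => hsq (hsm p hp.out hp2 (Or.inr h))
  have hpa : ¬ (p : ℤ) ∣ a := fun h => hpab (dvd_mul_of_dvd_left h b)
  have hpb : ¬ (p : ℤ) ∣ b := fun h => hpab (dvd_mul_of_dvd_right h a)
  by_cases hpd : (p : ℤ) ∣ d
  · obtain ⟨h1, h2⟩ := hbig p hp.out hpd
    refine loc_of_dvd (by omega) hpa h1 hab hpd hd0 ?_ h2
    intro h3
    rw [pow_two] at h3
    have := hsqf _ h3
    exact hpp.not_isUnit this
  -- `d` is a nonresidue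
  have hnd : ¬ IsSquare ((d : ℤ) : ZMod p) := fun h => hsq ⟨hpd, h⟩
  have hchar : ringChar (ZMod p) ≠ 2 := by
    rw [ZMod.ringChar_zmod_n]; exact hp2
  have hcard : Fintype.card (ZMod p) = p := ZMod.card p
  have hz : ∀ n : ℤ, ((n : ℤ) : ZMod p) ≠ 0 ↔ ¬ (p : ℤ) ∣ n := fun n => by
    rw [Ne, ZMod.intCast_zmod_eq_zero_iff_dvd]
  have hdz : ((d : ℤ) : ZMod p) ≠ 0 := (hz d).2 hpd
  have hchid : quadraticChar (ZMod p) ((d : ℤ) : ZMod p) = -1 :=
    quadraticChar_neg_one_iff_not_isSquare.2 hnd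
  have fin : ∀ x : ZMod p, quadraticChar (ZMod p) x = 1 →
      quadraticChar (ZMod p) (x - (a : ℤ)) = -1 → quadraticChar (ZMod p) (x - (b : ℤ)) = -1 →
      Loc ℚ_[p] a b 1 d := by
    intro x h1 h2 h3
    obtain ⟨n, rfl⟩ := ZMod.intCast_surjective x
    have ne : ∀ y : ZMod p, quadraticChar (ZMod p) y ≠ 0 → y ≠ 0 := by
      intro y hy h0; exact hy (by rw [h0, quadraticChar_zero])
    have n1 := ne _ (by rw [h1]; norm_num : quadraticChar (ZMod p) ((n : ℤ) : ZMod p) ≠ 0)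
    have n2 := ne _ (by rw [h2]; norm_num :
      quadraticChar (ZMod p) (((n : ℤ) : ZMod p) - (a : ℤ)) ≠ 0)
    have n3 := ne _ (by rw [h3]; norm_num :
      quadraticChar (ZMod p) (((n : ℤ) : ZMod p) - (b : ℤ)) ≠ 0)
    have e2 : (((n - a : ℤ)) : ZMod p) = ((n : ℤ) : ZMod p) - (a : ℤ) := by push_cast; ring
    have e3 : (((n - b : ℤ)) : ZMod p) = ((n : ℤ) : ZMod p) - (b : ℤ) := by push_cast; ring
    refine loc_of_res hp2 (x := n) ((hz n).1 n1) hpd ((hz _).1 (e2 ▸ n2)) ((hz _).1 (e3 ▸ n3))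
      ((quadraticChar_one_iff_isSquare n1).1 h1) ?_ ?_
    · rw [← quadraticChar_one_iff_isSquare (by
        rw [Int.cast_mul, e2]; exact mul_ne_zero n2 hdz), Int.cast_mul, e2, map_mul, h2, hchid]
      norm_num
    · rw [← quadraticChar_one_iff_isSquare (by
        rw [Int.cast_mul, e3]; exact mul_ne_zero n3 hdz), Int.cast_mul, e3, map_mul, h3, hchid]
      norm_num
  by_cases hpc : (p : ℤ) ∣ a - b
  · obtain ⟨x, h1, h2⟩ := exists_two hchar (by rw [hcard]; omega) ((hz a).2 hpa)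
    refine fin x h1 h2 ?_
    have : ((a : ℤ) : ZMod p) = ((b : ℤ) : ZMod p) := by
      have := (ZMod.intCast_zmod_eq_zero_iff_dvd (a - b) p).2 hpc
      push_cast at this
      exact sub_eq_zero.1 this
    rw [← this]; exact h2
  · obtain ⟨x, h1, h2, h3⟩ := exists_three hchar (by rw [hcard]; omega) ((hz a).2 hpa)
      ((hz b).2 hpb) (by
        intro h
        apply hpc
        rw [← ZMod.intCast_zmod_eq_zero_iff_dvd]
        push_cast
        rw [h, sub_self])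
    exact fin x h1 h2 h3

end Pool.Agent.TH344.MT
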