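import Mathlib
import Pool.Agent.TH344.MT.Stm
import Pool.Agent.W672.FK.Lowf
import Pool.Agent.W513.FK.Parf

/-! Project MT: the curve attached to a pair. -/

set_option autoImplicit false

namespace Pool.Agent.TH344.MT

open Finset Pool.Agent.W307.RT Pool.Agent.W307.SE

/-- the smallest root of the curve attached to the pair `(a, b)` -/
def r1 (t : ℕ × ℕ) : ℤ := -(((t.1 : ℤ) + t.2) / 3)

/-- the coefficients of the curve attached to the pair `(a, b)`: the differences of the roots are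
`a` and `b` -/
def cu (t : ℕ × ℕ) : ℤ × ℤ :=
  (r1 t * (r1 t + t.1) + r1 t * (r1 t + t.2) + (r1 t + t.1) * (r1 t + t.2),
    -(r1 t * (r1 t + t.1) * (r1 t + t.2)))

lemma mem_PA {Q X : ℕ} {t : ℕ × ℕ} : t ∈ PA Q X ↔ ((1 ≤ t.1 ∧ t.1 ≤ X) ∧ 1 ≤ t.2 ∧ t.2 ≤ X) ∧
    t.1 ≡ 1 [MOD Q] ∧ Q ∣ t.2 + 1 ∧ Squarefree t.1 := by
  unfold PA
  rw [mem_filter, mem_product, mem_Icc, mem_Icc]

lemma PA_mod {Q X k : ℕ} (hk : k ∣ Q) {t : ℕ × ℕ} (ht : t ∈ PA Q X) :
    t.1 ≡ 1 [MOD k] ∧ k ∣ t.2 + 1 := by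
  rw [mem_PA] at ht
  exact ⟨ht.2.1.of_dvd hk, hk.trans ht.2.2.1⟩

lemma r1_eq {Q X : ℕ} (h3 : 3 ∣ Q) {t : ℕ × ℕ} (ht : t ∈ PA Q X) :
    3 * r1 t = -((t.1 : ℤ) + t.2) := by
  obtain ⟨h1, h2⟩ := PA_mod h3 ht
  have h4 : (3 : ℤ) ∣ (t.1 : ℤ) + t.2 := by
    unfold Nat.ModEq at h1
    omega
  unfold r1
  omega

lemma cu_poly {Q X : ℕ} (h3 : 3 ∣ Q) {t : ℕ × ℕ} (ht : t ∈ PA Q X) (x : ℤ) :
    x ^ 3 + (cu t).1 * x + (cu t).2 = (x - r1 t) * (x - (r1 t + t.1)) * (x - (r1 t + t.2)) := by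
  have h := r1_eq h3 ht
  unfold cu
  simp only
  have h1 : r1 t + (r1 t + t.1) + (r1 t + t.2) = 0 := by linarith
  linear_combination x ^ 2 * h1

lemma cu_disc {Q X : ℕ} (h3 : 3 ∣ Q) {t : ℕ × ℕ} (ht : t ∈ PA Q X) :
    4 * (cu t).1 ^ 3 + 27 * (cu t).2 ^ 2 = -((t.1 : ℤ) * t.2 * (t.1 - t.2)) ^ 2 := by
  have h := r1_eq h3 ht
  have e1 : (t.2 : ℤ) = -3 * r1 t - t.1 := by linarith
  unfold cu
  simp only
  rw [e1]
  ring

lemma ne_PA {Q X : ℕ} (h4 : 4 ∣ Q) {t : ℕ × ℕ} (ht : t ∈ PA Q X) : t.1 ≠ t.2 := by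
  obtain ⟨h1, h2⟩ := PA_mod h4 ht
  unfold Nat.ModEq at h1
  omega

lemma dvd_root {p : ℕ} (hp : p.Prime) {A B e : ℤ} (hA : (p : ℤ) ^ 4 ∣ A) (hB : (p : ℤ) ^ 6 ∣ B)
    (he : e ^ 3 + A * e + B = 0) : (p : ℤ) ^ 2 ∣ e := by
  have hpI : Prime (p : ℤ) := Nat.prime_iff_prime_int.1 hp
  obtain ⟨A', rfl⟩ := hA
  obtain ⟨B', rfl⟩ := hB
  have h1 : (p : ℤ) ∣ e := by
    apply hpI.dvd_of_dvd_pow (n := 3)
    refine ⟨-((p : ℤ) ^ 3 * A' * e + (p : ℤ) ^ 5 * B'), ?_⟩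
    linear_combination he
  obtain ⟨f, rfl⟩ := h1
  have hp0 : (p : ℤ) ≠ 0 := hpI.ne_zero
  have h2 : (p : ℤ) ^ 3 * (f ^ 3 + (p : ℤ) ^ 2 * A' * f + (p : ℤ) ^ 3 * B') = 0 := by
    linear_combination he
  have h3 : f ^ 3 + (p : ℤ) ^ 2 * A' * f + (p : ℤ) ^ 3 * B' = 0 := by
    rcases mul_eq_zero.1 h2 with h | h
    · exact absurd h (pow_ne_zero 3 hp0)
    · exact h
  have h4 : (p : ℤ) ∣ f := by
    apply hpI.dvd_of_dvd_pow (n := 3)
    refine ⟨-((p : ℤ) * A' * f + (p : ℤ) ^ 2 * B'), ?_⟩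
    linear_combination h3
  rw [pow_two]
  exact mul_dvd_mul_left _ h4

lemma cu_mem {Q X H : ℕ} (h3 : 3 ∣ Q) (h4 : 4 ∣ Q) {t : ℕ × ℕ} (ht : t ∈ PA Q X)
    (hH : 108 * X ^ 6 ≤ H) : cu t ∈ Cv 2 H := by
  classical
  have h := r1_eq h3 ht
  have hne := ne_PA h4 ht
  have hd := cu_disc h3 ht
  have hpoly := cu_poly h3 ht
  obtain ⟨⟨⟨a1, a2⟩, b1, b2⟩, -, -, hsq⟩ := mem_PA.1 ht
  set a : ℤ := (t.1 : ℤ) with ha
  set b : ℤ := (t.2 : ℤ) with hb
  have ha1 : 1 ≤ a := by rw [ha]; exact_mod_cast a1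
  have hb1 : 1 ≤ b := by rw [hb]; exact_mod_cast b1
  have haX : a ≤ X := by rw [ha]; exact_mod_cast a2
  have hbX : b ≤ X := by rw [hb]; exact_mod_cast b2
  have hX0 : (0 : ℤ) ≤ X := by linarith
  have hab : a ≠ b := by rw [ha, hb]; exact_mod_cast hne
  have hHI : 108 * (X : ℤ) ^ 6 ≤ H := by exact_mod_cast hH
  have q1 : |r1 t| ≤ X := by rw [abs_le]; constructor <;> linarith
  have q2 : |r1 t + a| ≤ X := by rw [abs_le]; constructor <;> linarith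
  have q3 : |r1 t + b| ≤ X := by rw [abs_le]; constructor <;> linarith
  have hA : |(cu t).1| ≤ 3 * (X : ℤ) ^ 2 := by
    unfold cu
    simp only
    calc |r1 t * (r1 t + a) + r1 t * (r1 t + b) + (r1 t + a) * (r1 t + b)|
        ≤ |r1 t| * |r1 t + a| + |r1 t| * |r1 t + b| + |r1 t + a| * |r1 t + b| := by
          refine (abs_add_three _ _ _).trans ?_
          rw [abs_mul, abs_mul, abs_mul]
      _ ≤ X * X + X * X + X * X := by gcongr
      _ = 3 * (X : ℤ) ^ 2 := by ring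
  have hB : |(cu t).2| ≤ (X : ℤ) ^ 3 := by
    unfold cu
    simp only
    rw [abs_neg, abs_mul, abs_mul]
    calc |r1 t| * |r1 t + a| * |r1 t + b| ≤ X * X * X := by gcongr
      _ = (X : ℤ) ^ 3 := by ring
  have hA3 : 4 * |(cu t).1| ^ 3 ≤ H := by
    calc 4 * |(cu t).1| ^ 3 ≤ 4 * (3 * (X : ℤ) ^ 2) ^ 3 := by gcongr
      _ = 108 * (X : ℤ) ^ 6 := by ring
      _ ≤ H := hHI
  have hB2 : 27 * (cu t).2 ^ 2 ≤ H := by
    calc 27 * (cu t).2 ^ 2 = 27 * |(cu t).2| ^ 2 := by rw [sq_abs]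
      _ ≤ 27 * ((X : ℤ) ^ 3) ^ 2 := by gcongr
      _ = 27 * (X : ℤ) ^ 6 := by ring
      _ ≤ 108 * (X : ℤ) ^ 6 := by nlinarith [pow_nonneg hX0 6]
      _ ≤ H := hHI
  have hdisc : 4 * (cu t).1 ^ 3 + 27 * (cu t).2 ^ 2 ≠ 0 := by
    rw [hd]
    refine neg_ne_zero.2 (pow_ne_zero 2 (mul_ne_zero (mul_ne_zero ?_ ?_) (sub_ne_zero.2 hab)))
    · linarith
    · linarith
  unfold Cv
  rw [mem_filter, mem_product, mem_Icc, mem_Icc]
  refine ⟨⟨?_, ?_⟩, hdisc, hA3, hB2, ?_, ?_⟩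
  · rw [← abs_le]
    have h0 := abs_nonneg (cu t).1
    rcases eq_or_lt_of_le h0 with h6 | h6
    · rw [← h6]; positivity
    · have h7 : 1 ≤ |(cu t).1| := h6
      nlinarith [mul_nonneg h0 h0, mul_self_nonneg (|(cu t).1| - 1)]
  · rw [← abs_le]
    have h0 := abs_nonneg (cu t).2
    rw [← sq_abs] at hB2
    rcases eq_or_lt_of_le h0 with h6 | h6
    · rw [← h6]; positivity
    · have h7 : 1 ≤ |(cu t).2| := h6
      nlinarith
  · rintro p hp ⟨hpA, hpB⟩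
    have hr : ∀ e : ℤ, (e - r1 t) * (e - (r1 t + a)) * (e - (r1 t + b)) = 0 → (p : ℤ) ^ 2 ∣ e := by
      intro e he
      exact dvd_root hp hpA hpB (by rw [hpoly]; exact he)
    have e1 := hr (r1 t) (by rw [sub_self, zero_mul, zero_mul])
    have e2 := hr (r1 t + a) (by rw [sub_self, mul_zero, zero_mul])
    have e3 : (p : ℤ) ^ 2 ∣ a := (dvd_add_right e1).1 e2
    have e4 : p ^ 2 ∣ t.1 := by
      rw [ha] at e3
      exact_mod_cast e3
    have e5 : IsUnit p := hsq p (by rw [← pow_two]; exact e4)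
    exact hp.one_lt.ne' (Nat.isUnit_iff.1 e5)
  · refine Pool.Agent.W672.FK.hasT2 (a := (a : ℚ) / 3) (b := (b : ℚ) / 3) ?_ ?_ ?_ ?_ ?_
    · have hq : (r1 t : ℚ) = -((a : ℚ) + b) / 3 := by
        have : (3 : ℚ) * r1 t = -((a : ℚ) + b) := by exact_mod_cast h
        linarith
      have ca : ((t.1 : ℕ) : ℚ) = (a : ℚ) := by rw [ha]; push_cast; rfl
      have cb : ((t.2 : ℕ) : ℚ) = (b : ℚ) := by rw [hb]; push_cast; rfl
      unfold cu
      simp only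
      push_cast
      rw [ca, cb, hq]
      ring
    · have hq : (r1 t : ℚ) = -((a : ℚ) + b) / 3 := by
        have : (3 : ℚ) * r1 t = -((a : ℚ) + b) := by exact_mod_cast h
        linarith
      have ca : ((t.1 : ℕ) : ℚ) = (a : ℚ) := by rw [ha]; push_cast; rfl
      have cb : ((t.2 : ℕ) : ℚ) = (b : ℚ) := by rw [hb]; push_cast; rfl
      unfold cu
      simp only
      push_cast
      rw [ca, cb, hq]
      ring
    · have : (a : ℚ) ≠ 0 := by
        have : a ≠ 0 := by linarith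
        exact_mod_cast this
      exact div_ne_zero this (by norm_num)
    · have : (b : ℚ) ≠ 0 := by
        have : b ≠ 0 := by linarith
        exact_mod_cast this
      exact div_ne_zero this (by norm_num)
    · intro h5
      apply hab
      have : (a : ℚ) = b := by linarith
      exact_mod_cast this

lemma cu_inj {Q X : ℕ} (h3 : 3 ∣ Q) (h4 : 4 ∣ Q) : Set.InjOn cu (PA Q X : Set (ℕ × ℕ)) := by
  intro t ht t' ht' heq
  rw [mem_coe] at ht ht'
  have h := r1_eq h3 ht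
  have h' := r1_eq h3 ht'
  have p := cu_poly h3 ht
  have p' := cu_poly h3 ht'
  obtain ⟨m1, m2⟩ := PA_mod h4 ht
  obtain ⟨m1', m2'⟩ := PA_mod h4 ht'
  obtain ⟨⟨⟨a1, -⟩, b1, -⟩, -⟩ := mem_PA.1 ht
  obtain ⟨⟨⟨a1', -⟩, b1', -⟩, -⟩ := mem_PA.1 ht'
  have ha : (1 : ℤ) ≤ t.1 := by exact_mod_cast a1
  have hb : (1 : ℤ) ≤ t.2 := by exact_mod_cast b1
  have ha' : (1 : ℤ) ≤ t'.1 := by exact_mod_cast a1'
  have hb' : (1 : ℤ) ≤ t'.2 := by exact_mod_cast b1'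
  have key : ∀ x : ℤ, (x - r1 t) * (x - (r1 t + t.1)) * (x - (r1 t + t.2)) =
      (x - r1 t') * (x - (r1 t' + t'.1)) * (x - (r1 t' + t'.2)) := by
    intro x
    rw [← p, ← p', heq]
  have hr : r1 t = r1 t' := by
    apply le_antisymm
    · have h5 := key (r1 t')
      rw [sub_self, zero_mul, zero_mul] at h5
      rcases mul_eq_zero.1 h5 with h6 | h6
      · rcases mul_eq_zero.1 h6 with h7 | h7 <;> linarith
      · linarith
    · have h5 := key (r1 t)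
      rw [sub_self, zero_mul, zero_mul] at h5
      rcases mul_eq_zero.1 h5.symm with h6 | h6
      · rcases mul_eq_zero.1 h6 with h7 | h7 <;> linarith
      · linarith
  have hA := congrArg Prod.fst heq
  unfold cu at hA
  simp only at hA
  rw [← hr] at hA h'
  have hs : (t.1 : ℤ) + t.2 = t'.1 + t'.2 := by linarith
  have hp : (t.1 : ℤ) * t.2 = t'.1 * t'.2 := by
    linear_combination hA - 2 * r1 t * hs
  have h7 : ((t.1 : ℤ) - t'.1) * (t.1 - t'.2) = 0 := by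
    have : (t.2 : ℤ) = t'.1 + t'.2 - t.1 := by linarith
    rw [this] at hp
    linear_combination -hp
  unfold Nat.ModEq at m1 m1'
  rcases mul_eq_zero.1 h7 with h8 | h8
  · ext <;> omega
  · exfalso
    omega

/-- there are at most `(4 T + 1) ^ 2` curves of height at most `T ^ 6` -/
lemma card_Cv_le {H T : ℕ} (hT : H ≤ T ^ 6) : (Cv 2 H).card ≤ (4 * T + 1) ^ 2 := by
  classical
  obtain ⟨F, -, hF⟩ := Pool.Agent.W513.FK.parf
  have hroots : ∀ c ∈ Cv 2 H, ∃ e : ℤ × ℤ, (∀ x : ℤ, x ^ 3 + c.1 * x + c.2 =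
      (x - e.1) * (x - e.2) * (x - (-e.1 - e.2))) ∧ |e.1| ≤ 2 * T ∧ |e.2| ≤ 2 * T := by
    intro c hc
    unfold Cv at hc
    rw [mem_filter] at hc
    obtain ⟨-, h1, h2, h3, -, h5⟩ := hc
    obtain ⟨-, -, -, -, -, e1, e2, e3, he, -, -⟩ := hF c h1 h5
    have hs : e1 + e2 + e3 = 0 := by
      have h0 := he 0
      have h1 := he 1
      have h2 := he (-1)
      linarith
    have he3 : e3 = -e1 - e2 := by linarith
    subst he3
    have hTI : (H : ℤ) ≤ (T : ℤ) ^ 6 := by exact_mod_cast hT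
    have hT0 : (0 : ℤ) ≤ T := by positivity
    have hA : |c.1| ≤ (T : ℤ) ^ 2 := by
      by_contra hcon
      push Not at hcon
      have h6 : ((T : ℤ) ^ 2) ^ 3 < |c.1| ^ 3 := pow_lt_pow_left₀ hcon (by positivity) (by norm_num)
      nlinarith [abs_nonneg c.1]
    have hB : |c.2| ≤ (T : ℤ) ^ 3 := by
      by_contra hcon
      push Not at hcon
      have h6 : ((T : ℤ) ^ 3) ^ 2 < |c.2| ^ 2 := pow_lt_pow_left₀ hcon (by positivity) (by norm_num)
      rw [sq_abs] at h6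
      nlinarith
    have hroot : ∀ e : ℤ, e ^ 3 + c.1 * e + c.2 = 0 → |e| ≤ 2 * T := by
      intro e h0
      by_contra hcon
      push Not at hcon
      have h7 : |e| ^ 3 ≤ |c.1| * |e| + |c.2| := by
        rw [← abs_pow, ← abs_mul]
        have : e ^ 3 = -(c.1 * e + c.2) := by linarith
        rw [this, abs_neg]
        exact abs_add_le _ _
      have h8 : |c.1| * |e| ≤ (T : ℤ) ^ 2 * |e| := mul_le_mul_of_nonneg_right hA (abs_nonneg _)
      have h9 : |e| ^ 3 ≤ (T : ℤ) ^ 2 * |e| + (T : ℤ) ^ 3 := by linarith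
      set E := |e| with hE
      have hE0 : 0 < E := by linarith
      have h10 : 4 * (T : ℤ) ^ 2 ≤ E ^ 2 := by nlinarith
      have h11 : 4 * (T : ℤ) ^ 2 * E ≤ E ^ 3 := by
        calc 4 * (T : ℤ) ^ 2 * E ≤ E ^ 2 * E := mul_le_mul_of_nonneg_right h10 hE0.le
          _ = E ^ 3 := by ring
      have h12 : 8 * (T : ℤ) ^ 3 ≤ 4 * (T : ℤ) ^ 2 * E := by
        have : 8 * (T : ℤ) ^ 3 = 4 * (T : ℤ) ^ 2 * (2 * T) := by ring
        rw [this]
        exact mul_le_mul_of_nonneg_left hcon.le (by positivity)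
      have h13 : 0 < E ^ 3 := by positivity
      nlinarith
    refine ⟨(e1, e2), he, hroot e1 ?_, hroot e2 ?_⟩
    · rw [he]; ring
    · rw [he]; ring
  choose! e he1 he2 he3 using hroots
  have hinj : Set.InjOn e (Cv 2 H : Set (ℤ × ℤ)) := by
    intro c hc c' hc' hcc
    have h1 := he1 c hc
    have h2 := he1 c' hc'
    rw [hcc] at h1
    have h3 : ∀ x : ℤ, x ^ 3 + c.1 * x + c.2 = x ^ 3 + c'.1 * x + c'.2 := by
      intro x
      rw [h1, h2]
    have h4 := h3 0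
    have h5 := h3 1
    ext
    · linarith
    · linarith
  calc (Cv 2 H).card = ((Cv 2 H).image e).card := (card_image_of_injOn hinj).symm
    _ ≤ ((Icc (-(2 * T : ℤ)) (2 * T)) ×ˢ (Icc (-(2 * T : ℤ)) (2 * T))).card := by
        apply card_le_card
        intro x hx
        obtain ⟨c, hc, rfl⟩ := mem_image.1 hx
        rw [mem_product, mem_Icc, mem_Icc, ← abs_le, ← abs_le]
        exact ⟨he2 c hc, he3 c hc⟩
    _ = (4 * T + 1) ^ 2 := by
        rw [card_product, Int.card_Icc, pow_two]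
        have : ((2 * (T : ℤ) + 1 - -(2 * (T : ℤ))).toNat) = 4 * T + 1 := by omega
        rw [this]

end Pool.Agent.TH344.MT
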