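import Mathlib
import Pool.Agent.TH344.MT.Cur
import Pool.Agent.W307.FK.Main

/-! Project MT: the lower bound for the moments. -/

set_option autoImplicit false

namespace Pool.Agent.TH344.MT

open Finset Pool.Agent.W307.RT Pool.Agent.W307.SE

/-- the exponent -/
noncomputable def gk (κ : ℝ) : ℝ := (2 : ℝ) ^ (κ - 1) + (2 : ℝ) ^ (1 - κ) - 5 / 2

lemma gk_pos {κ : ℝ} (h : 2 < κ) : 0 < gk κ := by
  unfold gk
  have h1 : (2 : ℝ) < (2 : ℝ) ^ (κ - 1) := by
    calc (2 : ℝ) = (2 : ℝ) ^ (1 : ℝ) := (Real.rpow_one 2).symm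
      _ < _ := Real.rpow_lt_rpow_of_exponent_lt (by norm_num) (by linarith)
  have h2 : (2 : ℝ) ^ (1 - κ) = ((2 : ℝ) ^ (κ - 1))⁻¹ := by
    rw [← Real.rpow_neg (by norm_num)]
    congr 1
    ring
  rw [h2]
  set u := (2 : ℝ) ^ (κ - 1) with hu
  have hu0 : 0 < u := by linarith
  have h3 : u + u⁻¹ - 5 / 2 = (u - 2) * (u - 1 / 2) / u := by
    field_simp
    ring
  rw [h3]
  apply div_pos _ hu0
  exact mul_pos (by linarith) (by linarith)

lemma primorial_dvd {z p : ℕ} (hp : p.Prime) : p ∣ 4 * primorial z ↔ p ≤ z ∨ p = 2 := by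
  constructor
  · intro h
    rcases (Nat.Prime.dvd_mul hp).1 h with h1 | h1
    · right
      have h2 : p ∣ 2 ^ 2 := by simpa using h1
      exact (Nat.prime_dvd_prime_iff_eq hp Nat.prime_two).1 (hp.dvd_of_dvd_pow h2)
    · left
      exact hp.dvd_primorial_iff.1 h1
  · rintro (h | rfl)
    · exact (hp.dvd_primorial_iff.2 h).mul_left 4
    · exact ⟨2 * primorial z, by ring⟩

/-- the contribution of the pairs -/
lemma pairs_le (hE : S_SEL) (hfin : ∀ H : ℕ, ∀ c ∈ Cv 2 H, (SelR c.1 c.2).Finite) {κ : ℝ}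
    (hκ : 0 < κ) {Z C0 z Q X H : ℕ} (hZ : Z ≤ z)
    (hC : ∀ a b : ℤ, a ≠ 0 → b ≠ 0 → a ≠ b → ∀ G : Finset ℕ,
      (∀ p ∈ G, p.Prime ∧ Z < p ∧ (p : ℤ) ∣ a - b ∧ ¬ (p : ℤ) ∣ a ∧
        IsSquare ((a : ℤ) : ZMod p)) →
      2 ^ G.card ≤ C0 * 2 ^ ((a * b).natAbs.primeFactors.card) * (Sel a b).ncard)
    (h3 : 3 ∣ Q) (h4 : 4 ∣ Q) (hH : 108 * X ^ 6 ≤ H) :
    ∑ t ∈ PA Q X, (2 : ℝ) ^ (κ * (((GG z t).card : ℝ) - t.1.primeFactors.card -
        t.2.primeFactors.card)) ≤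
      (C0 + 1 : ℝ) ^ κ * ∑ c ∈ Cv 2 H, ((SelR c.1 c.2).ncard : ℝ) ^ κ := by
  classical
  have h1 : ∀ t ∈ PA Q X, (2 : ℝ) ^ (κ * (((GG z t).card : ℝ) - t.1.primeFactors.card -
        t.2.primeFactors.card)) ≤
      (C0 + 1 : ℝ) ^ κ * ((SelR (cu t).1 (cu t).2).ncard : ℝ) ^ κ := by
    intro t ht
    have hmem := cu_mem h3 h4 ht hH
    have hne := ne_PA h4 ht
    obtain ⟨⟨⟨a1, -⟩, b1, -⟩, -⟩ := mem_PA.1 ht
    have ha : (t.1 : ℤ) ≠ 0 := by exact_mod_cast (by omega : t.1 ≠ 0)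
    have hb : (t.2 : ℤ) ≠ 0 := by exact_mod_cast (by omega : t.2 ≠ 0)
    have hab : (t.1 : ℤ) ≠ t.2 := by exact_mod_cast hne
    have h5 := hC t.1 t.2 ha hb hab (GG z t) (by
      intro p hp
      unfold GG at hp
      rw [mem_filter, Nat.mem_primeFactors] at hp
      obtain ⟨⟨q1, q2, -⟩, q3, q4, q5⟩ := hp
      refine ⟨q1, by omega, Int.natCast_dvd.2 q2, ?_, ?_⟩
      · exact_mod_cast q4
      · push_cast
        exact q5)
    have hdisc : 4 * (cu t).1 ^ 3 + 27 * (cu t).2 ^ 2 ≠ 0 := by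
      have := hmem
      unfold Cv at this
      exact (mem_filter.1 this).2.1
    have h6 := hE (cu t).1 (cu t).2 (r1 t) (r1 t + t.1) (r1 t + t.2) hdisc (cu_poly h3 ht)
      (hfin H _ hmem)
    rw [add_sub_cancel_left, add_sub_cancel_left] at h6
    have h7 : ((t.1 : ℤ) * t.2).natAbs.primeFactors.card ≤
        t.1.primeFactors.card + t.2.primeFactors.card := by
      have : ((t.1 : ℤ) * t.2).natAbs = t.1 * t.2 := by
        rw [Int.natAbs_mul, Int.natAbs_natCast, Int.natAbs_natCast]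
      rw [this, Nat.primeFactors_mul (by omega) (by omega)]
      exact card_union_le _ _
    set N := (SelR (cu t).1 (cu t).2).ncard with hN
    have h8 : (2 : ℝ) ^ (GG z t).card ≤ (C0 + 1) * (2 : ℝ) ^ (t.1.primeFactors.card +
        t.2.primeFactors.card) * N := by
      calc (2 : ℝ) ^ (GG z t).card ≤ C0 * 2 ^ (((t.1 : ℤ) * t.2).natAbs.primeFactors.card) *
            (Sel t.1 t.2).ncard := by exact_mod_cast h5
        _ ≤ _ := by
          gcongr
          · linarith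
          · norm_num
    have h9 : (2 : ℝ) ^ (((GG z t).card : ℝ) - t.1.primeFactors.card - t.2.primeFactors.card) ≤
        (C0 + 1) * N := by
      have e : (((GG z t).card : ℝ) - t.1.primeFactors.card - t.2.primeFactors.card) =
          ((GG z t).card : ℝ) - ((t.1.primeFactors.card + t.2.primeFactors.card : ℕ) : ℝ) := by
        push_cast; ring
      rw [e, Real.rpow_sub (by norm_num), Real.rpow_natCast, Real.rpow_natCast,
        div_le_iff₀ (by positivity)]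
      linarith
    rw [mul_comm κ, Real.rpow_mul (by norm_num), ← Real.mul_rpow (by positivity) (by positivity)]
    exact Real.rpow_le_rpow (by positivity) h9 hκ.le
  refine (sum_le_sum h1).trans ?_
  rw [← mul_sum]
  refine mul_le_mul_of_nonneg_left ?_ (by positivity)
  rw [← sum_image (f := fun c : ℤ × ℤ => ((SelR c.1 c.2).ncard : ℝ) ^ κ) (cu_inj h3 h4)]
  refine sum_le_sum_of_subset_of_nonneg ?_ (fun c _ _ => by positivity)
  intro c hc
  obtain ⟨t, ht, rfl⟩ := mem_image.1 hc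
  exact cu_mem h3 h4 ht hH

/-- **the lower bound for the moments** -/
theorem lower (hC : S_CNT) (hS : S_SUM) (hE : S_SEL)
    (hfin : ∀ H : ℕ, ∀ c ∈ Cv 2 H, (SelR c.1 c.2).Finite) {κ : ℝ} (hκ : 2 < κ) :
    ∃ (c : ℝ) (H0 : ℕ), 0 < c ∧ ∀ H : ℕ, H0 ≤ H →
      c * Real.log H ^ gk κ * (Cv 2 H).card ≤
        ∑ c ∈ Cv 2 H, ((SelR c.1 c.2).ncard : ℝ) ^ κ := by
  have hg := gk_pos hκ
  obtain ⟨Z, C0, hC⟩ := hC
  set z := max Z 3 with hz
  set Q := 4 * primorial z with hQ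
  have hz3 : 3 ≤ z := le_max_right _ _
  have hQp : ∀ p : ℕ, p.Prime → (p ∣ Q ↔ p ≤ z) := by
    intro p hp
    rw [hQ, primorial_dvd hp]
    constructor
    · rintro (h | h)
      · exact h
      · omega
    · exact Or.inl
  have h3 : 3 ∣ Q := (hQp 3 Nat.prime_three).2 hz3
  have h4 : 4 ∣ Q := Dvd.intro _ rfl
  have hQ1 : 1 ≤ Q := Nat.mul_pos (by norm_num) (primorial_pos z)
  obtain ⟨K, w0, c, hK, hw0, hc, hS⟩ := hS κ z Q (by linarith) hz3 hQp h4 hQ1
  set D : ℝ := (12 * (K + 1)) ^ gk κ with hD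
  have hD0 : 0 < D := by positivity
  refine ⟨c / ((C0 + 1 : ℝ) ^ κ * (169 * 4 ^ K) * D), 108 * (w0 ^ K) ^ 6, by positivity,
    fun H hH => ?_⟩
  -- the choice of `w`
  obtain ⟨w, hw1, hw2⟩ : ∃ w : ℕ, 108 * (w ^ K) ^ 6 ≤ H ∧ H < 108 * ((w + 1) ^ K) ^ 6 := by
    refine ⟨Nat.findGreatest (fun w => 108 * (w ^ K) ^ 6 ≤ H) H, ?_, ?_⟩
    · exact Nat.findGreatest_spec (P := fun w => 108 * (w ^ K) ^ 6 ≤ H) (Nat.zero_le _)
        (by rw [zero_pow (by omega)]; norm_num)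
    · by_contra hcon
      push Not at hcon
      have h1 : Nat.findGreatest (fun w => 108 * (w ^ K) ^ 6 ≤ H) H + 1 ≤
          Nat.findGreatest (fun w => 108 * (w ^ K) ^ 6 ≤ H) H := by
        apply Nat.le_findGreatest
        · refine le_trans ?_ hcon
          set m := Nat.findGreatest (fun w => 108 * (w ^ K) ^ 6 ≤ H) H + 1
          calc m ≤ m ^ K := Nat.le_self_pow (by omega) m
            _ ≤ (m ^ K) ^ 6 := Nat.le_self_pow (by norm_num) _
            _ ≤ 108 * (m ^ K) ^ 6 := by omega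
        · exact hcon
      omega
  have hww : w0 ≤ w := by
    by_contra hcon
    push Not at hcon
    have h5 : (w + 1) ^ K ≤ w0 ^ K := Nat.pow_le_pow_left (by omega) K
    have h6 : ((w + 1) ^ K) ^ 6 ≤ (w0 ^ K) ^ 6 := Nat.pow_le_pow_left h5 6
    omega
  have hw2' : 2 ≤ w := by omega
  have hwR : (2 : ℝ) ≤ w := by exact_mod_cast hw2'
  have hlw : 0 < Real.log w := Real.log_pos (by linarith)
  -- the number of the curves
  have hcard : ((Cv 2 H).card : ℝ) ≤ 169 * 4 ^ K * ((w : ℝ) ^ K) ^ 2 := by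
    have h5 : H ≤ (3 * (w + 1) ^ K) ^ 6 := by
      rw [mul_pow]
      have : (3 : ℕ) ^ 6 = 729 := by norm_num
      rw [this]
      have h6 : 108 * ((w + 1) ^ K) ^ 6 ≤ 729 * ((w + 1) ^ K) ^ 6 := by
        exact Nat.mul_le_mul_right _ (by norm_num)
      omega
    have h6 := card_Cv_le h5
    have h7 : 1 ≤ (w + 1) ^ K := Nat.one_le_pow _ _ (by omega)
    have h8 : (w + 1) ^ K ≤ (2 * w) ^ K := Nat.pow_le_pow_left (by omega) K
    have h9 : (Cv 2 H).card ≤ (13 * (2 * w) ^ K) ^ 2 := by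
      refine h6.trans (Nat.pow_le_pow_left ?_ 2)
      omega
    calc ((Cv 2 H).card : ℝ) ≤ (((13 * (2 * w) ^ K) ^ 2 : ℕ) : ℝ) := by exact_mod_cast h9
      _ = 169 * 4 ^ K * ((w : ℝ) ^ K) ^ 2 := by
        push_cast
        rw [mul_pow, mul_pow, mul_pow]
        have : ((2 : ℝ) ^ K) ^ 2 = 4 ^ K := by
          rw [← pow_mul, mul_comm, pow_mul]; norm_num
        rw [this]
        ring
  -- the logarithm
  have hH1 : 1 ≤ H := by
    have : 1 ≤ (w ^ K) ^ 6 := Nat.one_le_pow _ _ (Nat.one_le_pow _ _ (by omega))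
    omega
  have hlogH : Real.log H ≤ 12 * (K + 1) * Real.log w := by
    have h5 : (H : ℝ) ≤ (3 * (2 * w) ^ K) ^ 6 := by
      have h6 : H ≤ (3 * (2 * w) ^ K) ^ 6 := by
        have h7 : (w + 1) ^ K ≤ (2 * w) ^ K := Nat.pow_le_pow_left (by omega) K
        have h8 : ((w + 1) ^ K) ^ 6 ≤ ((2 * w) ^ K) ^ 6 := Nat.pow_le_pow_left h7 6
        rw [mul_pow]
        have : (3 : ℕ) ^ 6 = 729 := by norm_num
        rw [this]
        omega
      exact_mod_cast h6
    have h6 : Real.log H ≤ Real.log ((3 * (2 * (w : ℝ)) ^ K) ^ 6) :=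
      Real.log_le_log (by exact_mod_cast hH1) h5
    rw [Real.log_pow, Real.log_mul (by norm_num) (by positivity), Real.log_pow,
      Real.log_mul (by norm_num) (by positivity)] at h6
    have l2 : Real.log 2 ≤ Real.log w := Real.log_le_log (by norm_num) hwR
    have l3 : Real.log 3 ≤ 2 * Real.log w := by
      have : Real.log 3 ≤ Real.log ((w : ℝ) ^ 2) := by
        apply Real.log_le_log (by norm_num)
        nlinarith
      rw [Real.log_pow] at this
      push_cast at this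
      exact this
    have hK0 : (0 : ℝ) ≤ K := Nat.cast_nonneg _
    push_cast at h6
    nlinarith
  have hlogH0 : 0 ≤ Real.log H := Real.log_nonneg (by exact_mod_cast hH1)
  have hpow : Real.log H ^ gk κ ≤ D * Real.log w ^ gk κ := by
    rw [hD, ← Real.mul_rpow (by positivity) hlw.le]
    exact Real.rpow_le_rpow hlogH0 hlogH hg.le
  -- the sum
  have hsum := (hS w hww).trans (pairs_le hE hfin (by linarith) (le_max_left Z 3) hC h3 h4 hw1)
  have hlwg : 0 < Real.log w ^ gk κ := Real.rpow_pos_of_pos hlw _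
  have hC0 : (0 : ℝ) < (C0 + 1 : ℝ) ^ κ := by positivity
  rw [div_mul_eq_mul_div, div_mul_eq_mul_div, div_le_iff₀ (by positivity)]
  calc c * Real.log H ^ gk κ * (Cv 2 H).card
      ≤ c * (D * Real.log w ^ gk κ) * (169 * 4 ^ K * ((w : ℝ) ^ K) ^ 2) := by
        gcongr
    _ = (169 * 4 ^ K) * D * (c * ((w : ℝ) ^ K) ^ 2 * Real.log w ^ gk κ) := by ring
    _ ≤ (169 * 4 ^ K) * D * ((C0 + 1 : ℝ) ^ κ *
          ∑ c ∈ Cv 2 H, ((SelR c.1 c.2).ncard : ℝ) ^ κ) := by
        apply mul_le_mul_of_nonneg_left hsum (by positivity)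
    _ = _ := by ring

end Pool.Agent.TH344.MT
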