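import Mathlib
import Pool.Agent.TH344.MT.Fin
import Pool.Agent.W307.RT.Tors

/-! Project MT: the theorem from its parts. -/

set_option autoImplicit false

namespace Pool.Agent.TH344.MT

open Finset Pool.Agent.W307.RT Pool.Agent.W307.SE

/-- the finiteness of the 2-Selmer groups -/
lemma selfin : ∀ H : ℕ, ∀ c ∈ Cv 2 H, (SelR c.1 c.2).Finite := by
  obtain ⟨C, hC⟩ := Pool.Agent.W307.FK.finh
  exact fun H => (hC H).1

/-- the 2-Selmer group is not empty -/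
lemma sel_pos {H : ℕ} {c : ℤ × ℤ} (hc : c ∈ Cv 2 H) : 1 ≤ (SelR c.1 c.2).ncard := by
  classical
  obtain ⟨F, -, hF⟩ := Pool.Agent.W513.FK.parf
  have h1 := hc
  unfold Cv at h1
  obtain ⟨-, h2, -, -, -, h3⟩ := mem_filter.1 h1
  obtain ⟨-, -, -, -, -, e1, e2, e3, he, -, -⟩ := hF c h2 h3
  exact (Nat.one_le_two_pow).trans
    (Pool.Agent.W402.FK.rks c.1 c.2 e1 e2 e3 h2 he (selfin H c hc))

/-- **the upper bound for the moments** -/
theorem upper {κ : ℝ} (hκ : κ ≤ 2) : ∃ C : ℝ, ∀ H : ℕ,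
    ∑ c ∈ Cv 2 H, ((SelR c.1 c.2).ncard : ℝ) ^ κ ≤ C * (Cv 2 H).card := by
  obtain ⟨C, hC⟩ := Pool.Agent.W307.FK.finh
  refine ⟨C, fun H => le_trans (sum_le_sum fun c hc => ?_) (hC H).2⟩
  have h1 : (1 : ℝ) ≤ (SelR c.1 c.2).ncard := by exact_mod_cast sel_pos hc
  calc ((SelR c.1 c.2).ncard : ℝ) ^ κ ≤ ((SelR c.1 c.2).ncard : ℝ) ^ (2 : ℝ) :=
        Real.rpow_le_rpow_of_exponent_le h1 hκ
    _ = ((SelR c.1 c.2).ncard : ℝ) ^ 2 := by
        rw [← Real.rpow_natCast]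
        norm_num

/-- the moments of order greater than two are not bounded -/
theorem unbounded (hC : S_CNT) (hS : S_SUM) (hE : S_SEL) {κ : ℝ} (hκ : 2 < κ) :
    ¬ ∃ C : ℝ, ∀ H : ℕ,
      ∑ c ∈ Cv 2 H, ((SelR c.1 c.2).ncard : ℝ) ^ κ ≤ C * (Cv 2 H).card := by
  rintro ⟨C, hC'⟩
  obtain ⟨c, H0, hc, h⟩ := lower hC hS hE selfin hκ
  have ht : Filter.Tendsto (fun H : ℕ => c * Real.log H ^ gk κ) Filter.atTop Filter.atTop := by
    apply Filter.Tendsto.const_mul_atTop hc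
    exact (tendsto_rpow_atTop (gk_pos hκ)).comp
      (Real.tendsto_log_atTop.comp tendsto_natCast_atTop_atTop)
  have hn : Filter.Tendsto (fun H : ℕ => (Cv 2 H).card) Filter.atTop Filter.atTop :=
    Pool.Agent.W307.RT.tendsto_of_low Pool.Agent.W672.FK.lowf
  obtain ⟨H, h1, h2, h3⟩ := ((ht.eventually_gt_atTop C).and ((hn.eventually_ge_atTop 1).and
    (Filter.eventually_ge_atTop H0))).exists
  have h4 : (0 : ℝ) < (Cv 2 H).card := by exact_mod_cast h2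
  have h5 := (h H h3).trans (hC' H)
  exact absurd (le_of_mul_le_mul_right h5 h4) (not_le.2 h1)

/-- **the threshold** -/
theorem threshold (hC : S_CNT) (hS : S_SUM) (hE : S_SEL) (κ : ℝ) :
    (∃ C : ℝ, ∀ H : ℕ,
      ∑ c ∈ Cv 2 H, ((SelR c.1 c.2).ncard : ℝ) ^ κ ≤ C * (Cv 2 H).card) ↔ κ ≤ 2 := by
  constructor
  · intro h
    by_contra hcon
    exact unbounded hC hS hE (not_le.1 hcon) h
  · exact upper

end Pool.Agent.TH344.MT
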