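import Pool.Agent.TH344.MT.Stm
import Pool.Agent.W597.SE.SELC

/-!
# MT-SEL: comparison of the two descriptions of the 2-Selmer group, other inequality (job 1399)
-/

set_option autoImplicit false

namespace Pool.Agent.TH344.MT

open Finset Pool.Agent.W307.SE

/-- the squarefree part of an integer -/
theorem exists_sqf (n : ℤ) (hn : n ≠ 0) : ∃ s : ℤ, Squarefree s ∧ ∃ t : ℤ, t ≠ 0 ∧ n = s * t ^ 2 := by
  obtain ⟨a, b, h, ha⟩ := Nat.sq_mul_squarefree n.natAbs
  have hb : b ≠ 0 := by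
    rintro rfl
    rw [zero_pow two_ne_zero, zero_mul] at h
    exact hn (Int.natAbs_eq_zero.1 h.symm)
  refine ⟨n.sign * a, ?_, b, Int.natCast_ne_zero.2 hb, ?_⟩
  · rw [← Int.squarefree_natAbs, Int.natAbs_mul, Int.natAbs_sign_of_ne_zero hn, one_mul,
      Int.natAbs_natCast]
    exact ha
  · have h1 : (n.natAbs : ℤ) = b ^ 2 * a := by rw [← h]; push_cast; ring
    have h2 : n = n.sign * n.natAbs := (Int.sign_mul_natAbs n).symm
    rw [h1] at h2
    rw [mul_assoc, mul_comm (a : ℤ)]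
    exact h2

/-- the local condition is transported back -/
theorem locSel {K : Type} [Field K] {A B e1 e2 e3 d1 d2 s t : ℤ} {d : ℤ → ℤ}
    (hK : ∀ X : K, X ^ 3 + A * X + B = (X - e1) * (X - e2) * (X - e3))
    (hr : ∀ e : ℤ, e ^ 3 + A * e + B = 0 → e = e1 ∨ e = e2 ∨ e = e3)
    (hd1 : (d1 : K) ≠ 0) (hd2 : (d2 : K) ≠ 0)
    (hst : d1 * d2 = s * t ^ 2) (f1 : d e1 = d1) (f2 : d e2 = d2) (f3 : d e3 = s)
    (h : Loc K (e2 - e1) (e3 - e1) d1 d2) : LocR K A B d := by
  obtain ⟨x, y, hy, h1, ⟨u, hu⟩, ⟨v, hv⟩⟩ := h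
  push_cast at h1 hv
  have hst' : (d1 : K) * d2 = s * t ^ 2 := by exact_mod_cast congrArg (fun z : ℤ => (z : K)) hst
  have hprod : x * (x - (e2 - e1)) * (x - (e3 - e1)) ≠ 0 := by
    rw [← h1]; exact pow_ne_zero _ hy
  have hx : x ≠ 0 := fun h => hprod (by rw [h]; ring)
  have hx2 : x - (e2 - e1) ≠ 0 := fun h => hprod (by rw [h]; ring)
  have hu0 : u ≠ 0 := by
    rintro rfl
    rw [mul_zero] at hu
    exact mul_ne_zero hx hd1 hu
  have hv0 : v ≠ 0 := by
    rintro rfl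
    rw [mul_zero] at hv
    exact mul_ne_zero hx2 hd2 hv
  refine ⟨x + e1, y, hy, ?_, fun e he => ?_⟩
  · rw [hK, h1]
    ring
  · rcases hr e he with rfl | rfl | rfl
    · rw [f1]
      exact ⟨u, by rw [← hu]; ring⟩
    · rw [f2]
      exact ⟨v, by rw [← hv]; ring⟩
    · rw [f3]
      refine ⟨y * s * t / (u * v), ?_⟩
      rw [div_mul_div_comm, eq_div_iff (mul_ne_zero (mul_ne_zero hu0 hv0) (mul_ne_zero hu0 hv0))]
      have e1' : u * v * (u * v) = x * d1 * ((x - (e2 - e1)) * d2) := by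
        rw [hu, hv]; ring
      rw [e1']
      linear_combination (x * (x - (e2 - e1)) * (x - (e - e1)) * s) * hst' -
        (s * s * t ^ 2) * h1

theorem sel : S_SEL := by
  intro A B e1 e2 e3 hdisc hpoly hfin
  have c0 := hpoly 0
  have c1 := hpoly 1
  have c2 := hpoly (-1)
  have s1 : e1 + e2 + e3 = 0 := by linarith
  have s2 : A = e1 * e2 + e1 * e3 + e2 * e3 := by linarith
  have s3 : B = -(e1 * e2 * e3) := by linarith
  have hD : 4 * A ^ 3 + 27 * B ^ 2 = -((e1 - e2) * (e1 - e3) * (e2 - e3)) ^ 2 := by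
    have : e3 = -e1 - e2 := by linarith
    rw [s2, s3, this]
    ring
  have n12 : e1 ≠ e2 := by
    rintro rfl
    apply hdisc
    rw [hD]; ring
  have n13 : e1 ≠ e3 := by
    rintro rfl
    apply hdisc
    rw [hD]; ring
  have n23 : e2 ≠ e3 := by
    rintro rfl
    apply hdisc
    rw [hD]; ring
  have hK : ∀ (K : Type) [Field K] (X : K),
      X ^ 3 + A * X + B = (X - e1) * (X - e2) * (X - e3) := by
    intro K _ X
    have t1 : (e1 : K) + e2 + e3 = 0 := by exact_mod_cast congrArg (fun z : ℤ => (z : K)) s1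
    rw [s2, s3]
    push_cast
    linear_combination (X ^ 2) * t1
  have hr : ∀ e : ℤ, e ^ 3 + A * e + B = 0 → e = e1 ∨ e = e2 ∨ e = e3 := by
    intro e he
    rw [hpoly] at he
    rcases mul_eq_zero.1 he with he | he
    · rcases mul_eq_zero.1 he with he | he
      · exact Or.inl (sub_eq_zero.1 he)
      · exact Or.inr (Or.inl (sub_eq_zero.1 he))
    · exact Or.inr (Or.inr (sub_eq_zero.1 he))
  have r1 : e1 ^ 3 + A * e1 + B = 0 := by rw [hpoly]; ring
  have r2 : e2 ^ 3 + A * e2 + B = 0 := by rw [hpoly]; ring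
  have r3 : e3 ^ 3 + A * e3 + B = 0 := by rw [hpoly]; ring
  classical
  let g : ℤ → ℤ := fun n => if hn : n ≠ 0 then (exists_sqf n hn).choose else 1
  have hg : ∀ n : ℤ, n ≠ 0 → Squarefree (g n) ∧ ∃ t : ℤ, t ≠ 0 ∧ n = g n * t ^ 2 := by
    intro n hn
    simp only [g, dif_pos hn]
    exact (exists_sqf n hn).choose_spec
  let F : ℤ × ℤ → ℤ → ℤ := fun d e =>
    if e = e1 then d.1 else if e = e2 then d.2 else if e = e3 then g (d.1 * d.2) else 1
  have F1 : ∀ d, F d e1 = d.1 := fun d => if_pos rfl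
  have F2 : ∀ d, F d e2 = d.2 := fun d => by
    simp only [F, if_neg n12.symm, if_pos]
  have F3 : ∀ d, F d e3 = g (d.1 * d.2) := fun d => by
    simp only [F, if_neg n13.symm, if_neg n23.symm, if_pos]
  have F4 : ∀ d e, e ≠ e1 → e ≠ e2 → e ≠ e3 → F d e = 1 := fun d e h1 h2 h3 => by
    simp only [F, if_neg h1, if_neg h2, if_neg h3]
  have hmaps : ∀ d ∈ Sel (e2 - e1) (e3 - e1), F d ∈ SelR A B := by
    rintro d ⟨hd1, hd2, hdR, hdp⟩
    have hne : d.1 * d.2 ≠ 0 := mul_ne_zero hd1.ne_zero hd2.ne_zero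
    obtain ⟨hs, t, -, hst⟩ := hg _ hne
    refine ⟨fun e => ?_, fun e he => ?_, ?_, fun p _ => ?_⟩
    · by_cases h1 : e = e1
      · rw [h1, F1]; exact hd1
      by_cases h2 : e = e2
      · rw [h2, F2]; exact hd2
      by_cases h3 : e = e3
      · rw [h3, F3]; exact hs
      rw [F4 d e h1 h2 h3]
      exact squarefree_one
    · refine F4 d e ?_ ?_ ?_
      · rintro rfl; exact he r1
      · rintro rfl; exact he r2
      · rintro rfl; exact he r3
    · exact locSel (hK ℝ) hr (Int.cast_ne_zero.2 hd1.ne_zero) (Int.cast_ne_zero.2 hd2.ne_zero) hst (F1 d) (F2 d) (F3 d)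
        hdR
    · exact locSel (hK ℚ_[p]) hr (Int.cast_ne_zero.2 hd1.ne_zero) (Int.cast_ne_zero.2 hd2.ne_zero) hst (F1 d) (F2 d) (F3 d)
        (hdp p)
  have hinj : Set.InjOn F (Sel (e2 - e1) (e3 - e1)) := by
    intro d _ d' _ heq
    have h1 := congrFun heq e1
    have h2 := congrFun heq e2
    rw [F1, F1] at h1
    rw [F2, F2] at h2
    exact Prod.ext h1 h2
  exact Set.ncard_le_ncard_of_injOn F hmaps hinj hfin

end Pool.Agent.TH344.MT
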