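import Mathlib
import Pool.Agent.TH344.MT.Stm
import Pool.Agent.W41.Core
import Pool.Agent.Helper256.KM.Mertens

/-! Project MT, `S_SIE`: rough squarefree numbers in arithmetic progressions. -/

set_option autoImplicit false

namespace Pool.Agent.TH344.MT

open Finset

namespace SieAux

lemma one_sub_ge {x : ℝ} (h0 : 0 ≤ x) (h1 : x ≤ 1 / 2) : Real.exp (-(x + 2 * x ^ 2)) ≤ 1 - x := by
  have h2 : 0 < 1 - x := by linarith
  rw [← Real.le_log_iff_exp_le h2]
  have h3 := Real.one_sub_inv_le_log_of_pos h2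
  refine le_trans ?_ h3
  have h4 : (1 - x)⁻¹ ≤ 1 + x + 2 * x ^ 2 := by
    rw [inv_le_iff_one_le_mul₀ h2]
    nlinarith [mul_nonneg h0 (sq_nonneg x), mul_nonneg (sq_nonneg x) (by linarith : 0 ≤ 1 - 2 * x)]
  linarith

/-- the primes up to `n` -/
def Pn (n : ℕ) : Finset ℕ := (Icc 1 n).filter Nat.Prime

lemma prod_lower : ∃ c : ℝ, 0 < c ∧ ∀ n : ℕ, 3 ≤ n →
    c / Real.log n ≤ ∏ p ∈ Pn n, (1 - 1 / (p : ℝ)) := by
  obtain ⟨C, hC⟩ := Pool.Agent.Helper256.KM.mertens_inv
  have hs : Summable (fun n : ℕ => 1 / (n : ℝ) ^ 2) := Real.summable_one_div_nat_pow.2 (by norm_num)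
  set S := ∑' n : ℕ, 1 / (n : ℝ) ^ 2 with hS
  refine ⟨Real.exp (-(C + 2 * S)), by positivity, fun n hn => ?_⟩
  have hn2 : (3 : ℝ) ≤ n := by exact_mod_cast hn
  have hlog : 0 < Real.log n := Real.log_pos (by linarith)
  have h1 : ∏ p ∈ Pn n, Real.exp (-(1 / (p : ℝ) + 2 * (1 / (p : ℝ)) ^ 2))
      ≤ ∏ p ∈ Pn n, (1 - 1 / (p : ℝ)) := by
    refine Finset.prod_le_prod (fun p _ => (Real.exp_pos _).le) fun p hp => ?_
    have hp2 : (2 : ℝ) ≤ p := by exact_mod_cast (mem_filter.1 hp).2.two_le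
    refine one_sub_ge (by positivity) ?_
    exact one_div_le_one_div_of_le (by norm_num) hp2
  refine le_trans ?_ h1
  rw [← Real.exp_sum]
  have h2 : ∑ p ∈ Pn n, (1 : ℝ) / p ≤ Real.log (Real.log n) + C := by
    have h3 := (abs_le.mp (hC n hn)).2
    unfold Pn
    linarith
  have h5 : ∑ p ∈ Pn n, (1 / (p : ℝ)) ^ 2 ≤ S := by
    have h6 : ∀ p : ℕ, (1 / (p : ℝ)) ^ 2 = 1 / (p : ℝ) ^ 2 := fun p => by
      rw [div_pow, one_pow]
    simp only [h6]
    exact hs.sum_le_tsum _ fun p _ => by positivity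
  have h10 : Real.exp (-(C + 2 * S)) / Real.log n
      = Real.exp (-(C + 2 * S) - Real.log (Real.log n)) := by
    rw [Real.exp_sub, Real.exp_log hlog]
  rw [h10]
  refine Real.exp_le_exp.mpr ?_
  rw [Finset.sum_neg_distrib, Finset.sum_add_distrib, ← Finset.mul_sum]
  linarith

lemma card_class_le (S : Finset ℕ) (T q : ℕ) (hS : ∀ t ∈ S, t ≤ T)
    (hc : ∀ t ∈ S, ∀ t' ∈ S, t % q = t' % q) : S.card ≤ T / q + 1 := by
  have : S.card ≤ (range (T / q + 1)).card := by
    apply card_le_card_of_injOn (fun t => t / q)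
    · intro t ht
      simp only [coe_range, Set.mem_Iio]
      exact Nat.lt_succ_of_le (Nat.div_le_div_right (hS t ht))
    · intro t ht t' ht' h
      have h1 := hc t ht t' ht'
      have h2 := Nat.div_add_mod t q
      have h3 := Nat.div_add_mod t' q
      simp only at h
      rw [← h2, ← h3, h, h1]
  simpa using this

open Classical in
lemma bad_le (A0 B T w X : ℕ) (hw : 1 ≤ w) (hB1 : 1 ≤ B) (hX : A0 + B * T ≤ X)
    (hB : ∀ p : ℕ, p.Prime → p ∣ B → p ≤ w) :
    (((Icc 1 T).filter (fun t => ∃ p : ℕ, p.Prime ∧ w < p ∧ p * p ∣ A0 + B * t)).card : ℝ) ≤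
      T / w + Real.sqrt X := by
  set R := Nat.sqrt X with hR
  have hw0 : (0 : ℝ) < w := by exact_mod_cast hw
  have hRX : (R : ℝ) ≤ Real.sqrt X := Real.nat_sqrt_le_real_sqrt
  have hsub : (Icc 1 T).filter (fun t => ∃ p : ℕ, p.Prime ∧ w < p ∧ p * p ∣ A0 + B * t) ⊆
      (Ioc w R).biUnion (fun p => (Icc 1 T).filter (fun t => p.Prime ∧ p * p ∣ A0 + B * t)) := by
    intro t ht
    obtain ⟨ht1, p, hp, hwp, hd⟩ := mem_filter.1 ht
    have ht2 := mem_Icc.1 ht1
    rw [mem_biUnion]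
    refine ⟨p, mem_Ioc.2 ⟨hwp, ?_⟩, mem_filter.2 ⟨ht1, hp, hd⟩⟩
    rw [hR, Nat.le_sqrt]
    have h1 : 0 < A0 + B * t := by
      have : 0 < B * t := Nat.mul_pos hB1 ht2.1
      omega
    have h2 := Nat.le_of_dvd h1 hd
    have h3 : B * t ≤ B * T := Nat.mul_le_mul_left _ ht2.2
    omega
  have h1 := (card_le_card hsub).trans card_biUnion_le
  have h2 : ∀ p ∈ Ioc w R, ((((Icc 1 T).filter (fun t => p.Prime ∧ p * p ∣ A0 + B * t)).card : ℕ) : ℝ) ≤
      T * ((p : ℝ) ^ 2)⁻¹ + 1 := by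
    intro p hp
    have hwp := (mem_Ioc.1 hp).1
    have hp0 : (0 : ℝ) < p := by exact_mod_cast (by omega : 0 < p)
    have h3 : ((Icc 1 T).filter (fun t => p.Prime ∧ p * p ∣ A0 + B * t)).card ≤ T / (p * p) + 1 := by
      apply card_class_le
      · intro t ht
        exact (mem_Icc.1 (mem_filter.1 ht).1).2
      · intro t ht t' ht'
        obtain ⟨_, hpp, hd⟩ := mem_filter.1 ht
        obtain ⟨_, _, hd'⟩ := mem_filter.1 ht'
        have hco : Nat.Coprime (p * p) B := by
          have : Nat.Coprime p B := by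
            rw [Nat.Prime.coprime_iff_not_dvd hpp]
            intro h
            have := hB p hpp h
            omega
          exact Nat.Coprime.mul_left this this
        have h4 : A0 + B * t ≡ A0 + B * t' [MOD p * p] :=
          ((Nat.modEq_zero_iff_dvd.2 hd).trans (Nat.modEq_zero_iff_dvd.2 hd').symm)
        have h5 : B * t ≡ B * t' [MOD p * p] := Nat.ModEq.add_left_cancel' A0 h4
        exact Nat.ModEq.cancel_left_of_coprime hco h5
    have h4 : (((Icc 1 T).filter (fun t => p.Prime ∧ p * p ∣ A0 + B * t)).card : ℝ) ≤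
        ((T / (p * p) : ℕ) : ℝ) + 1 := by exact_mod_cast h3
    have h5 : ((T / (p * p) : ℕ) : ℝ) ≤ (T : ℝ) / ((p * p : ℕ) : ℝ) := Nat.cast_div_le
    have h6 : (T : ℝ) / ((p * p : ℕ) : ℝ) = T * ((p : ℝ) ^ 2)⁻¹ := by
      push_cast
      rw [div_eq_mul_inv, pow_two]
    linarith
  have h3 : (((Icc 1 T).filter (fun t => ∃ p : ℕ, p.Prime ∧ w < p ∧ p * p ∣ A0 + B * t)).card : ℝ) ≤
      ∑ p ∈ Ioc w R, (T * ((p : ℝ) ^ 2)⁻¹ + 1) := by
    refine le_trans ?_ (sum_le_sum h2)
    exact_mod_cast h1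
  refine h3.trans ?_
  rw [sum_add_distrib, ← mul_sum, sum_const, nsmul_eq_mul, mul_one, Nat.card_Ioc]
  have h4 : ∑ p ∈ Ioc w R, ((p : ℝ) ^ 2)⁻¹ ≤ 1 / w := by
    rcases le_or_gt w R with h | h
    · refine (sum_Ioc_inv_sq_le_sub (by omega) h).trans ?_
      have : (0 : ℝ) ≤ (R : ℝ)⁻¹ := by positivity
      rw [one_div]
      linarith
    · rw [Ioc_eq_empty (by omega), sum_empty]
      positivity
  have h5 : (((R - w : ℕ)) : ℝ) ≤ R := by exact_mod_cast Nat.sub_le _ _
  have h6 : (T : ℝ) * ∑ p ∈ Ioc w R, ((p : ℝ) ^ 2)⁻¹ ≤ T * (1 / w) :=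
    mul_le_mul_of_nonneg_left h4 (by positivity)
  have h7 : (T : ℝ) * (1 / w) = T / w := by rw [mul_one_div]
  linarith

end SieAux

open SieAux

open Classical in
theorem sie : S_SIE := by
  obtain ⟨K0, y0, hK0, hy0, hf⟩ := Pool.Agent.W41.fund_ap (ε := 1 / 2) (by norm_num)
  obtain ⟨c1, hc1, hm⟩ := prod_lower
  have hlo : ∀ᶠ n : ℕ in Filter.atTop, Real.log n ≤ c1 / 12 * n := by
    have h := Real.isLittleO_log_id_atTop.def (c := c1 / 12) (by positivity)
    have h2 := tendsto_natCast_atTop_atTop (R := ℝ) |>.eventually h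
    filter_upwards [h2] with n hn
    simp only [Real.norm_eq_abs, id] at hn
    have h3 : |(n : ℝ)| = n := abs_of_nonneg (Nat.cast_nonneg _)
    rw [h3] at hn
    exact (le_abs_self _).trans hn
  obtain ⟨w1, hw1⟩ := Filter.eventually_atTop.1 hlo
  refine ⟨K0 + 1, max 3 (max y0 w1), c1 / 8, by omega, by omega, by positivity, ?_⟩
  intro w hw X m B A hm1 hB1 hX hco hB
  have hw3 : 3 ≤ w := le_trans (le_max_left _ _) hw
  have hwy : y0 ≤ w := le_trans ((le_max_left _ _).trans (le_max_right _ _)) hw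
  have hww : w1 ≤ w := le_trans ((le_max_right _ _).trans (le_max_right _ _)) hw
  have hw0 : (0 : ℝ) < w := by exact_mod_cast (by omega : 0 < w)
  have hlogw : 0 < Real.log w := Real.log_pos (by exact_mod_cast (by omega : 1 < w))
  set K := K0 + 1 with hK
  set A0 := A % B with hA0
  set T := X / (m * B) - 1 with hT
  have hmB : 0 < m * B := Nat.mul_pos hm1 hB1
  have hwK : 1 ≤ w ^ K := Nat.one_le_pow _ _ (by omega)
  have hdiv : (w ^ K) ^ 2 ≤ X / (m * B) := by
    rw [Nat.le_div_iff_mul_le hmB]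
    refine le_trans ?_ hX
    have : (m * B * w ^ K) ^ 2 = (w ^ K) ^ 2 * (m * B) * (m * B) := by ring
    rw [this]
    exact Nat.le_mul_of_pos_right _ hmB
  have hsq : 2 * w ^ K0 ≤ (w ^ K) ^ 2 := by
    have h1 : (w ^ K) ^ 2 = w ^ K0 * (w ^ K * w) := by rw [hK]; ring
    rw [h1]
    have h2 : 2 ≤ w ^ K * w := by
      calc 2 ≤ 1 * w := by omega
        _ ≤ w ^ K * w := Nat.mul_le_mul_right _ hwK
    calc 2 * w ^ K0 = w ^ K0 * 2 := by ring
      _ ≤ _ := Nat.mul_le_mul_left _ h2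
  have hwK0 : 1 ≤ w ^ K0 := Nat.one_le_pow _ _ (by omega)
  have hTK : w ^ K0 ≤ T := by omega
  have hTX : T + 1 = X / (m * B) := by omega
  -- sieve
  set P := (Pn w).filter (fun p => ¬ p ∣ B) with hP
  have hPp : ∀ p ∈ P, p.Prime ∧ p ≤ w := by
    intro p hp
    have h1 := mem_filter.1 (mem_filter.1 hp).1
    exact ⟨h1.2, (mem_Icc.1 h1.1).2⟩
  have hs := hf w hwy T hTK P hPp (A0 : ℤ) (B : ℤ) (by
    intro p hp h
    exact (mem_filter.1 hp).2 (by exact_mod_cast h))
  have hV : c1 / Real.log w ≤ Pool.Agent.W41.V P := by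
    refine (hm w hw3).trans ?_
    unfold Pool.Agent.W41.V
    rw [← prod_sdiff (filter_subset (fun p => ¬ p ∣ B) (Pn w))]
    have h2 : ∏ p ∈ Pn w \ (Pn w).filter (fun p => ¬ p ∣ B), (1 - 1 / (p : ℝ)) ≤ 1 := by
      apply prod_le_one
      · intro p hp
        have hpp := (mem_filter.1 (mem_sdiff.1 hp).1).2
        have h2 : (2 : ℝ) ≤ p := by exact_mod_cast hpp.two_le
        have : 1 / (p : ℝ) ≤ 1 / 2 := one_div_le_one_div_of_le (by norm_num) h2
        linarith
      · intro p _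
        have : 0 ≤ 1 / (p : ℝ) := by positivity
        linarith
    have h3 : 0 ≤ ∏ p ∈ (Pn w).filter (fun p => ¬ p ∣ B), (1 - 1 / (p : ℝ)) := by
      apply prod_nonneg
      intro p hp
      have h2 : (2 : ℝ) ≤ p := by exact_mod_cast (hPp p hp).1.two_le
      have : 1 / (p : ℝ) ≤ 1 / 2 := one_div_le_one_div_of_le (by norm_num) h2
      linarith
    exact mul_le_of_le_one_left h3 h2
  set S1 := (Icc 1 T).filter (fun n : ℕ => ∀ p ∈ P, ¬ (p : ℤ) ∣ (A0 : ℤ) + (B : ℤ) * n) with hS1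
  set S2 := (Icc 1 T).filter (fun t => ∃ p : ℕ, p.Prime ∧ w < p ∧ p * p ∣ A0 + B * t) with hS2
  have hA0B : A0 < B := Nat.mod_lt _ hB1
  have hnX : ∀ t : ℕ, t ≤ T → m * (A0 + B * t) ≤ X := by
    intro t ht
    calc m * (A0 + B * t) ≤ m * (B + B * T) := by
          apply Nat.mul_le_mul_left
          have : B * t ≤ B * T := Nat.mul_le_mul_left _ ht
          omega
      _ = (m * B) * (T + 1) := by ring
      _ ≤ X := by rw [hTX]; exact Nat.mul_div_le _ _
  have hnX' : ∀ t : ℕ, t ≤ T → A0 + B * t ≤ X := fun t ht =>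
    (Nat.le_mul_of_pos_left _ hm1).trans (hnX t ht)
  have hbad := bad_le A0 B T w X (by omega) hB1 (hnX' T le_rfl) hB
  rw [← hS2] at hbad
  -- the injection
  have hcard : (S1 \ S2).card ≤ ((Icc 1 X).filter (fun n => m * n ≤ X ∧ n ≡ A [MOD B] ∧
        (∀ p : ℕ, p.Prime → p ≤ w → ¬ p ∣ n) ∧ Squarefree n)).card := by
    apply card_le_card_of_injOn (fun t => A0 + B * t)
    · intro t ht
      obtain ⟨ht1, ht2⟩ := mem_sdiff.1 (mem_coe.1 ht)
      obtain ⟨ht3, ht4⟩ := mem_filter.1 ht1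
      obtain ⟨ht5, ht6⟩ := mem_Icc.1 ht3
      have hrough : ∀ p : ℕ, p.Prime → p ≤ w → ¬ p ∣ A0 + B * t := by
        intro p hp hpw hd
        by_cases hpB : p ∣ B
        · have h1 : p ∣ A0 := (Nat.dvd_add_left (hpB.mul_right t)).1 hd
          have h2 : p ∣ A := by
            have h3 : A0 + B * (A / B) = A := Nat.mod_add_div A B
            rw [← h3]
            exact dvd_add h1 (hpB.mul_right _)
          have h3 : p ∣ Nat.gcd A B := Nat.dvd_gcd h2 hpB
          rw [hco] at h3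
          exact hp.one_lt.ne' (Nat.dvd_one.1 h3)
        · refine ht4 p (mem_filter.2 ⟨mem_filter.2 ⟨mem_Icc.2 ⟨hp.one_lt.le, hpw⟩, hp⟩, hpB⟩) ?_
          exact_mod_cast hd
      simp only [coe_filter, mem_Icc, Set.mem_ofPred_eq]
      refine ⟨⟨?_, hnX' t ht6⟩, hnX t ht6, ?_, hrough, ?_⟩
      · have : 0 < B * t := Nat.mul_pos hB1 ht5
        omega
      · have h1 : A0 + B * t ≡ A0 [MOD B] := by
          have : B * t ≡ 0 [MOD B] := Nat.modEq_zero_iff_dvd.2 (dvd_mul_right _ _)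
          simpa using Nat.ModEq.add_left A0 this
        exact h1.trans (Nat.mod_modEq A B)
      · rw [Nat.squarefree_iff_prime_squarefree]
        intro p hp hd
        have hwp : w < p := by
          by_contra h
          exact hrough p hp (by omega) (dvd_trans (dvd_mul_right _ _) hd)
        exact ht2 (mem_filter.2 ⟨ht3, p, hp, hwp, hd⟩)
    · intro t _ t' _ h
      simp only at h
      have h1 : B * t = B * t' := by omega
      exact Nat.eq_of_mul_eq_mul_left hB1 h1
  have hc2 : (S1.card : ℝ) - S2.card ≤ ((S1 \ S2).card : ℝ) := by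
    have h1 : S1.card ≤ (S1 \ S2).card + S2.card := by
      rw [← card_sdiff_add_card_inter S1 S2]
      have := card_le_card (inter_subset_right (s₁ := S1) (s₂ := S2))
      omega
    have h2 : (S1.card : ℝ) ≤ ((S1 \ S2).card : ℝ) + S2.card := by exact_mod_cast h1
    linarith
  have hfin : c1 / 8 * (X : ℝ) / (m * B * Real.log w) ≤ ((S1 \ S2).card : ℝ) := by
    set Y : ℝ := (X : ℝ) / (m * B) with hY
    have hmBR : (0 : ℝ) < m * B := by exact_mod_cast hmB
    have hYT : Y < T + 2 := by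
      have h1 : X < m * B * (X / (m * B) + 1) := Nat.lt_mul_div_succ X hmB
      rw [← hTX] at h1
      rw [hY, div_lt_iff₀ hmBR]
      have h2 : (X : ℝ) < (m * B : ℝ) * ((T : ℝ) + 1 + 1) := by exact_mod_cast h1
      linarith
    have hY4 : 4 ≤ Y := by
      rw [hY, le_div_iff₀ hmBR]
      have h1 : 4 * (m * B) ≤ X := by
        have h2 : 4 ≤ X / (m * B) := by
          refine le_trans ?_ hdiv
          have : 2 ≤ w ^ K := by
            calc 2 ≤ w := by omega
              _ = w ^ 1 := (pow_one _).symm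
              _ ≤ w ^ K := Nat.pow_le_pow_right (by omega) (by omega)
          nlinarith
        rw [Nat.le_div_iff_mul_le hmB] at h2
        exact h2
      exact_mod_cast h1
    have hT2 : Y / 2 ≤ T := by linarith
    have hT0 : (0 : ℝ) < T := by linarith
    have hX0 : (0 : ℝ) < X := by
      have : 0 < X := lt_of_lt_of_le (by positivity) hX
      exact_mod_cast this
    have hsqrt : Real.sqrt X ≤ 2 * T / w := by
      have h1 : (m * B : ℝ) * w ≤ Real.sqrt X := by
        apply Real.le_sqrt_of_sq_le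
        have h2 : (m * B * w) ^ 2 ≤ X := by
          refine le_trans ?_ hX
          apply Nat.pow_le_pow_left
          apply Nat.mul_le_mul_left
          calc w = w ^ 1 := (pow_one _).symm
            _ ≤ w ^ K := Nat.pow_le_pow_right (by omega) (by omega)
        exact_mod_cast h2
      have h2 : Real.sqrt X * ((m * B : ℝ) * w) ≤ X := by
        calc Real.sqrt X * ((m * B : ℝ) * w) ≤ Real.sqrt X * Real.sqrt X :=
              mul_le_mul_of_nonneg_left h1 (Real.sqrt_nonneg _)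
          _ = X := Real.mul_self_sqrt hX0.le
      have h3 : Real.sqrt X ≤ Y / w := by
        rw [hY, div_div, le_div_iff₀ (by positivity)]
        exact h2
      refine h3.trans ?_
      apply div_le_div_of_nonneg_right _ hw0.le
      linarith
    have hS1c : (T : ℝ) * Pool.Agent.W41.V P / 2 ≤ S1.card := by
      have h1 := (abs_le.1 hs).1
      linarith
    have hTV : (T : ℝ) * (c1 / Real.log w) ≤ T * Pool.Agent.W41.V P :=
      mul_le_mul_of_nonneg_left hV hT0.le
    have hsmall : (T : ℝ) * (3 / w) ≤ T * (c1 / (4 * Real.log w)) := by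
      apply mul_le_mul_of_nonneg_left _ hT0.le
      rw [div_le_div_iff₀ hw0 (by positivity)]
      have := hw1 w hww
      linarith
    have e1 : (T : ℝ) * (3 / w) = T / w + 2 * T / w := by ring
    have e2 : (T : ℝ) * (c1 / (4 * Real.log w)) = T * (c1 / Real.log w) / 4 := by
      rw [mul_comm 4 (Real.log w), ← div_div]; ring
    have e3 : c1 / 8 * (X : ℝ) / (m * B * Real.log w) = Y / 2 * (c1 / Real.log w) / 4 := by
      rw [hY, ← div_div]; ring
    rw [e3]
    have hlast : Y / 2 * (c1 / Real.log w) ≤ T * (c1 / Real.log w) :=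
      mul_le_mul_of_nonneg_right hT2 (by positivity)
    linarith
  refine hfin.trans ?_
  exact_mod_cast hcard

end Pool.Agent.TH344.MT
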