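import Pool.Agent.TH344.MT.Stm2

/-! Project MT, part MT-SUM: the sum over the pairs. -/

set_option autoImplicit false

namespace Pool.Agent.TH344.MT

open Finset

namespace SumAux

lemma card_rough (w K n : ℕ) (hn : 1 ≤ n) (hle : n ≤ w ^ K)
    (hr : ∀ p : ℕ, p.Prime → p ≤ w → ¬ p ∣ n) : n.primeFactors.card ≤ K := by
  by_contra hcon
  push Not at hcon
  have h1 : (w + 1) ^ n.primeFactors.card ≤ ∏ p ∈ n.primeFactors, p := by
    refine Finset.pow_card_le_prod _ _ _ fun p hp => ?_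
    have hp' := Nat.mem_primeFactors.1 hp
    by_contra hlt
    exact hr p hp'.1 (by omega) hp'.2.1
  have h2 : ∏ p ∈ n.primeFactors, p ≤ n := Nat.le_of_dvd hn (Nat.prod_primeFactors_dvd n)
  have h3 : (w + 1) ^ K < (w + 1) ^ n.primeFactors.card ∨ w = 0 := by
    rcases Nat.eq_zero_or_pos w with h | h
    · exact Or.inr h
    · exact Or.inl (Nat.pow_lt_pow_right (by omega) hcon)
  rcases h3 with h3 | h3
  · have h4 : w ^ K ≤ (w + 1) ^ K := Nat.pow_le_pow_left (by omega) K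
    omega
  · subst h3
    have h5 : n = 1 := by
      rcases Nat.eq_zero_or_pos K with h | h
      · subst h; simp at hle; omega
      · rw [zero_pow (by omega)] at hle; omega
    subst h5
    simp at hcon

lemma mem_of_dvd_prod {S : Finset ℕ} (hS : ∀ p ∈ S, p.Prime) {p : ℕ} (hp : p.Prime)
    (h : p ∣ ∏ q ∈ S, q) : p ∈ S := by
  obtain ⟨q, hq, hpq⟩ := (hp.prime.dvd_finsetProd_iff _).1 h
  rwa [(Nat.prime_dvd_prime_iff_eq hp (hS q hq)).1 hpq]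

lemma mem_Pr {z w p : ℕ} : p ∈ Pr z w ↔ z < p ∧ p ≤ w ∧ p.Prime := by
  unfold Pr
  simp only [mem_filter, mem_Icc]
  constructor
  · rintro ⟨⟨h1, h2⟩, h3⟩
    exact ⟨by omega, h2, h3⟩
  · rintro ⟨h1, h2, h3⟩
    exact ⟨⟨by omega, h2⟩, h3⟩

lemma prod_pos' {z w : ℕ} {S : Finset ℕ} (hS : S ⊆ Pr z w) : 0 < ∏ q ∈ S, q :=
  Finset.prod_pos fun q hq => (mem_Pr.1 (hS hq)).2.2.pos

/-- the set of primes is determined by the product `a` -/
lemma eq_filter {z w : ℕ} {S : Finset ℕ} (hS : S ⊆ Pr z w) {n : ℕ}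
    (hr : ∀ p : ℕ, p.Prime → p ≤ w → ¬ p ∣ n) :
    S = (Pr z w).filter (fun p => p ∣ (∏ q ∈ S, q) * n) := by
  ext p
  rw [mem_filter]
  constructor
  · intro hp
    exact ⟨hS hp, Dvd.dvd.mul_right (Finset.dvd_prod_of_mem _ hp) n⟩
  · rintro ⟨h1, h2⟩
    have hp := mem_Pr.1 h1
    rcases (hp.2.2.dvd_mul).1 h2 with h | h
    · exact mem_of_dvd_prod (fun q hq => (mem_Pr.1 (hS hq)).2.2) hp.2.2 h
    · exact absurd h (hr p hp.2.2 hp.2.1)

lemma card_le {z w K : ℕ} {S : Finset ℕ} (hS : S ⊆ Pr z w) {n : ℕ} (hn : 1 ≤ n) (hle : n ≤ w ^ K)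
    (hr : ∀ p : ℕ, p.Prime → p ≤ w → ¬ p ∣ n) :
    ((∏ q ∈ S, q) * n).primeFactors.card ≤ S.card + K := by
  have h1 : ((∏ q ∈ S, q) * n).primeFactors ⊆ S ∪ n.primeFactors := by
    intro p hp
    have hp' := Nat.mem_primeFactors.1 hp
    rcases (hp'.1.dvd_mul).1 hp'.2.1 with h | h
    · exact mem_union_left _ (mem_of_dvd_prod (fun q hq => (mem_Pr.1 (hS hq)).2.2) hp'.1 h)
    · exact mem_union_right _ (Nat.mem_primeFactors.2 ⟨hp'.1, h, by omega⟩)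
  calc _ ≤ (S ∪ n.primeFactors).card := card_le_card h1
    _ ≤ S.card + n.primeFactors.card := card_union_le _ _
    _ ≤ S.card + K := by have := card_rough w K n hn hle hr; omega

lemma mem_Trip {z w L : ℕ} {t : Finset ℕ × Finset ℕ × Finset ℕ} (h : t ∈ Trip z w L) :
    t.1 ⊆ Pr z w ∧ t.2.1 ⊆ Pr z w ∧ t.2.2 ⊆ Pr z w := by
  unfold Trip at h
  simp only [mem_filter, mem_product, mem_powerset] at h
  exact h.1

lemma mem_NN {z Q w X : ℕ} {t : Finset ℕ × Finset ℕ × Finset ℕ} {n : ℕ × ℕ}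
    (h : n ∈ NN z Q w X t) : (1 ≤ n.1 ∧ n.1 ≤ X) ∧ (1 ≤ n.2 ∧ n.2 ≤ X) ∧
    ((∏ p ∈ t.2.1, p) * n.1, (∏ p ∈ t.2.2, p) * n.2) ∈ PA Q X ∧
    t.1 ⊆ GG z ((∏ p ∈ t.2.1, p) * n.1, (∏ p ∈ t.2.2, p) * n.2) ∧
    (∀ p : ℕ, p.Prime → p ≤ w → ¬ p ∣ n.1) ∧ (∀ p : ℕ, p.Prime → p ≤ w → ¬ p ∣ n.2) := by
  unfold NN at h
  simp only [mem_filter, mem_product, mem_Icc] at h
  exact ⟨h.1.1, h.1.2, h.2.1, h.2.2.1, fun p hp hw => (h.2.2.2 p hp hw).1,
    fun p hp hw => (h.2.2.2 p hp hw).2⟩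

end SumAux

open SumAux in
theorem sum_of (h1 : S_TRI) (h2 : S_EUL) : S_SUM := by
  classical
  intro κ z Q hκ hz hQ h4 hQ1
  obtain ⟨u, hu⟩ : ∃ u : ℝ, u = (2 : ℝ) ^ κ - 1 := ⟨_, rfl⟩
  have hu0 : 0 < u := by
    rw [hu]
    have := Real.one_lt_rpow (by norm_num : (1 : ℝ) < 2) hκ
    linarith
  obtain ⟨β, hβ⟩ : ∃ β : ℝ, β = (2 : ℝ) ^ (-κ) := ⟨_, rfl⟩
  have hβ0 : 0 < β := by rw [hβ]; positivity
  obtain ⟨L, w0, c, hL, hw0, hc, hE⟩ := h2 (u / 2) β z (by positivity) hβ0.le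
  obtain ⟨K, w1, c', hK, hw1, hc', hT⟩ := h1 z Q L hz hQ h4 hQ1 hL
  refine ⟨K, max w0 w1, c * c' * (β ^ (2 * K)), hK, le_trans hw0 (le_max_left _ _), by positivity, ?_⟩
  intro w hw
  have hww0 : w0 ≤ w := (le_max_left _ _).trans hw
  have hww1 : w1 ≤ w := (le_max_right _ _).trans hw
  have hw2 : 2 ≤ w := hw0.trans hww0
  have hlog : 0 < Real.log w := Real.log_pos (by exact_mod_cast (by omega : 1 < w))
  have hE' := hE w hww0
  have hT' := hT w hww1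
  -- the set of all `(t, n)`
  obtain ⟨F, hF⟩ : ∃ F : Finset (Σ _ : Finset ℕ × Finset ℕ × Finset ℕ, ℕ × ℕ),
    F = (Trip z w L).sigma (fun t => NN z Q w (w ^ K) t) := ⟨_, rfl⟩
  obtain ⟨Φ, hΦ⟩ : ∃ Φ : (Σ _ : Finset ℕ × Finset ℕ × Finset ℕ, ℕ × ℕ) → ℕ × ℕ,
    Φ = fun x => ((∏ p ∈ x.1.2.1, p) * x.2.1, (∏ p ∈ x.1.2.2, p) * x.2.2) := ⟨_, rfl⟩
  obtain ⟨f, hf⟩ : ∃ f : (Σ _ : Finset ℕ × Finset ℕ × Finset ℕ, ℕ × ℕ) → ℝ,
    f = fun x => u ^ x.1.1.card * β ^ (x.1.2.1.card + x.1.2.2.card + 2 * K) := ⟨_, rfl⟩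
  have hmaps : ∀ x ∈ F, Φ x ∈ PA Q (w ^ K) := by
    intro x hx
    rw [hF, mem_sigma] at hx
    rw [hΦ]
    exact (mem_NN hx.2).2.2.1
  -- the fibres
  have hfib : ∀ y ∈ PA Q (w ^ K), ∑ x ∈ F.filter (fun x => Φ x = y), f x ≤
      (2 : ℝ) ^ (κ * (((GG z y).card : ℝ) - y.1.primeFactors.card - y.2.primeFactors.card)) := by
    intro y hy
    have hβ1 : β ≤ 1 := by
      rw [hβ]
      exact Real.rpow_le_one_of_one_le_of_nonpos (by norm_num) (by linarith)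
    have e1 : (2 : ℝ) ^ (κ * (((GG z y).card : ℝ) - y.1.primeFactors.card -
        y.2.primeFactors.card)) =
        (u + 1) ^ (GG z y).card * β ^ (y.1.primeFactors.card + y.2.primeFactors.card) := by
      have hu1 : u + 1 = (2 : ℝ) ^ κ := by rw [hu]; ring
      rw [hu1, hβ, ← Real.rpow_natCast, ← Real.rpow_natCast, ← Real.rpow_mul (by norm_num),
        ← Real.rpow_mul (by norm_num), ← Real.rpow_add (by norm_num)]
      congr 1
      push_cast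
      ring
    rw [e1]
    have h3 : ∀ x ∈ F.filter (fun x => Φ x = y), f x ≤
        u ^ x.1.1.card * β ^ (y.1.primeFactors.card + y.2.primeFactors.card) := by
      intro x hx
      rw [mem_filter, hF, mem_sigma] at hx
      obtain ⟨⟨hx1, hx2⟩, hxy⟩ := hx
      obtain ⟨t1, t2, t3⟩ := mem_Trip hx1
      obtain ⟨n1, n2, -, -, n5, n6⟩ := mem_NN hx2
      rw [hf]
      apply mul_le_mul_of_nonneg_left _ (by positivity)
      apply pow_le_pow_of_le_one hβ0.le hβ1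
      rw [← hxy, hΦ]
      have a1 := card_le t2 n1.1 n1.2 n5
      have a2 := card_le t3 n2.1 n2.2 n6
      simp only
      omega
    refine (Finset.sum_le_sum h3).trans ?_
    rw [← Finset.sum_mul]
    apply mul_le_mul_of_nonneg_right _ (by positivity)
    have h4 : ∑ x ∈ F.filter (fun x => Φ x = y), u ^ x.1.1.card =
        ∑ S ∈ (F.filter (fun x => Φ x = y)).image (fun x => x.1.1), u ^ S.card := by
      rw [Finset.sum_image]
      intro x hx x' hx' hS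
      simp only [coe_filter, Set.mem_setOf_eq, hF, mem_sigma] at hx hx'
      obtain ⟨⟨hx1, hx2⟩, hxy⟩ := hx
      obtain ⟨⟨hx1', hx2'⟩, hxy'⟩ := hx'
      obtain ⟨t1, t2, t3⟩ := mem_Trip hx1
      obtain ⟨n1, n2, -, -, n5, n6⟩ := mem_NN hx2
      obtain ⟨t1', t2', t3'⟩ := mem_Trip hx1'
      obtain ⟨n1', n2', -, -, n5', n6'⟩ := mem_NN hx2'
      rw [← hxy', hΦ, Prod.mk.injEq] at hxy
      obtain ⟨e1, e2⟩ := hxy
      have s1 : x.1.2.1 = x'.1.2.1 := by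
        rw [eq_filter t2 n5, eq_filter t2' n5', e1]
      have s2 : x.1.2.2 = x'.1.2.2 := by
        rw [eq_filter t3 n6, eq_filter t3' n6', e2]
      have m1 : x.2.1 = x'.2.1 := by
        rw [s1] at e1
        exact Nat.eq_of_mul_eq_mul_left (prod_pos' t2') e1
      have m2 : x.2.2 = x'.2.2 := by
        rw [s2] at e2
        exact Nat.eq_of_mul_eq_mul_left (prod_pos' t3') e2
      obtain ⟨⟨S, S1, S2⟩, ⟨k1, k2⟩⟩ := x
      obtain ⟨⟨S', S1', S2'⟩, ⟨k1', k2'⟩⟩ := x'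
      simp only at s1 s2 m1 m2 hS
      subst s1 s2 m1 m2 hS
      rfl
    rw [h4]
    have h5 : (F.filter (fun x => Φ x = y)).image (fun x => x.1.1) ⊆ (GG z y).powerset := by
      intro S hS
      rw [mem_image] at hS
      obtain ⟨x, hx, rfl⟩ := hS
      rw [mem_filter, hF, mem_sigma] at hx
      obtain ⟨⟨hx1, hx2⟩, hxy⟩ := hx
      rw [mem_powerset, ← hxy, hΦ]
      exact (mem_NN hx2).2.2.2.1
    refine (Finset.sum_le_sum_of_subset_of_nonneg h5 fun _ _ _ => by positivity).trans ?_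
    have h6 := Finset.sum_pow_mul_eq_add_pow u 1 (GG z y)
    simp only [one_pow, mul_one] at h6
    exact h6.le
  -- the sum over everything
  have hsum : ∑ x ∈ F, f x ≤ ∑ t ∈ PA Q (w ^ K), (2 : ℝ) ^ (κ * (((GG z t).card : ℝ) -
      t.1.primeFactors.card - t.2.primeFactors.card)) := by
    rw [← Finset.sum_fiberwise_of_maps_to hmaps]
    exact Finset.sum_le_sum hfib
  refine le_trans ?_ hsum
  rw [hF, Finset.sum_sigma]
  have h7 : ∀ t ∈ Trip z w L, c' * ((w : ℝ) ^ K) ^ 2 / Real.log w ^ 2 * β ^ (2 * K) *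
      ((∏ p ∈ t.1, (u / 2 * (1 - 1 / (p : ℝ)) / p)) * (∏ p ∈ t.2.1, (β / (p : ℝ))) *
        ∏ p ∈ t.2.2, (β / (p : ℝ))) ≤ ∑ n ∈ NN z Q w (w ^ K) t, f ⟨t, n⟩ := by
    intro t ht
    have e1 : ∑ n ∈ NN z Q w (w ^ K) t, f ⟨t, n⟩ = ((NN z Q w (w ^ K) t).card : ℝ) *
        (u ^ t.1.card * β ^ (t.2.1.card + t.2.2.card + 2 * K)) := by
      rw [hf]
      simp
    rw [e1]
    have e2 : ∏ p ∈ t.1, (u / 2 * (1 - 1 / (p : ℝ)) / p) =
        u ^ t.1.card * ∏ p ∈ t.1, (1 / 2 * (1 - 1 / (p : ℝ)) / p) := by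
      rw [← Finset.prod_const, ← Finset.prod_mul_distrib]
      refine Finset.prod_congr rfl fun p _ => ?_
      ring
    have e3 : ∀ S : Finset ℕ, ∏ p ∈ S, (β / (p : ℝ)) = β ^ S.card * ∏ p ∈ S, (1 / (p : ℝ)) := by
      intro S
      rw [← Finset.prod_const, ← Finset.prod_mul_distrib]
      refine Finset.prod_congr rfl fun p _ => ?_
      ring
    rw [e2, e3, e3]
    calc _ = (c' * ((w : ℝ) ^ K) ^ 2 / Real.log w ^ 2 *
          ((∏ p ∈ t.1, (1 / 2 * (1 - 1 / (p : ℝ)) / p)) *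
            (∏ p ∈ t.2.1, (1 / (p : ℝ))) * ∏ p ∈ t.2.2, (1 / (p : ℝ)))) *
          (u ^ t.1.card * β ^ (t.2.1.card + t.2.2.card + 2 * K)) := by
          rw [pow_add, pow_add]; ring
      _ ≤ _ := mul_le_mul_of_nonneg_right (hT' t ht) (by positivity)
  refine le_trans ?_ (Finset.sum_le_sum h7)
  rw [← Finset.mul_sum]
  have hexp : (2 : ℝ) ^ (κ - 1) + (2 : ℝ) ^ (1 - κ) - 5 / 2 = (u / 2 + 2 * β) - 2 := by
    rw [Real.rpow_sub (by norm_num) κ 1, Real.rpow_sub (by norm_num) 1 κ, hu, hβ,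
      Real.rpow_neg (by norm_num), Real.rpow_one]
    field_simp
    ring
  rw [hexp, Real.rpow_sub hlog, show (2 : ℝ) = ((2 : ℕ) : ℝ) by norm_num, Real.rpow_natCast]
  calc c * c' * β ^ (2 * K) * ((w : ℝ) ^ K) ^ 2 *
        (Real.log w ^ (u / ((2 : ℕ) : ℝ) + ((2 : ℕ) : ℝ) * β) / Real.log w ^ 2)
      = c' * ((w : ℝ) ^ K) ^ 2 / Real.log w ^ 2 * β ^ (2 * K) *
        (c * Real.log w ^ (u / ((2 : ℕ) : ℝ) + ((2 : ℕ) : ℝ) * β)) := by ring
    _ ≤ _ := by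
      apply mul_le_mul_of_nonneg_left _ (by positivity)
      exact_mod_cast hE'

end Pool.Agent.TH344.MT
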