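import Mathlib
import Pool.Agent.TH344.MT.Stm

/-! Project MT: intermediate statements for `S_SUM`. -/

set_option autoImplicit false

namespace Pool.Agent.TH344.MT

open Finset

open Classical in
/-- the pairs `(n1, n2)` attached to a triple `t` of sets of primes: `a = (∏ t.2.1) n1`,
`b = (∏ t.2.2) n2`, `n1` and `n2` without prime factors `≤ w` -/
noncomputable def NN (z Q w X : ℕ) (t : Finset ℕ × Finset ℕ × Finset ℕ) : Finset (ℕ × ℕ) :=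
  ((Icc 1 X) ×ˢ (Icc 1 X)).filter (fun n =>
    ((∏ p ∈ t.2.1, p) * n.1, (∏ p ∈ t.2.2, p) * n.2) ∈ PA Q X ∧
    t.1 ⊆ GG z ((∏ p ∈ t.2.1, p) * n.1, (∏ p ∈ t.2.2, p) * n.2) ∧
    ∀ p : ℕ, p.Prime → p ≤ w → ¬ p ∣ n.1 ∧ ¬ p ∣ n.2)

/-- MT-TRI: the number of the pairs attached to a triple. -/
def S_TRI : Prop := ∀ (z Q L : ℕ), 3 ≤ z → (∀ p : ℕ, p.Prime → (p ∣ Q ↔ p ≤ z)) → 4 ∣ Q →
  1 ≤ Q → 1 ≤ L → ∃ (K w0 : ℕ) (c : ℝ), 1 ≤ K ∧ 2 ≤ w0 ∧ 0 < c ∧ ∀ w : ℕ, w0 ≤ w →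
    ∀ t ∈ Trip z w L,
    c * ((w : ℝ) ^ K) ^ 2 / Real.log w ^ 2 * ((∏ p ∈ t.1, (1 / 2 * (1 - 1 / (p : ℝ)) / p)) *
      (∏ p ∈ t.2.1, (1 / (p : ℝ))) * ∏ p ∈ t.2.2, (1 / (p : ℝ))) ≤
      ((NN z Q w (w ^ K) t).card : ℝ)

end Pool.Agent.TH344.MT
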