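import Mathlib
import Pool.Agent.TH344.MT.Stm
import Pool.Agent.TH344.MT.Stm2

/-! Project MT, `S_TRI`: the number of the pairs attached to a triple. -/

set_option autoImplicit false

namespace Pool.Agent.TH344.MT

open Finset

namespace TriAux

open Classical in
/-- the nonzero squares modulo `p` -/
noncomputable def RR (p : ℕ) : Finset ℕ :=
  (range p).filter (fun r => r ≠ 0 ∧ IsSquare ((r : ℕ) : ZMod p))

lemma RR_card {p : ℕ} (hp : p.Prime) (h2 : p ≠ 2) : ((p : ℝ) - 1) / 2 ≤ ((RR p).card : ℝ) := by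
  haveI := Fact.mk hp
  have hodd := hp.eq_two_or_odd.resolve_left h2
  have hcard : (Icc 1 ((p - 1) / 2)).card ≤ (RR p).card := by
    apply card_le_card_of_injOn (fun x => x ^ 2 % p)
    · intro x hx
      have hx' := mem_Icc.1 (mem_coe.1 hx)
      simp only [RR, coe_filter, mem_range, Set.mem_ofPred_eq]
      refine ⟨Nat.mod_lt _ hp.pos, ?_, ?_⟩
      · intro h
        have h1 : p ∣ x ^ 2 := Nat.dvd_of_mod_eq_zero h
        have h3 := hp.dvd_of_dvd_pow h1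
        have h4 := Nat.le_of_dvd (by omega) h3
        omega
      · rw [ZMod.natCast_mod]
        push_cast
        exact IsSquare.sq _
    · intro x hx y hy h
      have hx' := mem_Icc.1 (mem_coe.1 hx)
      have hy' := mem_Icc.1 (mem_coe.1 hy)
      simp only at h
      have h1 : ((x ^ 2 : ℕ) : ZMod p) = ((y ^ 2 : ℕ) : ZMod p) :=
        (ZMod.natCast_eq_natCast_iff' _ _ _).2 h
      push_cast at h1
      rcases sq_eq_sq_iff_eq_or_eq_neg.1 h1 with h3 | h3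
      · have h4 := (ZMod.natCast_eq_natCast_iff' _ _ _).1 h3
        rwa [Nat.mod_eq_of_lt (by omega), Nat.mod_eq_of_lt (by omega)] at h4
      · exfalso
        have h4 : ((x + y : ℕ) : ZMod p) = 0 := by
          push_cast
          rw [h3]
          ring
        have h5 := (ZMod.natCast_eq_zero_iff _ _).1 h4
        have h6 := Nat.le_of_dvd (by omega) h5
        omega
  rw [Nat.card_Icc] at hcard
  have h3 : 2 * ((p - 1) / 2) + 1 = p := by omega
  have h4 : (2 : ℝ) * (((p - 1) / 2 : ℕ) : ℝ) + 1 = p := by exact_mod_cast h3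
  have h5 : (((p - 1) / 2 : ℕ) : ℝ) ≤ (RR p).card := by
    have : (p - 1) / 2 ≤ (RR p).card := by omega
    exact_mod_cast this
  linarith

lemma prod_coprime (S : Finset ℕ) (m : ℕ) (hS : ∀ p ∈ S, p.Prime) (hm : ∀ p ∈ S, ¬ p ∣ m) :
    Nat.Coprime (∏ p ∈ S, p) m := by
  apply Nat.Coprime.prod_left
  intro p hp
  rw [Nat.Prime.coprime_iff_not_dvd (hS p hp)]
  exact hm p hp

lemma prod_squarefree (S : Finset ℕ) (hS : ∀ p ∈ S, p.Prime) : Squarefree (∏ p ∈ S, p) := by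
  classical
  induction S using Finset.induction_on with
  | empty => simp
  | insert a s ha ih =>
    rw [prod_insert ha, Nat.squarefree_mul]
    · exact ⟨(hS a (mem_insert_self _ _)).prime.squarefree, ih fun p hp => hS p (mem_insert_of_mem hp)⟩
    · have hap := hS a (mem_insert_self _ _)
      apply Nat.Coprime.symm
      apply prod_coprime s a (fun p hp => hS p (mem_insert_of_mem hp))
      intro p hp h
      have := (Nat.prime_dvd_prime_iff_eq (hS p (mem_insert_of_mem hp)) hap).1 h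
      subst this
      exact ha hp

lemma exists_A (S : Finset ℕ) (hS : ∀ p ∈ S, p.Prime) (Q : ℕ) (hQ1 : 1 < Q)
    (hQ : ∀ p ∈ S, ¬ p ∣ Q) (c : ℕ → ℕ) (hc : ∀ p ∈ S, ¬ p ∣ c p) (a : ℕ) (ha : a.Coprime Q)
    (m : ℕ) (hm : m.Coprime ((∏ p ∈ S, p) * Q)) :
    ∃ A : ℕ, A.Coprime ((∏ p ∈ S, p) * Q) ∧ ∀ n : ℕ, n ≡ A [MOD (∏ p ∈ S, p) * Q] →
      (∀ p ∈ S, m * n ≡ c p [MOD p]) ∧ m * n ≡ a [MOD Q] := by
  have hpp : Set.Pairwise (S : Set ℕ) (Function.onFun Nat.Coprime (fun p => p)) := by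
    intro p hp q hq hpq
    exact (Nat.coprime_primes (hS p hp) (hS q hq)).2 hpq
  obtain ⟨k, hk⟩ := Nat.chineseRemainderOfFinset c (fun p => p) S (fun p hp => (hS p hp).ne_zero) hpp
  have hDQ : Nat.Coprime (∏ p ∈ S, p) Q := prod_coprime S Q hS hQ
  obtain ⟨u, hu1, hu2⟩ := Nat.chineseRemainder hDQ k a
  have hup : ∀ p ∈ S, u ≡ c p [MOD p] := fun p hp =>
    (hu1.of_dvd (dvd_prod_of_mem _ hp)).trans (hk p hp)
  have hDpos : 0 < ∏ p ∈ S, p := prod_pos fun p hp => (hS p hp).pos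
  have hB1 : 1 < (∏ p ∈ S, p) * Q := lt_of_lt_of_le hQ1 (Nat.le_mul_of_pos_left _ hDpos)
  obtain ⟨m', hm'⟩ := Nat.exists_mul_mod_eq_one_of_coprime hm hB1
  have hmm : m * m' ≡ 1 [MOD (∏ p ∈ S, p) * Q] := by
    unfold Nat.ModEq
    rw [hm'.2, Nat.mod_eq_of_lt hB1]
  have hmA : m * (m' * u) ≡ u [MOD (∏ p ∈ S, p) * Q] := by
    have := Nat.ModEq.mul_right u hmm
    rwa [one_mul, mul_assoc] at this
  have huQ : u.Coprime Q := by
    unfold Nat.Coprime
    rw [hu2.gcd_eq]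
    exact ha
  have huD : u.Coprime (∏ p ∈ S, p) := by
    apply Nat.Coprime.symm
    apply prod_coprime S u hS
    intro p hp h
    exact hc p hp (((hup p hp).dvd_iff (dvd_refl p)).1 h)
  have huB : u.Coprime ((∏ p ∈ S, p) * Q) := Nat.Coprime.mul_right huD huQ
  refine ⟨m' * u, ?_, ?_⟩
  · have h1 : (m * (m' * u)).Coprime ((∏ p ∈ S, p) * Q) := by
      unfold Nat.Coprime
      rw [hmA.gcd_eq]
      exact huB
    exact Nat.Coprime.coprime_mul_left h1
  · intro n hn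
    have h1 : m * n ≡ u [MOD (∏ p ∈ S, p) * Q] := (Nat.ModEq.mul_left m hn).trans hmA
    constructor
    · intro p hp
      exact (h1.of_dvd ((dvd_prod_of_mem _ hp).mul_right Q)).trans (hup p hp)
    · exact (h1.of_dvd (dvd_mul_left _ _)).trans hu2

end TriAux

open TriAux

open Classical in
theorem tri_of (h : S_SIE) : S_TRI := by
  intro z Q L hz hQz hQ4 hQ1 hL
  obtain ⟨K1, w1, c1, hK1, hw1, hc1, hsie⟩ := h
  have hQ0 : (0 : ℝ) < Q := by exact_mod_cast hQ1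
  refine ⟨2 * (2 * L + 1 + K1), max w1 (max z Q), c1 ^ 2 / (Q : ℝ) ^ 2, by omega,
    hw1.trans (le_max_left _ _), by positivity, ?_⟩
  intro w hw t ht
  have hww1 : w1 ≤ w := (le_max_left _ _).trans hw
  have hwz : z ≤ w := ((le_max_left _ _).trans (le_max_right _ _)).trans hw
  have hwQ : Q ≤ w := ((le_max_right _ _).trans (le_max_right _ _)).trans hw
  have hw0 : 0 < w := by omega
  have hw0R : (0 : ℝ) < w := by exact_mod_cast hw0
  have hlogw : 0 < Real.log w := Real.log_pos (by exact_mod_cast (by omega : 1 < w))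
  set K := 2 * (2 * L + 1 + K1) with hK
  set X := w ^ K with hX
  obtain ⟨ht1, ht2, ht3, ht4, ht5, ht6, ht7⟩ := mem_filter.1 ht
  rw [mem_product, mem_product, mem_powerset, mem_powerset, mem_powerset] at ht1
  obtain ⟨hs1, hs2, hs3⟩ := ht1
  have hPr : ∀ p ∈ Pr z w, p.Prime ∧ z < p ∧ p ≤ w := by
    intro p hp
    obtain ⟨h1, h2⟩ := mem_filter.1 hp
    have h3 := mem_Icc.1 h1
    exact ⟨h2, by omega, h3.2⟩
  have hQ' : ∀ p ∈ Pr z w, ¬ p ∣ Q := by
    intro p hp hd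
    have := (hQz p (hPr p hp).1).1 hd
    have := (hPr p hp).2.1
    omega
  set S := t.1 with hS
  set D := ∏ p ∈ S, p with hD
  set m1 := ∏ p ∈ t.2.1, p with hm1
  set m2 := ∏ p ∈ t.2.2, p with hm2
  have hSp : ∀ p ∈ S, p.Prime := fun p hp => (hPr p (hs1 hp)).1
  have hD0 : 0 < D := prod_pos fun p hp => (hSp p hp).pos
  have hm10 : 0 < m1 := prod_pos fun p hp => (hPr p (hs2 hp)).1.pos
  have hm20 : 0 < m2 := prod_pos fun p hp => (hPr p (hs3 hp)).1.pos
  have hQlt : 1 < Q := by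
    have := Nat.le_of_dvd hQ1 hQ4
    omega
  have hcop : ∀ U : Finset ℕ, U ⊆ Pr z w → Disjoint S U → Nat.Coprime (∏ p ∈ U, p) (D * Q) := by
    intro U hU hdis
    apply prod_coprime U _ (fun p hp => (hPr p (hU hp)).1)
    intro p hp hd
    rcases (Nat.Prime.dvd_mul (hPr p (hU hp)).1).1 hd with h1 | h1
    · rw [hD, Prime.dvd_finsetProd_iff (hPr p (hU hp)).1.prime] at h1
      obtain ⟨q, hq, hpq⟩ := h1
      have := (Nat.prime_dvd_prime_iff_eq (hPr p (hU hp)).1 (hSp q hq)).1 hpq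
      subst this
      exact disjoint_left.1 hdis hq hp
    · exact hQ' p (hU hp) h1
  have hmc1 : m1.Coprime (D * Q) := hcop _ hs2 ht2
  have hmc2 : m2.Coprime (D * Q) := hcop _ hs3 ht3
  have hBp : ∀ p : ℕ, p.Prime → p ∣ D * Q → p ≤ w := by
    intro p hp hd
    rcases (Nat.Prime.dvd_mul hp).1 hd with h1 | h1
    · rw [hD, Prime.dvd_finsetProd_iff hp.prime] at h1
      obtain ⟨q, hq, hpq⟩ := h1
      have := (Nat.prime_dvd_prime_iff_eq hp (hSp q hq)).1 hpq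
      subst this
      exact (hPr p (hs1 hq)).2.2
    · exact ((hQz p hp).1 h1).trans hwz
  have hbig : ∀ m : ℕ, m ≤ w ^ L → (m * (D * Q) * w ^ K1) ^ 2 ≤ X := by
    intro m hm
    have h1 : m * (D * Q) * w ^ K1 ≤ w ^ L * (w ^ L * w) * w ^ K1 := by
      gcongr
    calc (m * (D * Q) * w ^ K1) ^ 2 ≤ (w ^ L * (w ^ L * w) * w ^ K1) ^ 2 :=
          Nat.pow_le_pow_left h1 2
      _ = X := by
          rw [hX, hK]
          ring
  -- the classes
  have hcls : ∀ (m : ℕ), m.Coprime (D * Q) → ∀ a : ℕ, a.Coprime Q →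
      ∀ f : (p : ℕ) → p ∈ S → ℕ, f ∈ S.pi RR → ∃ A : ℕ, A.Coprime (D * Q) ∧
        ∀ n : ℕ, n ≡ A [MOD D * Q] → (∀ (p : ℕ) (hp : p ∈ S), m * n ≡ f p hp [MOD p]) ∧
          m * n ≡ a [MOD Q] := by
    intro m hm a ha f hf
    have hf' := mem_pi.1 hf
    obtain ⟨A, hA1, hA2⟩ := exists_A S hSp Q hQlt (fun p hp => hQ' p (hs1 hp))
      (fun p => if hp : p ∈ S then f p hp else 0) (by
        intro p hp
        simp only [hp, dif_pos]
        obtain ⟨h1, h2, _⟩ := mem_filter.1 (hf' p hp)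
        have h3 := mem_range.1 h1
        intro hd
        exact absurd (Nat.le_of_dvd (Nat.pos_of_ne_zero h2) hd) (by omega)) a ha m hm
    refine ⟨A, hA1, fun n hn => ⟨fun p hp => ?_, (hA2 n hn).2⟩⟩
    have := (hA2 n hn).1 p hp
    simpa only [hp, dif_pos] using this
  have ha2 : (Q - 1).Coprime Q := by
    have h1 : Nat.Coprime (Q - 1) ((Q - 1) + 1) := by simp
    rwa [Nat.sub_add_cancel hQ1] at h1
  choose! A1 hA11 hA12 using hcls m1 hmc1 1 (Nat.coprime_one_left Q)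
  choose! A2 hA21 hA22 using hcls m2 hmc2 (Q - 1) ha2
  set NS : ℕ → ℕ → Finset ℕ := fun m A => (Icc 1 X).filter (fun n => m * n ≤ X ∧
    n ≡ A [MOD D * Q] ∧ (∀ p : ℕ, p.Prime → p ≤ w → ¬ p ∣ n) ∧ Squarefree n) with hNS
  have hNSm : ∀ m A n : ℕ, n ∈ NS m A ↔ (1 ≤ n ∧ n ≤ X) ∧ m * n ≤ X ∧
    n ≡ A [MOD D * Q] ∧ (∀ p : ℕ, p.Prime → p ≤ w → ¬ p ∣ n) ∧ Squarefree n := by
    intro m A n
    rw [hNS]
    simp only [mem_filter, mem_Icc]
  have hsub : (S.pi RR).biUnion (fun f => NS m1 (A1 f) ×ˢ NS m2 (A2 f)) ⊆ NN z Q w X t := by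
    intro n hn
    obtain ⟨f, hf, hn⟩ := mem_biUnion.1 hn
    obtain ⟨hn1, hn2⟩ := mem_product.1 hn
    obtain ⟨⟨h11, h12⟩, h13, h14, h15, h16⟩ := (hNSm _ _ _).1 hn1
    obtain ⟨⟨h21, h22⟩, h23, h24, h25, h26⟩ := (hNSm _ _ _).1 hn2
    obtain ⟨e1, e2⟩ := hA12 f hf n.1 h14
    obtain ⟨e3, e4⟩ := hA22 f hf n.2 h24
    have hf' := mem_pi.1 hf
    have hb1 : Q ∣ m2 * n.2 + 1 := by
      have h1 : m2 * n.2 + 1 ≡ Q - 1 + 1 [MOD Q] := Nat.ModEq.add_right 1 e4
      rw [Nat.sub_add_cancel hQ1] at h1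
      have h2 : m2 * n.2 + 1 ≡ 0 [MOD Q] := h1.trans (by simp [Nat.ModEq])
      exact Nat.modEq_zero_iff_dvd.1 h2
    unfold NN
    rw [mem_filter]
    refine ⟨mem_product.2 ⟨mem_Icc.2 ⟨h11, h12⟩, mem_Icc.2 ⟨h21, h22⟩⟩, ?_, ?_, ?_⟩
    · unfold PA
      rw [mem_filter]
      refine ⟨mem_product.2 ⟨mem_Icc.2 ⟨Nat.mul_pos hm10 h11, h13⟩,
        mem_Icc.2 ⟨Nat.mul_pos hm20 h21, h23⟩⟩, e2, hb1, ?_⟩
      show Squarefree (m1 * n.1)
      rw [Nat.squarefree_mul]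
      · exact ⟨prod_squarefree _ fun p hp => (hPr p (hs2 hp)).1, h16⟩
      · exact prod_coprime _ _ (fun p hp => (hPr p (hs2 hp)).1)
          (fun p hp => h15 p (hPr p (hs2 hp)).1 (hPr p (hs2 hp)).2.2)
    · intro p hp
      obtain ⟨g1, g2, g3⟩ := mem_filter.1 (hf' p hp)
      have g4 := mem_range.1 g1
      have hpp := hSp p hp
      have k1 : m1 * n.1 ≡ f p hp [MOD p] := e1 p hp
      have k2 : m2 * n.2 ≡ f p hp [MOD p] := e3 p hp
      have hnd : ¬ p ∣ m1 * n.1 := by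
        intro hd
        have := (k1.dvd_iff (dvd_refl p)).1 hd
        exact absurd (Nat.le_of_dvd (Nat.pos_of_ne_zero g2) this) (by omega)
      unfold GG
      rw [mem_filter, Nat.mem_primeFactors]
      refine ⟨⟨hpp, ?_, ?_⟩, (hPr p (hs1 hp)).2.1, hnd, ?_⟩
      · have h1 : m2 * n.2 ≡ m1 * n.1 [MOD p] := k2.trans k1.symm
        have h2 := (Nat.modEq_iff_dvd.1 h1)
        exact Int.natCast_dvd.1 h2
      · intro h0
        have h1 : ((m1 * n.1 : ℕ) : ℤ) - ((m2 * n.2 : ℕ) : ℤ) = 0 := Int.natAbs_eq_zero.1 h0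
        have h2 : m1 * n.1 = m2 * n.2 := by omega
        have h3 : m1 * n.1 ≡ 1 [MOD 4] := e2.of_dvd hQ4
        have h4 : 4 ∣ m2 * n.2 + 1 := dvd_trans hQ4 hb1
        unfold Nat.ModEq at h3
        omega
      · show IsSquare ((m1 * n.1 : ℕ) : ZMod p)
        have h1 : ((m1 * n.1 : ℕ) : ZMod p) = ((f p hp : ℕ) : ZMod p) :=
          (ZMod.natCast_eq_natCast_iff _ _ _).2 k1
        rw [h1]
        exact g3
    · intro p hp hpw
      exact ⟨h15 p hp hpw, h25 p hp hpw⟩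
  have hdisj : Set.PairwiseDisjoint (S.pi RR : Set ((p : ℕ) → p ∈ S → ℕ))
      (fun f => NS m1 (A1 f) ×ˢ NS m2 (A2 f)) := by
    intro f hf g hg hfg
    rw [Function.onFun, disjoint_left]
    intro n hn hn'
    apply hfg
    obtain ⟨hn1, _⟩ := mem_product.1 hn
    obtain ⟨hn2, _⟩ := mem_product.1 hn'
    obtain ⟨_, _, h14, _, _⟩ := (hNSm _ _ _).1 hn1
    obtain ⟨_, _, h24, _, _⟩ := (hNSm _ _ _).1 hn2
    have e1 := (hA12 f (mem_coe.1 hf) n.1 h14).1
    have e2 := (hA12 g (mem_coe.1 hg) n.1 h24).1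
    funext p hp
    have g1 := mem_range.1 (mem_filter.1 (mem_pi.1 (mem_coe.1 hf) p hp)).1
    have g2 := mem_range.1 (mem_filter.1 (mem_pi.1 (mem_coe.1 hg) p hp)).1
    exact Nat.ModEq.eq_of_lt_of_lt ((e1 p hp).symm.trans (e2 p hp)) g1 g2
  have hcardle := card_le_card hsub
  rw [card_biUnion (fun f hf g hg hfg => hdisj (mem_coe.2 hf) (mem_coe.2 hg) hfg)] at hcardle
  set E : ℕ → ℝ := fun m => c1 * (X : ℝ) / (m * ((D * Q : ℕ) : ℝ) * Real.log w) with hE
  have hEs : ∀ f ∈ S.pi RR, E m1 * E m2 ≤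
      ((NS m1 (A1 f) ×ˢ NS m2 (A2 f)).card : ℝ) := by
    intro f hf
    rw [card_product]
    push_cast
    have h1 := hsie w hww1 X m1 (D * Q) (A1 f) hm10 (Nat.mul_pos hD0 hQ1) (hbig m1 ht6)
      (hA11 f hf) hBp
    have h2 := hsie w hww1 X m2 (D * Q) (A2 f) hm20 (Nat.mul_pos hD0 hQ1) (hbig m2 ht7)
      (hA21 f hf) hBp
    have h3 : 0 ≤ E m2 := by
      rw [hE]
      positivity
    exact mul_le_mul h1 h2 h3 (Nat.cast_nonneg _)
  have hsum : ((S.pi RR).card : ℝ) * (E m1 * E m2) ≤ ((NN z Q w X t).card : ℝ) := by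
    have h1 : ((∑ f ∈ S.pi RR, (NS m1 (A1 f) ×ˢ NS m2 (A2 f)).card : ℕ) : ℝ) ≤
        ((NN z Q w X t).card : ℝ) := by exact_mod_cast hcardle
    refine le_trans ?_ h1
    push_cast
    have h2 := sum_le_sum hEs
    rw [sum_const, nsmul_eq_mul] at h2
    exact_mod_cast h2
  have hpi : ∏ p ∈ S, (((p : ℝ) - 1) / 2) ≤ ((S.pi RR).card : ℝ) := by
    rw [card_pi]
    push_cast
    apply prod_le_prod
    · intro p hp
      have : (1 : ℝ) ≤ p := by exact_mod_cast (hSp p hp).one_lt.le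
      linarith
    · intro p hp
      apply RR_card (hSp p hp)
      have := (hPr p (hs1 hp)).2.1
      omega
  refine le_trans (le_of_eq ?_) ((mul_le_mul_of_nonneg_right hpi (by rw [hE]; positivity)).trans hsum)
  have f1 : ∏ p ∈ S, (1 / 2 * (1 - 1 / (p : ℝ)) / p) =
      (∏ p ∈ S, (((p : ℝ) - 1) / 2)) / (D : ℝ) ^ 2 := by
    rw [hD]
    push_cast
    rw [← prod_pow, ← prod_div_distrib]
    apply prod_congr rfl
    intro p hp
    have : (p : ℝ) ≠ 0 := by exact_mod_cast (hSp p hp).ne_zero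
    field_simp
  have f2 : ∏ p ∈ t.2.1, (1 / (p : ℝ)) = 1 / (m1 : ℝ) := by
    rw [hm1]
    push_cast
    rw [prod_div_distrib, prod_const_one]
  have f3 : ∏ p ∈ t.2.2, (1 / (p : ℝ)) = 1 / (m2 : ℝ) := by
    rw [hm2]
    push_cast
    rw [prod_div_distrib, prod_const_one]
  rw [f1, f2, f3, hE]
  have hD0R : (D : ℝ) ≠ 0 := by exact_mod_cast hD0.ne'
  have hm10R : (m1 : ℝ) ≠ 0 := by exact_mod_cast hm10.ne'
  have hm20R : (m2 : ℝ) ≠ 0 := by exact_mod_cast hm20.ne'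
  have hXR : ((X : ℕ) : ℝ) = (w : ℝ) ^ K := by rw [hX]; push_cast; ring
  simp only
  rw [hXR]
  push_cast
  field_simp

end Pool.Agent.TH344.MT
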